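import Pool.Statements.S00720
import Pool.Agent.Lib.MP_0d8f30_al.BV.Main

set_option autoImplicit false
open Pool Pool.MP_0d8f30_al

namespace Pool.Agent.S00720

/-- The negation of the preceding statement: For a finite group G and a unit u of ZG with coefficients c, augmentation 1 and order p^m (p prime), the coefficients summed over elements of order p^k are 0 for every k≠m and 1 for k=m. -/
theorem result :
    ¬ (∀ (G : Type) [Group G] [Fintype G] [DecidableEq G] (p m : ℕ)
      (u : (MonoidAlgebra ℤ G)ˣ) (c : G → ℤ),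
      p.Prime →
      (u : MonoidAlgebra ℤ G) = ∑ g : G, c g • MonoidAlgebra.of ℤ G g →
      (∑ g : G, c g) = 1 →
      orderOf u = p ^ m →
      (∀ k : ℕ, k ≠ m →
          (∑ g ∈ Finset.univ.filter (fun g : G => orderOf g = p ^ k), c g) = 0) ∧
      (∑ g ∈ Finset.univ.filter (fun g : G => orderOf g = p ^ m), c g) = 1) := by
  intro H
  obtain ⟨G, iG, iF, iD, u, hu, h1, h2⟩ := Pool.Agent.Bovdi.main
  have h3 : (u : MonoidAlgebra ℤ G) =
      ∑ g : G, ((u : MonoidAlgebra ℤ G).coeff g) • MonoidAlgebra.of ℤ G g := by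
    ext g
    rw [MonoidAlgebra.coeff_sum, Finset.sum_apply']
    simp [MonoidAlgebra.of_apply, Finsupp.single_apply]
  have h4 := (H G 2 9 u (fun g => (u : MonoidAlgebra ℤ G).coeff g) Nat.prime_two h3 h1 hu).1 1
    (by norm_num)
  rw [pow_one] at h4
  have h5 : (8 : ℤ) = 0 := by
    rw [← h2, ← h4]
  norm_num at h5

end Pool.Agent.S00720
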