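import Pool.Statements.S01097
import Pool.Agent.Lib.MP_30fd2d_al.Final

set_option autoImplicit false
open Pool Pool.MP_30fd2d_al

namespace Pool.Agent.S01097

/-- For every prime p and nontrivial group word w there is n such that every finite p-soluble group whose Sylow p-subgroups satisfy the law w has p-length at most n. -/
theorem result :
    ∀ (p : ℕ), p.Prime → ∀ w : FreeGroup ℕ, w ≠ 1 →
      ∃ n : ℕ, ∀ (G : Type) [Group G] [Finite G],
        (∀ P : Sylow p G, ∀ f : FreeGroup ℕ →* G,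
            (∀ j : ℕ, f (FreeGroup.of j) ∈ (P : Subgroup G)) → f w = 1) →
        (∃ m : ℕ, ∃ N : ℕ → Subgroup G,
            N 0 = ⊥ ∧ N (2 * m + 1) = ⊤ ∧ (∀ i, (N i).Normal) ∧
            (∀ i, N i ≤ N (i + 1)) ∧
            (∀ i ≤ m, ∃ c : ℕ, Nat.Coprime c p ∧
                Nat.card (N (2 * i + 1)) = c * Nat.card (N (2 * i))) ∧
            (∀ i < m, ∃ k : ℕ,
                Nat.card (N (2 * i + 2)) = p ^ k * Nat.card (N (2 * i + 1)))) →
        ∃ N : ℕ → Subgroup G,
            N 0 = ⊥ ∧ N (2 * n + 1) = ⊤ ∧ (∀ i, (N i).Normal) ∧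
            (∀ i, N i ≤ N (i + 1)) ∧
            (∀ i ≤ n, ∃ c : ℕ, Nat.Coprime c p ∧
                Nat.card (N (2 * i + 1)) = c * Nat.card (N (2 * i))) ∧
            (∀ i < n, ∃ k : ℕ,
                Nat.card (N (2 * i + 2)) = p ^ k * Nat.card (N (2 * i + 1))) :=
  Pool.Agent.PLen.final_main

end Pool.Agent.S01097
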