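import Pool.Statements.S01996
import Pool.Agent.Lib.MP_794d84_al.Geo

set_option autoImplicit false
open Pool Pool.MP_794d84_al

namespace Pool.Agent.S01996

open Pool.Agent.Lib.MP_794d84_al
open scoped commutatorElement

/-- The group generated by `a` and `t`. -/
private abbrev Gp : Type := Subgroup.closure (Set.range io)

/-- The generators as elements of `Gp`. -/
private def gi (x : Ltr) : Gp := ⟨io x, Subgroup.subset_closure ⟨x, rfl⟩⟩

private lemma gi_prod (l : List Ltr) : (((l.map gi).prod : Gp) : Amb) = (l.map io).prod := by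
  induction l with
  | nil => rfl
  | cons x l ih =>
    rw [List.map_cons, List.prod_cons, Subgroup.coe_mul, ih, List.map_cons, List.prod_cons]
    rfl

private lemma io_tp_tm : io Ltr.tp * io Ltr.tm = 1 := by
  simp only [io, el_mul, map_one, mul_one]
  simp [el_one]

private lemma io_tm_tp : io Ltr.tm * io Ltr.tp = 1 := by
  simp only [io, el_mul, map_one, mul_one]
  simp [el_one]

private lemma exists_lift (w : List Gp) (h : ∀ x ∈ w, x ∈ Set.range gi) :
    ∃ l : List Ltr, l.map gi = w := by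
  induction w with
  | nil => exact ⟨[], rfl⟩
  | cons x w ih =>
    obtain ⟨y, hy⟩ := h x (by simp)
    obtain ⟨l, hl⟩ := ih (fun z hz => h z (by simp [hz]))
    exact ⟨y :: l, by rw [List.map_cons, hy, hl]⟩

/-- Powers of the three letters. -/
private lemma el_pow (j : ZMod 3) (n : ℕ) : (el (gen j 1) 0) ^ n = el (gen j (n : ℤ)) 0 := by
  induction n with
  | zero => simp [el_one]
  | succ n ih =>
    rw [pow_succ, ih, el_mul, rotp_0, MulAut.one_apply, ← gen_add, add_zero]
    push_cast; rfl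

private lemma el_inv (x : H9 ℤ) : (el x 0)⁻¹ = el x⁻¹ 0 := by
  rw [inv_eq_iff_mul_eq_one, el_mul, rotp_0, MulAut.one_apply, mul_inv_cancel, add_zero, el_one]

private lemma el_comm (x y : H9 ℤ) : ⁅el x 0, el y 0⁆ = el ⁅x, y⁆ 0 := by
  simp only [commutatorElement_def, el_inv, el_mul, rotp_0, MulAut.one_apply, add_zero]

private lemma comm_AB (m n : ℤ) : ⁅H9.A m, H9.B n⁆ = ⟨0, 0, 0, m * n, 0, 0, 0, 0, 0⟩ := by
  rw [commutatorElement_def]
  ext <;> simp

private lemma comm_abC (m n : ℤ) :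
    ⁅(⟨0, 0, 0, m, 0, 0, 0, 0, 0⟩ : H9 ℤ), H9.C n⁆ = ⟨0, 0, 0, 0, 0, 0, m * n, 0, -(m * n)⟩ := by
  rw [commutatorElement_def]
  ext <;> simp
  ring

private lemma mem_gen (j : ZMod 3) : el (gen j 1) 0 ∈ Subgroup.closure (Set.range io) := by
  have ha : el (gen 0 1) 0 ∈ Subgroup.closure (Set.range io) :=
    Subgroup.subset_closure ⟨Ltr.ap, rfl⟩
  have htp : el 1 1 ∈ Subgroup.closure (Set.range io) :=
    Subgroup.subset_closure ⟨Ltr.tp, rfl⟩
  have htm : el 1 (-1) ∈ Subgroup.closure (Set.range io) :=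
    Subgroup.subset_closure ⟨Ltr.tm, rfl⟩
  have step : ∀ j : ZMod 3, el (gen j 1) 0 ∈ Subgroup.closure (Set.range io) →
      el (gen (j + 1) 1) 0 ∈ Subgroup.closure (Set.range io) := by
    intro j hj
    have := mul_mem (mul_mem htp hj) htm
    rw [el_mul, el_mul, map_one, mul_one, one_mul, rotp_gen] at this
    rwa [add_comm 1 j, add_zero, add_neg_cancel] at this
  obtain rfl | rfl | rfl := zmod3_cases j
  · exact ha
  · simpa using step 0 ha
  · have h1 : el (gen 1 1) 0 ∈ Subgroup.closure (Set.range io) := by simpa using step 0 ha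
    have e : (1 : ZMod 3) + 1 = 2 := by decide
    have := step 1 h1
    rwa [e] at this

private lemma lcs_bot {G : Type} [Group G] (K : Subgroup G) (H : Subgroup K)
    (hbot : H.lowerCentralSeries 2 = ⊥) (x y z : K) (hx : x ∈ H) (hy : y ∈ H)
    (hz : z ∈ H) : ⁅⁅(x : G), (y : G)⁆, (z : G)⁆ = 1 := by
  have hmem : ⁅⁅x, y⁆, z⁆ ∈ H.lowerCentralSeries 2 :=
    Subgroup.commutator_mem_commutator (Subgroup.commutator_mem_commutator hx hy) hz
  rw [hbot, Subgroup.mem_bot] at hmem
  have h3 := congrArg (Subgroup.subtype _) hmem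
  rw [map_commutatorElement, map_commutatorElement, map_one, Subgroup.subtype_apply,
    Subgroup.subtype_apply, Subgroup.subtype_apply] at h3
  exact h3

private lemma exists_pow (H : Subgroup Gp) (hH : H.FiniteIndex) (j : ZMod 3) :
    ∃ n : ℕ, 0 < n ∧ ∃ x : Gp, x ∈ H ∧ (x : Amb) = el (gen j (n : ℤ)) 0 := by
  obtain ⟨n, hn0, hn, hmem⟩ := Subgroup.exists_pow_mem_of_index_ne_zero hH.index_ne_zero
    (⟨el (gen j 1) 0, mem_gen j⟩ : Gp)
  refine ⟨n, hn0, _, hmem, ?_⟩
  rw [Subgroup.coe_pow, el_pow]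

private lemma not_comm (n0 n1 n2 : ℕ) (h0 : 0 < n0) (h1 : 0 < n1) (h2 : 0 < n2) :
    ⁅⁅el (gen 0 (n0 : ℤ)) 0, el (gen 1 (n1 : ℤ)) 0⁆, el (gen 2 (n2 : ℤ)) 0⁆ ≠ 1 := by
  intro h3
  rw [el_comm, el_comm, gen_0, gen_1, gen_2, comm_AB, comm_abC, ← el_one] at h3
  have h4 := congrArg (fun z : Amb => z.left.abc) h3
  simp only [el, H9.one_abc] at h4
  have h5 : (n0 : ℤ) * n1 * n2 ≠ 0 := by positivity
  exact h5 h4

private lemma not_class_two (H : Subgroup Gp) (hH : H.FiniteIndex) :
    H.lowerCentralSeries 2 ≠ ⊥ := by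
  intro hbot
  obtain ⟨n0, h0, x0, hx0', hx0⟩ := exists_pow H hH 0
  obtain ⟨n1, h1, x1, hx1', hx1⟩ := exists_pow H hH 1
  obtain ⟨n2, h2, x2, hx2', hx2⟩ := exists_pow H hH 2
  have h3 := lcs_bot (Subgroup.closure (Set.range io)) H hbot x0 x1 x2 hx0' hx1' hx2'
  rw [hx0, hx1, hx2] at h3
  exact not_comm n0 n1 n2 h0 h1 h2 h3

/-- The negation of the preceding statement: For a group with a finite symmetric generating set S, if the number of geodesic words over S of length at most n is bounded by C(n+1)^d, then some finite-index subgroup has nilpotency class at most 2. -/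
theorem result :
    ¬ (∀ (G : Type) [Group G] (S : Finset G),
      (∀ s ∈ S, s⁻¹ ∈ S) →
      Subgroup.closure (S : Set G) = ⊤ →
      (∃ C d : ℕ, ∀ n : ℕ,
        Set.ncard {w : List G | w.length ≤ n ∧ (∀ x ∈ w, x ∈ S) ∧
          ∀ v : List G, (∀ x ∈ v, x ∈ S) → v.prod = w.prod → w.length ≤ v.length}
          ≤ C * (n + 1) ^ d) →
      ∃ H : Subgroup G, H.FiniteIndex ∧ lowerCentralSeries H 2 = ⊥) := by
  classical
  intro hall
  have hS : ∀ x : Gp, x ∈ (Finset.univ.image gi : Finset Gp) ↔ x ∈ Set.range gi := by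
    intro x; simp
  suffices h : ∃ H : Subgroup Gp, H.FiniteIndex ∧ H.lowerCentralSeries 2 = ⊥ by
    obtain ⟨H, hH, hbot⟩ := h
    exact not_class_two H hH hbot
  refine hall Gp (Finset.univ.image gi) ?_ ?_ ?_
  · intro s hs
    rw [hS] at hs ⊢
    obtain ⟨x, rfl⟩ := hs
    cases x with
    | ap =>
      refine ⟨Ltr.am, ?_⟩
      rw [eq_inv_iff_mul_eq_one]
      exact Subtype.ext io_am_ap
    | am =>
      refine ⟨Ltr.ap, ?_⟩
      rw [eq_inv_iff_mul_eq_one]
      exact Subtype.ext io_ap_am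
    | tp =>
      refine ⟨Ltr.tm, ?_⟩
      rw [eq_inv_iff_mul_eq_one]
      exact Subtype.ext io_tm_tp
    | tm =>
      refine ⟨Ltr.tp, ?_⟩
      rw [eq_inv_iff_mul_eq_one]
      exact Subtype.ext io_tp_tm
  · have : ((Finset.univ.image gi : Finset Gp) : Set Gp) =
        ((↑) : Gp → Amb) ⁻¹' (Set.range io) := by
      ext x
      rw [Finset.mem_coe, hS]
      constructor
      · rintro ⟨y, rfl⟩; exact ⟨y, rfl⟩
      · rintro ⟨y, hy⟩; exact ⟨y, Subtype.ext hy⟩
    rw [this]
    exact Subgroup.closure_closure_coe_preimage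
  · obtain ⟨M, hM⟩ := geo_count
    refine ⟨6 ^ (M + 1), M + 1, fun n => ?_⟩
    have hsub : {w : List Gp | w.length ≤ n ∧ (∀ x ∈ w, x ∈ (Finset.univ.image gi : Finset Gp)) ∧
          ∀ v : List Gp, (∀ x ∈ v, x ∈ (Finset.univ.image gi : Finset Gp)) →
            v.prod = w.prod → w.length ≤ v.length} ⊆
        (((T M n).image fun l => l.map gi : Finset (List Gp)) : Set (List Gp)) := by
      rintro w ⟨h1, h2, h3⟩
      obtain ⟨l, rfl⟩ := exists_lift w (fun x hx => (hS x).1 (h2 x hx))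
      rw [Finset.mem_coe]
      refine Finset.mem_image.2 ⟨l, hM n l ?_ (by simpa using h1), rfl⟩
      intro l' hl'
      have := h3 (l'.map gi) (by
        intro x hx
        rw [hS]
        obtain ⟨y, _, rfl⟩ := List.mem_map.1 hx
        exact ⟨y, rfl⟩) (by
        apply Subtype.ext
        rw [gi_prod, gi_prod, hl'])
      simpa using this
    refine (Set.ncard_le_ncard hsub (Finset.finite_toSet _)).trans ?_
    rw [Set.ncard_coe_finset]
    refine Finset.card_image_le.trans ((card_T M n).trans ?_)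
    rw [← mul_pow]
    exact Nat.pow_le_pow_left (by omega) _

end Pool.Agent.S01996
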