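-- Proof of frozen statement S02341: simplicity of the central quotients of the Virasoro
-- enveloping algebra at nonzero central charge.
import Pool.Statements.S02341
import Pool.Agent.Lib.MP_94cd9d_al.Final
import Pool.Agent.Lib.MP_94cd9d_al.Rep

set_option autoImplicit false
open Pool Pool.MP_94cd9d_al

namespace Pool.Agent.S02341

open Pool.Agent.Lib.VirSimple

/-- The defining relation. -/
def VRel (c : ℂ) (a b : FreeAlgebra ℂ ℤ) : Prop :=
  ∃ m n : ℤ,
    a = FreeAlgebra.ι ℂ m * FreeAlgebra.ι ℂ n - FreeAlgebra.ι ℂ n * FreeAlgebra.ι ℂ m ∧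
    b = ((m - n : ℤ) : ℂ) • FreeAlgebra.ι ℂ (m + n) +
      (if m + n = 0 then
        algebraMap ℂ (FreeAlgebra ℂ ℤ) (c * ((m : ℂ) ^ 3 - (m : ℂ)) / 12)
       else 0)

/-- The generators. -/
noncomputable def gen (c : ℂ) (m : ℤ) : RingQuot (VRel c) :=
  RingQuot.mkAlgHom ℂ (VRel c) (FreeAlgebra.ι ℂ m)

lemma gen_isVir (c : ℂ) : IsVir c (gen c) := by
  intro m n
  have h := RingQuot.mkAlgHom_rel ℂ (s := VRel c)
    (show VRel c (FreeAlgebra.ι ℂ m * FreeAlgebra.ι ℂ n - FreeAlgebra.ι ℂ n * FreeAlgebra.ι ℂ m)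
      (((m - n : ℤ) : ℂ) • FreeAlgebra.ι ℂ (m + n) +
      (if m + n = 0 then
        algebraMap ℂ (FreeAlgebra ℂ ℤ) (c * ((m : ℂ) ^ 3 - (m : ℂ)) / 12)
       else 0)) from ⟨m, n, rfl, rfl⟩)
  rw [map_sub, map_mul, map_mul, map_add, map_smul] at h
  unfold gen
  rw [h]
  congr 1
  split_ifs
  · rw [AlgHom.commutes]
  · rw [map_zero]

lemma mul_Fil {U : Type*} [Ring U] [Algebra ℂ U] (e : ℤ → U) {a b : ℕ} {x y : U}
    (hx : x ∈ Fil e a) (hy : y ∈ Fil e b) : x * y ∈ Fil e (a + b) := by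
  unfold Fil at hx
  induction hx using Submodule.span_induction with
  | mem x hx =>
    obtain ⟨ms, h1, rfl⟩ := hx
    unfold Fil at hy
    induction hy using Submodule.span_induction with
    | mem y hy =>
      obtain ⟨ms', h2, rfl⟩ := hy
      have : (ms.map e).prod * (ms'.map e).prod = ((ms ++ ms').map e).prod := by simp
      rw [this]
      exact prod_mem_Fil e (by simp; omega)
    | zero => simp
    | add x y _ _ hx hy => rw [mul_add]; exact Submodule.add_mem _ hx hy
    | smul a x _ hx => rw [mul_smul_comm]; exact Submodule.smul_mem _ _ hx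
  | zero => simp
  | add x y _ _ hx hy => rw [add_mul]; exact Submodule.add_mem _ hx hy
  | smul a x _ hx => rw [smul_mul_assoc]; exact Submodule.smul_mem _ _ hx

lemma gen_generates (c : ℂ) (u : RingQuot (VRel c)) : ∃ d, u ∈ Fil (gen c) d := by
  obtain ⟨x, rfl⟩ := RingQuot.mkAlgHom_surjective ℂ (VRel c) u
  induction x using FreeAlgebra.induction with
  | grade0 r =>
    refine ⟨0, ?_⟩
    rw [AlgHom.commutes, Algebra.algebraMap_eq_smul_one]
    refine Submodule.smul_mem _ _ ?_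
    have : (1 : RingQuot (VRel c)) = (([] : List ℤ).map (gen c)).prod := by simp
    rw [this]
    exact prod_mem_Fil _ (by simp)
  | grade1 m =>
    refine ⟨1, ?_⟩
    have : RingQuot.mkAlgHom ℂ (VRel c) (FreeAlgebra.ι ℂ m) = (([m] : List ℤ).map (gen c)).prod := by
      simp [gen]
    rw [this]
    exact prod_mem_Fil _ (by simp)
  | mul a b ha hb =>
    obtain ⟨d, hd⟩ := ha
    obtain ⟨d', hd'⟩ := hb
    exact ⟨d + d', by rw [map_mul]; exact mul_Fil _ hd hd'⟩
  | add a b ha hb =>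
    obtain ⟨d, hd⟩ := ha
    obtain ⟨d', hd'⟩ := hb
    refine ⟨max d d', ?_⟩
    rw [map_add]
    exact Submodule.add_mem _ (Fil_mono _ (le_max_left _ _) hd) (Fil_mono _ (le_max_right _ _) hd')

lemma rq_nontrivial (c : ℂ) : Nontrivial (RingQuot (VRel c)) := by
  have hrel : ∀ ⦃x y : FreeAlgebra ℂ ℤ⦄, VRel c x y →
      FreeAlgebra.lift ℂ (Lop c) x = FreeAlgebra.lift ℂ (Lop c) y := by
    rintro x y ⟨m, n, rfl, rfl⟩
    have h := Lop_isVir c m n
    rw [map_sub, map_mul, map_mul, map_add, map_smul]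
    simp only [FreeAlgebra.lift_ι_apply]
    rw [h]
    congr 1
    split_ifs
    · rw [AlgHom.commutes]
    · rw [map_zero]
  let F : RingQuot (VRel c) →ₐ[ℂ] Module.End ℂ (MvPolynomial ℤ ℂ) :=
    RingQuot.liftAlgHom ℂ ⟨FreeAlgebra.lift ℂ (Lop c), hrel⟩
  refine ⟨⟨0, 1, ?_⟩⟩
  intro h
  have h1 : F 0 = F 1 := by rw [h]
  rw [map_zero, map_one] at h1
  exact zero_ne_one h1

lemma simple_of_stable (c : ℂ) (hc : c ≠ 0) : IsSimpleRing (RingQuot (VRel c)) := by
  haveI := rq_nontrivial c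
  refine ⟨?_⟩
  haveI : Nontrivial (TwoSidedIdeal (RingQuot (VRel c))) := by
    refine ⟨⟨⊥, ⊤, ?_⟩⟩
    intro h
    have h1 : (1 : RingQuot (VRel c)) ∈ (⊥ : TwoSidedIdeal (RingQuot (VRel c))) := by
      rw [h]; exact TwoSidedIdeal.mem_top _
    rw [TwoSidedIdeal.mem_bot] at h1
    exact one_ne_zero h1
  refine ⟨?_⟩
  intro J
  by_cases hJ : J = ⊥
  · exact Or.inl hJ
  · right
    obtain ⟨f, hf, hf0⟩ : ∃ f ∈ J, f ≠ 0 := by
      by_contra hcon
      push Not at hcon
      apply hJ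
      rw [eq_bot_iff]
      intro x hx
      rw [hcon x hx]
      exact TwoSidedIdeal.zero_mem _
    let J' : Submodule ℂ (RingQuot (VRel c)) :=
      { carrier := {x | x ∈ J}
        add_mem' := fun ha hb => J.add_mem ha hb
        zero_mem' := J.zero_mem
        smul_mem' := by
          intro z x hx
          change z • x ∈ J
          rw [Algebra.smul_def]
          exact J.mul_mem_left _ _ hx }
    have h1 : (1 : RingQuot (VRel c)) ∈ J' := by
      refine one_mem_of_stable hc (gen_isVir c) (gen_generates c) J' ?_ (f := f) hf hf0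
      intro m u hu
      change gen c m * u - u * gen c m ∈ J
      exact J.sub_mem (J.mul_mem_left _ _ hu) (J.mul_mem_right _ _ hu)
    exact (TwoSidedIdeal.one_mem_iff J).1 h1

/-- For every complex c ≠ 0, the ℂ-algebra generated by L_n (n∈ℤ) modulo [L_m,L_n] = (m−n)L_{m+n} + δ_{m+n,0}·c(m³−m)/12 is a simple ring (nontrivial, only trivial two-sided ideals). -/
theorem result :
    ∀ c : ℂ, c ≠ 0 →
      IsSimpleRing
        (RingQuot (fun a b : FreeAlgebra ℂ ℤ =>
          ∃ m n : ℤ,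
            a = FreeAlgebra.ι ℂ m * FreeAlgebra.ι ℂ n - FreeAlgebra.ι ℂ n * FreeAlgebra.ι ℂ m ∧
            b = ((m - n : ℤ) : ℂ) • FreeAlgebra.ι ℂ (m + n) +
              (if m + n = 0 then
                algebraMap ℂ (FreeAlgebra ℂ ℤ) (c * ((m : ℂ) ^ 3 - (m : ℂ)) / 12)
               else 0))) := by
  intro c hc
  exact simple_of_stable c hc

end Pool.Agent.S02341
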