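import Pool.Statements.S02984
import Pool.Agent.Lib.MP_c37615_al.CC

set_option autoImplicit false
open Pool Pool.MP_c37615_al

namespace Pool.Agent.S02984

/-- The negation of the preceding statement: There is a group of affine maps of R^7 acting properly discontinuously and cocompactly, with linear parts preserving the split G2 3-form and Zariski dense in that form's full stabilizer (split G2). -/
theorem result :
    ¬ (∀ e : Fin 7 → Fin 7 → Fin 7 → (Fin 7 → ℝ) → (Fin 7 → ℝ) → (Fin 7 → ℝ) → ℝ,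
      (∀ (i j k : Fin 7) (u v w : Fin 7 → ℝ),
        e i j k u v w = Matrix.det !![u i, u j, u k; v i, v j, v k; w i, w j, w k]) →
    ∀ φ : (Fin 7 → ℝ) → (Fin 7 → ℝ) → (Fin 7 → ℝ) → ℝ,
      (∀ u v w : Fin 7 → ℝ, φ u v w = e 0 1 2 u v w - e 0 3 4 u v w - e 0 5 6 u v w
          - e 1 3 5 u v w + e 1 4 6 u v w + e 2 3 6 u v w + e 2 4 5 u v w) →
    ∃ Γ : Subgroup (AffineEquiv ℝ (Fin 7 → ℝ) (Fin 7 → ℝ)),
      (∀ K : Set (Fin 7 → ℝ), IsCompact K →
        {γ : AffineEquiv ℝ (Fin 7 → ℝ) (Fin 7 → ℝ) |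
          γ ∈ Γ ∧ ((⇑γ) '' K ∩ K).Nonempty}.Finite) ∧
      (∃ K : Set (Fin 7 → ℝ), IsCompact K ∧ ∀ x : Fin 7 → ℝ, ∃ γ ∈ Γ, x ∈ (⇑γ) '' K) ∧
      (∀ γ ∈ Γ, ∀ u v w : Fin 7 → ℝ,
        φ (γ.linear u) (γ.linear v) (γ.linear w) = φ u v w) ∧
      (∀ P : MvPolynomial (Fin 7 × Fin 7) ℝ,
        (∀ γ ∈ Γ, MvPolynomial.eval (fun p : Fin 7 × Fin 7 =>
            LinearMap.toMatrix' γ.linear.toLinearMap p.1 p.2) P = 0) →
        ∀ A : Matrix (Fin 7) (Fin 7) ℝ,
          (∀ u v w : Fin 7 → ℝ,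
            φ (Matrix.mulVec A u) (Matrix.mulVec A v) (Matrix.mulVec A w) = φ u v w) →
          MvPolynomial.eval (fun p : Fin 7 × Fin 7 => A p.1 p.2) P = 0)) := by
  intro H
  obtain ⟨Γ, h1, h2, h3, h4⟩ := H
    (fun i j k u v w => Matrix.det !![u i, u j, u k; v i, v j, v k; w i, w j, w k])
    (fun i j k u v w => rfl) C37.phi
    (by
      intro u v w
      simp only [C37.phi, C37.e3, C37.det3, Matrix.det_fin_three, Matrix.cons_val', Matrix.cons_val_zero,
        Matrix.cons_val_one, Matrix.cons_val_two, Matrix.of_apply, Matrix.cons_val_fin_one,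
        Matrix.head_cons, Matrix.tail_cons, Matrix.head_fin_const, Matrix.cons_val]
      ring)
  exact C37.no_cryst Γ ⟨h1, h2, h3, h4⟩

end Pool.Agent.S02984
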