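import Pool.Statements.S03098

/-!
# A finitely generated co-hopfian subsemigroup of finite Green index in a non-co-hopfian semigroup

`S` is the monoid consisting of the infinite dihedral group `G` (elements `g n e`, thought of as the
affine maps `t ↦ n + e t` of the integers, `e = 1` or `e = -1`), together with an ideal consisting
of elements `a n`, `b n` (`n` an integer), `c` and a zero `z`.  The group acts trivially on the `a`s
from the left and on the `b`s from the right, and `a m * b n` is `c` if `m + n` is plus or minus a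
power of two and is zero otherwise.  Doubling is an injective non-surjective endomorphism of `S`.
`T` is obtained from `S` by replacing `G` by its index two subgroup `H` of the elements
`g n ((-1)^n)`.
-/

set_option autoImplicit false
open Pool Pool.MP_ce123d_al

namespace Pool.Agent.S03098

/-- the set of all integers of the form plus or minus a power of two -/
def A (n : ℤ) : Prop := ∃ k : ℕ, n = 2 ^ k ∨ n = -2 ^ k

lemma A_neg (n : ℤ) : A (-n) ↔ A n := by
  unfold A
  constructor
  · rintro ⟨k, h | h⟩
    · exact ⟨k, Or.inr (by linarith)⟩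
    · exact ⟨k, Or.inl (by linarith)⟩
  · rintro ⟨k, h | h⟩
    · exact ⟨k, Or.inr (by rw [h])⟩
    · exact ⟨k, Or.inl (by rw [h]; ring)⟩

lemma A_unit (e : ℤˣ) (n : ℤ) : A ((e : ℤ) * n) ↔ A n := by
  rcases Int.units_eq_one_or e with rfl | rfl
  · simp
  · simpa using A_neg n

lemma A_two (n : ℤ) : A (2 * n) ↔ A n := by
  unfold A
  constructor
  · rintro ⟨k, h⟩
    cases k with
    | zero => exfalso; simp only [pow_zero] at h; omega
    | succ k =>
      refine ⟨k, ?_⟩
      rw [pow_succ] at h
      rcases h with h | h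
      · left; linarith
      · right; linarith
  · rintro ⟨k, h | h⟩
    · exact ⟨k + 1, Or.inl (by rw [h, pow_succ]; ring)⟩
    · exact ⟨k + 1, Or.inr (by rw [h, pow_succ]; ring)⟩

lemma A_odd {n : ℤ} (hn : n % 2 = 1) (h : A n) : n = 1 ∨ n = -1 := by
  obtain ⟨k, h⟩ := h
  cases k with
  | zero => simpa using h
  | succ k => exfalso; rw [pow_succ] at h; omega

lemma A_pow (k : ℕ) : A (2 ^ k) := ⟨k, Or.inl rfl⟩

/-- the elements of the semigroup -/
inductive El : Type
  | g (n : ℤ) (e : ℤˣ) : El
  | a (n : ℤ) : El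
  | b (n : ℤ) : El
  | c : El
  | z : El

open El

open Classical in
/-- the multiplication -/
noncomputable def mul : El → El → El
  | g n e, g m d => g (n + e * m) (e * d)
  | g _ _, a m => a m
  | g n e, b m => b (n + e * m)
  | g _ _, c => c
  | g _ _, z => z
  | a m, g n e => a (e * (m + n))
  | a _, a _ => z
  | a m, b n => if A (m + n) then c else z
  | a _, c => z
  | a _, z => z
  | b m, g _ _ => b m
  | b _, a _ => z
  | b _, b _ => z
  | b _, c => z
  | b _, z => z
  | c, g _ _ => c
  | c, a _ => z
  | c, b _ => z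
  | c, c => z
  | c, z => z
  | z, _ => z

noncomputable instance : Mul El := ⟨mul⟩

lemma gg (n m : ℤ) (e d : ℤˣ) : g n e * g m d = g (n + e * m) (e * d) := rfl
lemma ga (n m : ℤ) (e : ℤˣ) : g n e * a m = a m := rfl
lemma gb (n m : ℤ) (e : ℤˣ) : g n e * b m = b (n + e * m) := rfl
lemma gc (n : ℤ) (e : ℤˣ) : g n e * c = c := rfl
lemma ag (m n : ℤ) (e : ℤˣ) : a m * g n e = a (e * (m + n)) := rfl
lemma aa (m n : ℤ) : a m * a n = z := rfl
open Classical in
lemma ab (m n : ℤ) : a m * b n = if A (m + n) then c else z := rfl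
lemma ac (m : ℤ) : a m * c = z := rfl
lemma bg (m n : ℤ) (e : ℤˣ) : b m * g n e = b m := rfl
lemma ba (m n : ℤ) : b m * a n = z := rfl
lemma bb (m n : ℤ) : b m * b n = z := rfl
lemma bc (m : ℤ) : b m * c = z := rfl
lemma cg (n : ℤ) (e : ℤˣ) : c * g n e = c := rfl
lemma ca (n : ℤ) : c * a n = z := rfl
lemma cb (n : ℤ) : c * b n = z := rfl
lemma cc : c * c = z := rfl
lemma zx (x : El) : z * x = z := rfl
lemma xz (x : El) : x * z = z := by cases x <;> rfl

lemma uu (e : ℤˣ) : (e : ℤ) * e = 1 := by
  rcases Int.units_eq_one_or e with rfl | rfl <;> simp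

lemma assoc' (x y w : El) : x * y * w = x * (y * w) := by
  have key : ∀ (e : ℤˣ) (m n k : ℤ), A (e * (m + n) + k) ↔ A (m + (n + e * k)) := by
    intro e m n k
    rw [← A_unit e (m + (n + e * k))]
    have : (e : ℤ) * (m + (n + e * k)) = e * (m + n) + k := by
      linear_combination k * uu e
    rw [this]
  cases x <;> cases y <;> cases w
  case a.g.b m n e k =>
    simp only [ag, gb, ab]
    by_cases h1 : A (m + (n + e * k))
    · rw [if_pos h1, if_pos ((key e m n k).2 h1)]
    · rw [if_neg h1, if_neg (fun h2 => h1 ((key e m n k).1 h2))]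
  all_goals
    simp only [gg, ga, gb, gc, ag, aa, ab, ac, bg, ba, bb, bc, cg, ca, cb, cc,
      zx, xz, ite_mul, mul_ite, ite_self]
  · congr 1
    · push_cast; ring
    · rw [mul_assoc]
  · congr 1
    push_cast; ring
  · rename_i m n e k d
    congr 1
    push_cast
    linear_combination (-(d : ℤ) * k) * uu e

noncomputable instance : Semigroup El := { mul_assoc := assoc' }

/-- doubling -/
def dbl : El → El
  | g n e => g (2 * n) e
  | a n => a (2 * n)
  | b n => b (2 * n)
  | c => c
  | z => z

lemma dbl_mul (x y : El) : dbl (x * y) = dbl x * dbl y := by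
  have key : ∀ m n : ℤ, A (2 * m + 2 * n) ↔ A (m + n) := by
    intro m n
    rw [← A_two (m + n), mul_add]
  cases x <;> cases y
  case a.b m n =>
    simp only [dbl, ab]
    by_cases h1 : A (m + n)
    · rw [if_pos h1, if_pos ((key m n).2 h1)]
    · rw [if_neg h1, if_neg (fun h2 => h1 ((key m n).1 h2))]
  all_goals
    simp only [gg, ga, gb, gc, ag, aa, ac, bg, ba, bb, bc, cg, ca, cb, cc,
      zx, xz, dbl]
  · congr 1; ring
  · congr 1; ring
  · congr 1; ring

/-- the sign `(-1)^n` -/
def sg (n : ℤ) : ℤˣ := if n % 2 = 0 then 1 else -1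

lemma sg_even {n : ℤ} (h : n % 2 = 0) : sg n = 1 := by simp [sg, h]
lemma sg_odd {n : ℤ} (h : n % 2 = 1) : sg n = -1 := by simp [sg, h]

lemma sg_add (n m : ℤ) : sg (n + sg n * m) = sg n * sg m := by
  rcases Int.emod_two_eq_zero_or_one n with hn | hn <;>
  rcases Int.emod_two_eq_zero_or_one m with hm | hm
  · rw [sg_even hn, sg_even hm, sg_even]
    · rfl
    · simp; omega
  · rw [sg_even hn, sg_odd hm, sg_odd]
    · rfl
    · simp; omega
  · rw [sg_odd hn, sg_even hm, sg_odd]
    · rfl
    · simp; omega
  · rw [sg_odd hn, sg_odd hm, sg_even]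
    · rfl
    · simp; omega

/-- membership in the subsemigroup `T` -/
def inT : El → Prop
  | g n e => e = sg n
  | _ => True

/-- the subsemigroup `T` -/
noncomputable def T : Subsemigroup El where
  carrier := {x | inT x}
  mul_mem' := by
    intro x y hx hy
    cases x <;> cases y
    case g.g n e m d =>
      have h1 : e = sg n := hx
      have h2 : d = sg m := hy
      subst h1 h2
      exact (sg_add n m).symm
    case a.b m n =>
      change inT (a m * b n)
      rw [ab]
      split_ifs <;> trivial
    all_goals trivial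

/-- the elements of the group part of `T` -/
def h (n : ℤ) : T := ⟨g n (sg n), rfl⟩
def ta (n : ℤ) : T := ⟨a n, trivial⟩
def tb (n : ℤ) : T := ⟨b n, trivial⟩
def tc : T := ⟨c, trivial⟩
def tz : T := ⟨z, trivial⟩

lemma T_cases (x : T) : (∃ n, x = h n) ∨ (∃ n, x = ta n) ∨ (∃ n, x = tb n) ∨ x = tc ∨ x = tz := by
  obtain ⟨x, hx⟩ := x
  cases x with
  | g n e =>
    have : e = sg n := hx
    subst this
    exact Or.inl ⟨n, rfl⟩
  | a n => exact Or.inr (Or.inl ⟨n, rfl⟩)
  | b n => exact Or.inr (Or.inr (Or.inl ⟨n, rfl⟩))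
  | c => exact Or.inr (Or.inr (Or.inr (Or.inl rfl)))
  | z => exact Or.inr (Or.inr (Or.inr (Or.inr rfl)))

lemma h_inj {m n : ℤ} (e : h m = h n) : m = n := by
  have := congrArg Subtype.val e
  simp only [h] at this
  injection this

lemma ta_inj {m n : ℤ} (e : ta m = ta n) : m = n := by
  have := congrArg Subtype.val e
  simp only [ta] at this
  injection this

lemma tb_inj {m n : ℤ} (e : tb m = tb n) : m = n := by
  have := congrArg Subtype.val e
  simp only [tb] at this
  injection this

lemma hh (m n : ℤ) : h m * h n = h (m + sg m * n) := by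
  apply Subtype.ext
  change g m (sg m) * g n (sg n) = g (m + sg m * n) (sg (m + sg m * n))
  rw [gg, sg_add]

lemma hh_even {m : ℤ} (hm : m % 2 = 0) (n : ℤ) : h m * h n = h (m + n) := by
  rw [hh, sg_even hm]; simp

lemma hh_odd {m : ℤ} (hm : m % 2 = 1) (n : ℤ) : h m * h n = h (m - n) := by
  rw [hh, sg_odd hm]; simp [sub_eq_add_neg]

lemma hta (m n : ℤ) : h m * ta n = ta n := rfl
lemma htb (m n : ℤ) : h m * tb n = tb (m + sg m * n) := rfl
lemma tah (m n : ℤ) : ta m * h n = ta (sg n * (m + n)) := rfl
lemma tbh (m n : ℤ) : tb m * h n = tb m := rfl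
lemma tch (n : ℤ) : tc * h n = tc := rfl
lemma htc (n : ℤ) : h n * tc = tc := rfl
lemma tzx (x : T) : tz * x = tz := rfl
lemma xtz (x : T) : x * tz = tz := Subtype.ext (xz x.1)
lemma taa (m n : ℤ) : ta m * ta n = tz := rfl
lemma tbb (m n : ℤ) : tb m * tb n = tz := rfl
lemma tcc : tc * tc = tz := rfl
open Classical in
lemma tab (m n : ℤ) : ta m * tb n = if A (m + n) then tc else tz := by
  apply Subtype.ext
  change a m * b n = _
  rw [ab]
  split_ifs <;> rfl

lemma hne_ta (m n : ℤ) : h m ≠ ta n := by
  intro e
  have := congrArg Subtype.val e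
  simp only [h, ta] at this
  injection this
lemma hne_tb (m n : ℤ) : h m ≠ tb n := by
  intro e
  have := congrArg Subtype.val e
  simp only [h, tb] at this
  injection this
lemma hne_tc (m : ℤ) : h m ≠ tc := by
  intro e
  have := congrArg Subtype.val e
  simp only [h, tc] at this
  injection this
lemma hne_tz (m : ℤ) : h m ≠ tz := by
  intro e
  have := congrArg Subtype.val e
  simp only [h, tz] at this
  injection this
lemma tane_tz (m : ℤ) : ta m ≠ tz := by
  intro e
  have := congrArg Subtype.val e
  simp only [ta, tz] at this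
  injection this
lemma tbne_tz (m : ℤ) : tb m ≠ tz := by
  intro e
  have := congrArg Subtype.val e
  simp only [tb, tz] at this
  injection this
lemma tcne_tz : tc ≠ tz := by
  intro e
  have := congrArg Subtype.val e
  simp only [tc, tz] at this
  injection this
lemma tane_tc (m : ℤ) : ta m ≠ tc := by
  intro e
  have := congrArg Subtype.val e
  simp only [ta, tc] at this
  injection this
lemma tbne_tc (m : ℤ) : tb m ≠ tc := by
  intro e
  have := congrArg Subtype.val e
  simp only [tb, tc] at this
  injection this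

/-- the idempotents of `T` are the identity and the zero -/
lemma idem {x : T} (hx : x * x = x) : x = h 0 ∨ x = tz := by
  rcases T_cases x with ⟨n, rfl⟩ | ⟨n, rfl⟩ | ⟨n, rfl⟩ | rfl | rfl
  · left
    rcases Int.emod_two_eq_zero_or_one n with hn | hn
    · rw [hh_even hn] at hx
      have := h_inj hx
      have h0 : n = 0 := by omega
      rw [h0]
    · rw [hh_odd hn] at hx
      have := h_inj hx
      omega
  · exact absurd hx.symm (tane_tz n)
  · exact absurd hx.symm (tbne_tz n)
  · exact absurd hx.symm tcne_tz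
  · right; rfl

lemma h_of_mul {x y : T} (hx : x * y = h 0) : ∃ n, x = h n := by
  rcases T_cases x with ⟨n, rfl⟩ | ⟨n, rfl⟩ | ⟨n, rfl⟩ | rfl | rfl
  · exact ⟨n, rfl⟩
  all_goals
    exfalso
    rcases T_cases y with ⟨m, rfl⟩ | ⟨m, rfl⟩ | ⟨m, rfl⟩ | rfl | rfl
  all_goals
    first
    | exact hne_ta _ _ hx.symm
    | exact hne_tb _ _ hx.symm
    | exact hne_tc _ hx.symm
    | exact hne_tz _ hx.symm
    | skip
  rw [tab] at hx
  split_ifs at hx
  · exact hne_tc _ hx.symm
  · exact hne_tz _ hx.symm

/-- `T` is co-hopfian. -/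
lemma T_cohopf (f : T →ₙ* T) (hf : Function.Injective f) : Function.Surjective f := by
  have h00 : h 0 * h 0 = h 0 := by rw [hh_even (by norm_num)]; rfl
  -- the zero is fixed
  have fz : f tz = tz := by
    have h1 : f tz * f tz = f tz := by rw [← map_mul]; rfl
    rcases idem h1 with h2 | h2
    · exfalso
      have h3 : f (h 0) * f (h 0) = f (h 0) := by rw [← map_mul, h00]
      rcases idem h3 with h4 | h4
      · exact hne_tz 0 (hf (h4.trans h2.symm))
      · have h5 : f tz = f tz * f (h 0) := by rw [← map_mul]; rfl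
        rw [h4, xtz, h2] at h5
        exact hne_tz 0 h5
    · exact h2
  -- the identity is fixed
  have f1 : f (h 0) = h 0 := by
    have h3 : f (h 0) * f (h 0) = f (h 0) := by rw [← map_mul, h00]
    rcases idem h3 with h4 | h4
    · exact h4
    · exact absurd (hf (h4.trans fz.symm)) (hne_tz 0)
  -- the group part is preserved
  have fh : ∀ n, ∃ m, f (h n) = h m := by
    intro n
    have : ∃ n', h n * h n' = h 0 := by
      rcases Int.emod_two_eq_zero_or_one n with hn | hn
      · exact ⟨-n, by rw [hh_even hn]; congr 1; ring⟩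
      · exact ⟨n, by rw [hh_odd hn]; congr 1; ring⟩
    obtain ⟨n', hn'⟩ := this
    apply h_of_mul (y := f (h n'))
    rw [← map_mul, hn', f1]
  -- image of `h 1`
  obtain ⟨l, hl⟩ := fh 1
  have hl1 : l % 2 = 1 := by
    rcases Int.emod_two_eq_zero_or_one l with h1 | h1
    · exfalso
      have h2 : f (h 1) * f (h 1) = h 0 := by
        rw [← map_mul, hh_odd (by norm_num)]
        simpa using f1
      rw [hl, hh_even h1] at h2
      have h3 := h_inj h2
      have h4 : l = 0 := by omega
      rw [h4, ← f1] at hl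
      have := h_inj (hf hl)
      omega
    · exact h1
  -- image of `h 2`
  obtain ⟨k', hk'⟩ := fh 2
  have hk2 : k' % 2 = 0 := by
    rcases Int.emod_two_eq_zero_or_one k' with h1 | h1
    · exact h1
    · exfalso
      have h2 : f (h 2) * f (h 2) = f (h 4) := by
        rw [← map_mul, hh_even (by norm_num)]; rfl
      rw [hk', hh_odd h1, sub_self, ← f1] at h2
      have := h_inj (hf h2)
      omega
  obtain ⟨k, rfl⟩ : ∃ k, k' = 2 * k := ⟨k' / 2, by omega⟩
  have hk0 : k ≠ 0 := by
    rintro rfl
    rw [mul_zero, ← f1] at hk'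
    have := h_inj (hf hk')
    omega
  -- images of all elements of the group part
  have fpos : ∀ m : ℕ, f (h (2 * m)) = h (2 * (k * m)) := by
    intro m
    induction m with
    | zero => simpa using f1
    | succ m ih =>
      have h1 : h (2 * ((m + 1 : ℕ) : ℤ)) = h (2 * m) * h 2 := by
        rw [hh_even (by omega)]; congr 1
      rw [h1, map_mul, ih, hk', hh_even (by omega)]
      congr 1; push_cast; ring
  have feven : ∀ m : ℤ, f (h (2 * m)) = h (2 * (k * m)) := by
    intro m
    obtain ⟨m', rfl | rfl⟩ := m.eq_nat_or_neg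
    · exact fpos m'
    · obtain ⟨r, hr⟩ := fh (2 * -(m' : ℤ))
      have h1 : f (h (2 * m')) * f (h (2 * -(m' : ℤ))) = h 0 := by
        rw [← map_mul, hh_even (by omega)]
        simpa using f1
      rw [fpos, hr, hh_even (by omega)] at h1
      have h2 := h_inj h1
      rw [hr]
      congr 1
      linear_combination h2
  have fodd : ∀ m : ℤ, f (h (2 * m + 1)) = h (2 * (k * m) + l) := by
    intro m
    have h1 : h (2 * m + 1) = h (2 * m) * h 1 := by
      rw [hh_even (by omega)]
    rw [h1, map_mul, feven, hl, hh_even (by omega)]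
  -- image of `ta 0`
  obtain ⟨α, hα⟩ : ∃ α, f (ta 0) = ta α := by
    have h1 : f (ta 0) * f (ta 0) = tz := by rw [← map_mul, taa, fz]
    have h2 : f (h 2) * f (ta 0) = f (ta 0) := by rw [← map_mul, hta]
    have h3 : f (ta 0) * f (h 2) ≠ f (ta 0) := by
      rw [← map_mul, tah]
      intro h3
      have h4 := ta_inj (hf h3)
      rw [sg_even (by norm_num)] at h4
      norm_num at h4
    have h5 : f (ta 0) ≠ tz := fun h5 => tane_tz 0 (hf (h5.trans fz.symm))
    rcases T_cases (f (ta 0)) with ⟨n, hn⟩ | ⟨n, hn⟩ | ⟨n, hn⟩ | hn | hn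
    · rw [hn, hh] at h1
      exact absurd h1 (hne_tz _)
    · exact ⟨n, hn⟩
    · rw [hn, hk', htb, sg_even (by omega)] at h2
      have := tb_inj h2
      simp at this
      exact absurd this hk0
    · rw [hn, hk', tch] at h3
      exact absurd rfl h3
    · exact absurd hn h5
  -- image of `tb 0`
  obtain ⟨β, hβ⟩ : ∃ β, f (tb 0) = tb β := by
    have h1 : f (tb 0) * f (tb 0) = tz := by rw [← map_mul, tbb, fz]
    have h2 : f (tb 0) * f (h 2) = f (tb 0) := by rw [← map_mul, tbh]
    have h3 : f (h 2) * f (tb 0) ≠ f (tb 0) := by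
      rw [← map_mul, htb]
      intro h3
      have h4 := tb_inj (hf h3)
      norm_num at h4
    have h5 : f (tb 0) ≠ tz := fun h5 => tbne_tz 0 (hf (h5.trans fz.symm))
    rcases T_cases (f (tb 0)) with ⟨n, hn⟩ | ⟨n, hn⟩ | ⟨n, hn⟩ | hn | hn
    · rw [hn, hh] at h1
      exact absurd h1 (hne_tz _)
    · rw [hn, hk', tah, sg_even (by omega)] at h2
      have := ta_inj h2
      simp at this
      exact absurd this hk0
    · exact ⟨n, hn⟩
    · rw [hn, hk', htc] at h3
      exact absurd rfl h3
    · exact absurd hn h5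
  -- images of the other `ta`s and `tb`s
  have fta : ∀ n, ta n = ta 0 * h (sg n * n) := by
    intro n
    rw [tah]
    rcases Int.emod_two_eq_zero_or_one n with hn | hn
    · rw [sg_even hn]; simp [sg_even hn]
    · rw [sg_odd hn]
      rw [sg_odd (by simp; omega)]
      simp
  have ftb : ∀ n, tb n = h n * tb 0 := by
    intro n
    rw [htb]; simp
  -- image of `tc`
  have fc : f tc = tc := by
    have h1 : ta 0 * tb 1 = tc := by
      rw [tab, if_pos]
      exact ⟨0, by simp⟩
    have h2 : f tc = ta α * (h l * tb β) := by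
      rw [← h1, map_mul, hα, ftb 1, map_mul, hβ, hl]
    rw [htb, tab] at h2
    split_ifs at h2 with h3
    · exact h2
    · exact absurd (hf (h2.trans fz.symm)) tcne_tz
  -- the defining relations
  have rel : ∀ n n' : ℤ, f (h n) = h n' → (A n ↔ A (α + n' + sg n' * β)) := by
    intro n n' hn
    have h1 : f (ta 0 * (h n * tb 0)) = ta α * (h n' * tb β) := by
      rw [map_mul, map_mul, hα, hn, hβ]
    rw [← ftb, htb, tab, tab, zero_add] at h1
    rw [add_assoc]
    constructor
    · intro h2
      by_contra h3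
      rw [if_pos h2, if_neg h3, fc] at h1
      exact tcne_tz h1
    · intro h2
      by_contra h3
      rw [if_neg h3, if_pos h2, fz] at h1
      exact tcne_tz h1.symm
  have releven : ∀ m : ℤ, A (2 * m) ↔ A (α + β + 2 * (k * m)) := by
    intro m
    rw [rel _ _ (feven m), sg_even (by omega)]
    simp only [Units.val_one, one_mul]
    rw [show α + 2 * (k * m) + β = α + β + 2 * (k * m) by ring]
  have relodd : ∀ m : ℤ, A (2 * m + 1) ↔ A (α - β + l + 2 * (k * m)) := by
    intro m
    rw [rel _ _ (fodd m), sg_odd (by omega)]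
    simp only [Units.val_neg, Units.val_one]
    rw [show α + (2 * (k * m) + l) + -1 * β = α - β + l + 2 * (k * m) by ring]
  have hA1 : A 1 := ⟨0, by simp⟩
  have hAm1 : A (-1) := ⟨0, by simp⟩
  have hA2 : A 2 := ⟨1, by simp⟩
  have hA4 : A 4 := ⟨2, by norm_num⟩
  have hA8 : A 8 := ⟨3, by norm_num⟩
  -- `α + β` is even
  have hs : (α + β) % 2 = 0 := by
    rcases Int.emod_two_eq_zero_or_one (α + β) with hs | hs
    · exact hs
    · exfalso
      have e1 := A_odd (by omega) ((releven 1).1 hA2)
      have e2 := A_odd (by omega) ((releven 2).1 hA4)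
      have e3 := A_odd (by omega) ((releven 4).1 hA8)
      omega
  have o1 := A_odd (by omega) ((relodd 0).1 hA1)
  have o2 := A_odd (by omega) ((relodd (-1)).1 (by norm_num; exact hAm1))
  have hk1 : (k = 1 ∨ k = -1) ∧ α - β + l = k := by omega
  obtain ⟨hk1, hlk⟩ := hk1
  have hkk : k * k = 1 := by rcases hk1 with rfl | rfl <;> norm_num
  -- surjectivity on the group part
  have surjh : ∀ n, ∃ m, f (h m) = h n := by
    intro n
    rcases Int.emod_two_eq_zero_or_one n with hn | hn
    · refine ⟨2 * (k * (n / 2)), ?_⟩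
      rw [feven]
      congr 1
      rw [← mul_assoc k k, hkk]
      omega
    · refine ⟨2 * (k * ((n - l) / 2)) + 1, ?_⟩
      rw [fodd]
      congr 1
      rw [← mul_assoc k k, hkk]
      omega
  intro y
  rcases T_cases y with ⟨n, rfl⟩ | ⟨n, rfl⟩ | ⟨n, rfl⟩ | rfl | rfl
  · obtain ⟨m, hm⟩ := surjh n
    exact ⟨h m, hm⟩
  · obtain ⟨j, hj⟩ : ∃ j, ta n = ta α * h j := by
      rcases Int.emod_two_eq_zero_or_one (n - α) with hn | hn
      · refine ⟨n - α, ?_⟩
        rw [tah, sg_even hn]
        congr 1; simp
      · refine ⟨-n - α, ?_⟩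
        rw [tah, sg_odd (by omega)]
        congr 1; simp
    obtain ⟨m, hm⟩ := surjh j
    exact ⟨ta 0 * h m, by rw [map_mul, hα, hm, hj]⟩
  · obtain ⟨j, hj⟩ : ∃ j, tb n = h j * tb β := by
      rcases Int.emod_two_eq_zero_or_one (n - β) with hn | hn
      · refine ⟨n - β, ?_⟩
        rw [htb, sg_even hn]
        congr 1; simp
      · refine ⟨n + β, ?_⟩
        rw [htb, sg_odd (by omega)]
        congr 1; simp
    obtain ⟨m, hm⟩ := surjh j
    exact ⟨h m * tb 0, by rw [map_mul, hβ, hm, hj]⟩
  · exact ⟨tc, fc⟩
  · exact ⟨tz, fz⟩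

/-- `T` is finitely generated. -/
lemma T_fg : ∃ G : Finset El, Subsemigroup.closure (G : Set El) = T := by
  classical
  refine ⟨{g 1 (-1), g (-1) (-1), g 2 1, g (-2) 1, g 0 1, a 0, b 0}, ?_⟩
  apply le_antisymm
  · rw [Subsemigroup.closure_le]
    intro x hx
    simp only [Finset.coe_insert, Finset.coe_singleton, Set.mem_insert_iff,
      Set.mem_singleton_iff] at hx
    rcases hx with rfl | rfl | rfl | rfl | rfl | rfl | rfl
    · exact (sg_odd (by norm_num)).symm
    · exact (sg_odd (by norm_num)).symm
    · exact (sg_even (by norm_num)).symm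
    · exact (sg_even (by norm_num)).symm
    · exact (sg_even (by norm_num)).symm
    · trivial
    · trivial
  · set C := Subsemigroup.closure
      (({g 1 (-1), g (-1) (-1), g 2 1, g (-2) 1, g 0 1, a 0, b 0} : Finset El) : Set El) with hC
    have m1 : g 1 (-1) ∈ C := Subsemigroup.subset_closure (by simp)
    have m3 : g 2 1 ∈ C := Subsemigroup.subset_closure (by simp)
    have m4 : g (-2) 1 ∈ C := Subsemigroup.subset_closure (by simp)
    have m5 : g 0 1 ∈ C := Subsemigroup.subset_closure (by simp)
    have m6 : a 0 ∈ C := Subsemigroup.subset_closure (by simp)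
    have m7 : b 0 ∈ C := Subsemigroup.subset_closure (by simp)
    have e1 : ∀ m : ℕ, g (2 * m) 1 ∈ C := by
      intro m
      induction m with
      | zero => simpa using m5
      | succ m ih =>
        have := C.mul_mem ih m3
        rw [gg] at this
        convert this using 2
        · push_cast; ring
        · simp
    have e2 : ∀ m : ℕ, g (2 * -(m : ℤ)) 1 ∈ C := by
      intro m
      induction m with
      | zero => simpa using m5
      | succ m ih =>
        have := C.mul_mem ih m4
        rw [gg] at this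
        convert this using 2
        · push_cast; ring
        · simp
    have e3 : ∀ m : ℤ, g (2 * m) 1 ∈ C := by
      intro m
      obtain ⟨m', rfl | rfl⟩ := m.eq_nat_or_neg
      · exact e1 m'
      · exact e2 m'
    have e4 : ∀ m : ℤ, g (2 * m + 1) (-1) ∈ C := by
      intro m
      have := C.mul_mem (e3 m) m1
      rw [gg] at this
      simpa using this
    have e5 : ∀ n : ℤ, g n (sg n) ∈ C := by
      intro n
      rcases Int.emod_two_eq_zero_or_one n with hn | hn
      · rw [sg_even hn]
        have := e3 (n / 2)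
        rwa [show 2 * (n / 2) = n by omega] at this
      · rw [sg_odd hn]
        have := e4 (n / 2)
        rwa [show 2 * (n / 2) + 1 = n by omega] at this
    have e6 : ∀ n : ℤ, a n ∈ C := by
      intro n
      rcases Int.emod_two_eq_zero_or_one n with hn | hn
      · have := C.mul_mem m6 (e5 n)
        rw [ag, sg_even hn] at this
        simpa using this
      · have := C.mul_mem m6 (e5 (-n))
        rw [ag, sg_odd (by omega)] at this
        simpa using this
    have e7 : ∀ n : ℤ, b n ∈ C := by
      intro n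
      have := C.mul_mem (e5 n) m7
      rw [gb] at this
      simpa using this
    intro x hx
    cases x with
    | g n e =>
      have : e = sg n := hx
      rw [this]
      exact e5 n
    | a n => exact e6 n
    | b n => exact e7 n
    | c =>
      have := C.mul_mem (e6 0) (e7 1)
      rw [ab, if_pos ⟨0, by simp⟩] at this
      exact this
    | z =>
      have := C.mul_mem m6 m6
      rw [aa] at this
      exact this

/-- The complement of `T` is a single relative `H`-class. -/
lemma T_green : ∃ F : Finset El, ∀ u : El, u ∉ T → ∃ v ∈ F, v ∉ T ∧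
    ((u = v ∨ ∃ t ∈ T, u = v * t) ∧ (v = u ∨ ∃ t ∈ T, v = u * t)) ∧
    ((u = v ∨ ∃ t ∈ T, u = t * v) ∧ (v = u ∨ ∃ t ∈ T, v = t * u)) := by
  classical
  refine ⟨{g 0 (-1)}, ?_⟩
  intro u hu
  refine ⟨g 0 (-1), by simp, ?_, ?_⟩
  · intro h1
    have h2 : (-1 : ℤˣ) = sg 0 := h1
    rw [sg_even (by norm_num)] at h2
    exact absurd h2 (by decide)
  · cases u with
    | g n e =>
      have hne : e ≠ sg n := hu
      have hin : ∀ (m : ℤ) (d : ℤˣ), d = sg m → g m d ∈ T := fun m d hd => hd
      have he : e = -sg n := by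
        rcases Int.units_eq_one_or e with h1 | h1 <;>
        rcases Int.units_eq_one_or (sg n) with h2 | h2
        · exact absurd (h1.trans h2.symm) hne
        · rw [h1, h2, neg_neg]
        · rw [h1, h2]
        · exact absurd (h1.trans h2.symm) hne
      subst he
      rcases Int.emod_two_eq_zero_or_one n with hn | hn
      · rw [sg_even hn]
        refine ⟨⟨Or.inr ⟨g (-n) 1, hin _ _ (sg_even (by omega)).symm, ?_⟩,
          Or.inr ⟨g n 1, hin _ _ (sg_even (by omega)).symm, ?_⟩⟩,
          ⟨Or.inr ⟨g n 1, hin _ _ (sg_even (by omega)).symm, ?_⟩,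
          Or.inr ⟨g (-n) 1, hin _ _ (sg_even (by omega)).symm, ?_⟩⟩⟩ <;>
        · rw [gg]; simp
      · rw [sg_odd hn, neg_neg]
        refine ⟨⟨Or.inr ⟨g (-n) (-1), hin _ _ (sg_odd (by omega)).symm, ?_⟩,
          Or.inr ⟨g (-n) (-1), hin _ _ (sg_odd (by omega)).symm, ?_⟩⟩,
          ⟨Or.inr ⟨g n (-1), hin _ _ (sg_odd (by omega)).symm, ?_⟩,
          Or.inr ⟨g n (-1), hin _ _ (sg_odd (by omega)).symm, ?_⟩⟩⟩ <;>
        · rw [gg]; simp
    | a n => exact absurd trivial hu
    | b n => exact absurd trivial hu
    | c => exact absurd trivial hu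
    | z => exact absurd trivial hu

/-- The negation of the preceding statement: For any semigroup S and finitely generated subsemigroup T whose complement splits into finitely many relative H-classes (finite Green index): if every injective endomorphism of T is surjective, then every injective endomorphism of S is surjective. -/
theorem result :
    ¬ (∀ (S : Type) [Semigroup S] (T : Subsemigroup S),
      (∃ G : Finset S, Subsemigroup.closure (G : Set S) = T) →
      (∃ F : Finset S, ∀ u : S, u ∉ T → ∃ v ∈ F, v ∉ T ∧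
        ((u = v ∨ ∃ t ∈ T, u = v * t) ∧ (v = u ∨ ∃ t ∈ T, v = u * t)) ∧
        ((u = v ∨ ∃ t ∈ T, u = t * v) ∧ (v = u ∨ ∃ t ∈ T, v = t * u))) →
      (∀ f : T →ₙ* T, Function.Injective f → Function.Surjective f) →
      ∀ f : S →ₙ* S, Function.Injective f → Function.Surjective f) := by
  intro H
  have h1 := H El T T_fg T_green T_cohopf ⟨dbl, dbl_mul⟩ (by
    intro x y hxy
    change dbl x = dbl y at hxy
    cases x <;> cases y <;> simp [dbl] at hxy ⊢ <;> exact hxy)
  obtain ⟨x, hx⟩ := h1 (a 1)
  change dbl x = a 1 at hx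
  cases x <;> simp [dbl] at hx
  omega

end Pool.Agent.S03098
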