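import Pool.Statements.S03184
-- import your own Pool.Agent.* helpers here
import Pool.Agent.Lib.MP_d5741c_al.FinalLib

set_option autoImplicit false
open scoped TensorProduct
open Pool Pool.MP_d5741c_al

namespace Pool.Agent.S03184

/-- The negation of the preceding statement: If two central division algebras of dimension 9 over a field K are split by exactly the same extension fields of transcendence degree at most 1, then the second is isomorphic to the first or to its opposite (equivalently, their Brauer classes generate the same subgroup). -/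
theorem result :
    ¬ (∀ (K : Type) [Field K] (D₁ D₂ : Type) [DivisionRing D₁] [DivisionRing D₂]
    [Algebra K D₁] [Algebra K D₂],
    Algebra.IsCentral K D₁ → Algebra.IsCentral K D₂ →
    Module.finrank K D₁ = 9 → Module.finrank K D₂ = 9 →
    (∀ (L : Type) [Field L] [Algebra K L], Algebra.trdeg K L ≤ 1 →
      (Nonempty ((L ⊗[K] D₁) ≃ₐ[L] Matrix (Fin 3) (Fin 3) L) ↔
       Nonempty ((L ⊗[K] D₂) ≃ₐ[L] Matrix (Fin 3) (Fin 3) L))) →
    Nonempty (D₂ ≃ₐ[K] D₁) ∨ Nonempty (D₂ ≃ₐ[K] D₁ᵐᵒᵖ)) := by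
  intro H
  obtain ⟨K, _, _, ω, α, a, b, hω, hP, hec⟩ := Pool.Agent.D5741.exists_ec
  obtain ⟨D₁, _, _, hc₁, hf₁, hs₁⟩ :=
    Pool.Agent.D5741.exists_cyclic K ω α a hω hP.1 hP.2.1 hP.not_isNm_left
  obtain ⟨D₂, _, _, hc₂, hf₂, hs₂⟩ :=
    Pool.Agent.D5741.exists_cyclic K ω α b hω hP.1 hP.2.2.1 hP.symm.not_isNm_left
  have h := H K D₁ D₂ hc₁ hc₂ hf₁ hf₂ (by
    intro L _ _ hL
    rw [hs₁, hs₂]
    constructor
    · exact Pool.Agent.D5741.main_theorem K ω α a b hω hP (fun K' _ _ => hec K') L hL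
    · exact Pool.Agent.D5741.main_theorem K ω α b a hω hP.symm
        (fun K' _ _ h => hec K' h.symm) L hL)
  obtain ⟨L, _, _, hLb, hLa⟩ := Pool.Agent.D5741.exists_field_left K ω α b a hω hP.symm
  apply hLa
  rw [← hs₁]
  rw [← hs₂] at hLb
  rcases h with ⟨⟨e⟩⟩ | ⟨⟨e⟩⟩
  · exact Pool.Agent.D5741.splits_congr e L hLb
  · have h1 := Pool.Agent.D5741.splits_op L (Pool.Agent.D5741.splits_congr e L hLb)
    exact Pool.Agent.D5741.splits_congr (AlgEquiv.opOp K D₁).symm L h1

end Pool.Agent.S03184
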