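import Pool.Statements.S03625
import Pool.Agent.Lib.MP_fd6bc6_al.CF.M6
import Pool.Agent.Lib.MP_fd6bc6_al.BU.C2
-- import your own Pool.Agent.* helpers here

set_option autoImplicit false
open Pool Pool.MP_fd6bc6_al

namespace Pool.Agent.S03625

/-- Every compact Hausdorff topological Moufang loop (continuous multiplication and divisions) carries a Borel probability measure invariant under all left and right translations, i.e. an invariant Haar integral. -/
theorem result :
    ∀ (L : Type) [TopologicalSpace L] [CompactSpace L] [T2Space L]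
      [MeasurableSpace L] [BorelSpace L] (mul ldiv rdiv : L → L → L) (e : L),
      (∀ x, mul e x = x) → (∀ x, mul x e = x) →
      (∀ x y, mul x (ldiv x y) = y) → (∀ x y, ldiv x (mul x y) = y) →
      (∀ x y, mul (rdiv y x) x = y) → (∀ x y, rdiv (mul y x) x = y) →
      (∀ x y z, mul z (mul x (mul z y)) = mul (mul (mul z x) z) y) →
      Continuous (fun p : L × L => mul p.1 p.2) →
      Continuous (fun p : L × L => ldiv p.1 p.2) →
      Continuous (fun p : L × L => rdiv p.1 p.2) →
      ∃ μ : MeasureTheory.Measure L, MeasureTheory.IsProbabilityMeasure μ ∧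
        ∀ a : L, μ.map (fun x => mul a x) = μ ∧ μ.map (fun x => mul x a) = μ := by
  intro L _ _ _ _ _ mul ldiv rdiv e h1 h2 h3 h4 h5 h6 h7 c1 c2 c3
  exact Pool.Agent.MoufangHaar.hasHaar_all Pool.Agent.MP_fd6bc6_al.BU.C2' L mul ldiv rdiv e h1 h2 h3 h4 h5 h6
    h7 c1 c2 c3

end Pool.Agent.S03625
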