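import Pool.Statements.S03996
import Pool.Agent.Lib.MP_1dc5fb_an.Euclid

set_option autoImplicit false
open MeasureTheory
open Pool Pool.MP_1dc5fb_an

namespace Pool.Agent.S03996

open Pool.Agent.Lib.MP_1dc5fb in
/-- Both transferred functions satisfy all the conditions of the statement. -/
lemma conditions {U Ux Uy : ℝ × ℝ → ℝ} (hU : HSol U Ux Uy) :
    ContDiffOn ℝ 1 (sol U) Om ∧ ContinuousOn (sol U) (closure Om) ∧
      (∀ x ∈ Om, 0 < sol U x ∧ sol U x ≤ 1) ∧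
      (∀ R : ℝ, IntegrableOn (fun x => ‖gradient (sol U) x‖ ^ 2) (Om ∩ Metric.ball 0 R)) ∧
      (∀ ψ : E2 → ℝ, ContDiff ℝ 1 ψ → HasCompactSupport ψ →
        (∫ x in Om, inner ℝ (gradient (sol U) x) (gradient ψ x))
          + (1 / (2 / (Real.pi * pc))) *
            (∫ x in frontier Om, sol U x * ψ x ∂(Measure.hausdorffMeasure ((1 : ℕ) : ℝ)))
          = ∫ x in Om, fr (sol U x) * ψ x) := by
  refine ⟨contDiffOn_sol hU.c1, continuousOn_sol hU.c1, fun x hx => range_sol hU hx,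
    integrable_sol hU, fun ψ hψ hs => ?_⟩
  have h := weak_sol hU hψ hs
  have e : 1 / (2 / (Real.pi * pc)) = Real.pi * pc / 2 := by
    have := Real.pi_pos
    have := pc_pos
    field_simp
  rw [e, Nat.cast_one]
  exact h

/-- The negation of the preceding statement: For every d≥2, positive reaction f, α>0 and Lipschitz epigraph Ω, any two weak solutions of −Δu=f(u) in Ω, u+α∂_νu=0 on ∂Ω, with 0<u≤1 (continuous up to the boundary, locally H¹), coincide on Ω. -/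
theorem result :
    ¬ (∀ (n : ℕ), 1 ≤ n →
    ∀ f : ℝ → ℝ, ContDiff ℝ 1 f →
    (∃ C γ : NNReal, 0 < γ ∧ γ < 1 ∧ HolderOnWith C γ (deriv f) (Set.Icc (0:ℝ) 1)) →
    f 0 = 0 → f 1 = 0 → (∀ s ∈ Set.Ioo (0:ℝ) 1, 0 < f s) →
    0 < deriv f 0 → deriv f 1 < 0 →
    ∀ α : ℝ, 0 < α →
    ∀ φ : (Fin n → ℝ) → ℝ, (∃ K : NNReal, LipschitzWith K φ) →
    ∀ Ω : Set (EuclideanSpace ℝ (Fin (n+1))),
    Ω = {x | φ (fun i => x (Fin.castSucc i)) < x (Fin.last n)} →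
    ∀ u v : EuclideanSpace ℝ (Fin (n+1)) → ℝ,
    (∀ w : EuclideanSpace ℝ (Fin (n+1)) → ℝ, (w = u ∨ w = v) →
      ContDiffOn ℝ 1 w Ω ∧ ContinuousOn w (closure Ω) ∧
      (∀ x ∈ Ω, 0 < w x ∧ w x ≤ 1) ∧
      (∀ R : ℝ, IntegrableOn (fun x => ‖gradient w x‖ ^ 2) (Ω ∩ Metric.ball 0 R)) ∧
      (∀ ψ : EuclideanSpace ℝ (Fin (n+1)) → ℝ, ContDiff ℝ 1 ψ → HasCompactSupport ψ →
        (∫ x in Ω, inner ℝ (gradient w x) (gradient ψ x))
          + (1/α) * (∫ x in frontier Ω, w x * ψ x ∂(Measure.hausdorffMeasure (n:ℝ)))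
          = ∫ x in Ω, f (w x) * ψ x)) →
    Set.EqOn u v Ω) := by
  intro H
  open Pool.Agent.Lib.MP_1dc5fb in
  have hpos : 0 < 2 / (Real.pi * pc) := by
    have := Real.pi_pos
    have := pc_pos
    positivity
  obtain ⟨U, Ux, Uy, V, Vx, Vy, hU, hV, hlt⟩ := Pool.Agent.Lib.MP_1dc5fb.exists_two
  have hlip : ∃ K : NNReal,
      LipschitzWith K (fun v : Fin 1 → ℝ => Pool.Agent.Lib.MP_1dc5fb.phi (v 0)) :=
    ⟨_, Pool.Agent.Lib.MP_1dc5fb.phi_lip.comp (LipschitzWith.eval 0)⟩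
  have h := H 1 le_rfl Pool.Agent.Lib.MP_1dc5fb.fr Pool.Agent.Lib.MP_1dc5fb.contDiff_fr
    Pool.Agent.Lib.MP_1dc5fb.holder_fr Pool.Agent.Lib.MP_1dc5fb.fr_zero
    Pool.Agent.Lib.MP_1dc5fb.fr_one (fun s hs => Pool.Agent.Lib.MP_1dc5fb.fr_pos hs)
    Pool.Agent.Lib.MP_1dc5fb.deriv_fr_zero Pool.Agent.Lib.MP_1dc5fb.deriv_fr_one _ hpos
    (fun v : Fin 1 → ℝ => Pool.Agent.Lib.MP_1dc5fb.phi (v 0)) hlip
    Pool.Agent.Lib.MP_1dc5fb.Om rfl (Pool.Agent.Lib.MP_1dc5fb.sol U)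
    (Pool.Agent.Lib.MP_1dc5fb.sol V) (by
      rintro w (rfl | rfl)
      · exact conditions hU
      · exact conditions hV)
  -- the two solutions differ at a boundary point, hence somewhere in the domain
  have h2 := h.of_subset_closure (Pool.Agent.Lib.MP_1dc5fb.continuousOn_sol hU.c1)
    (Pool.Agent.Lib.MP_1dc5fb.continuousOn_sol hV.c1) subset_closure subset_rfl
  have hmem : Pool.Agent.Lib.MP_1dc5fb.Gam 0 ∈ closure Pool.Agent.Lib.MP_1dc5fb.Om := by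
    have : Pool.Agent.Lib.MP_1dc5fb.Gam 0 ∈ frontier Pool.Agent.Lib.MP_1dc5fb.Om := by
      rw [Pool.Agent.Lib.MP_1dc5fb.frontier_Om]
      exact ⟨0, rfl⟩
    exact frontier_subset_closure this
  have h3 := h2 hmem
  have e : ∀ W : ℝ × ℝ → ℝ, Pool.Agent.Lib.MP_1dc5fb.sol W (Pool.Agent.Lib.MP_1dc5fb.Gam 0) =
      W (0, 0) := by
    intro W
    unfold Pool.Agent.Lib.MP_1dc5fb.sol Pool.Agent.Lib.MP_1dc5fb.tw Pool.Agent.Lib.MP_1dc5fb.Gam
    rw [ContinuousLinearEquiv.apply_symm_apply,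
      Pool.Agent.Lib.MP_1dc5fb.jm_hm (Pool.Agent.Lib.MP_1dc5fb.mem_bdry 0)]
  rw [e, e] at h3
  linarith

end Pool.Agent.S03996
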