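import Pool.Statements.S04055
import Pool.Agent.Lib.MP_230119_an.LA8
import Pool.Agent.Lib.MP_230119_an.EX.S06

set_option autoImplicit false
open MeasureTheory
open Pool Pool.MP_230119_an

namespace Pool.Agent.S04055

/-- For every square-integrable f on the unit circle, the 6th power of the L^6(R^2) norm of the Fourier extension of f·arclength is at most that of the constant 1 times (‖f‖₂²/2π)³, i.e. constants maximize the endpoint Stein–Tomas ratio. -/
theorem result :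
  ∀ f : ℝ → ℂ, MemLp f 2 (volume.restrict (Set.Ioc 0 (2 * Real.pi))) →
    (∫⁻ x : ℝ × ℝ, ‖∫ θ in Set.Ioc 0 (2 * Real.pi),
        f θ * Complex.exp (-(Complex.I * (((x.1 * Real.cos θ + x.2 * Real.sin θ : ℝ)) : ℂ)))‖ₑ ^ 6)
      ≤ (∫⁻ x : ℝ × ℝ, ‖∫ θ in Set.Ioc 0 (2 * Real.pi),
          Complex.exp (-(Complex.I * (((x.1 * Real.cos θ + x.2 * Real.sin θ : ℝ)) : ℂ)))‖ₑ ^ 6)
        * ((∫⁻ θ in Set.Ioc 0 (2 * Real.pi), ‖f θ‖ₑ ^ 2) / ENNReal.ofReal (2 * Real.pi)) ^ 3 := by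
  exact Pool.Agent.Lib.MP_230119_an.LA.S04055_of_star
    (fun h => Pool.Agent.Lib.MP_230119_an.EX.star h)

end Pool.Agent.S04055
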