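import Pool.Statements.S04391
import Pool.Agent.Lib.MP_3b5712_an.Assemble

set_option autoImplicit false
open MeasureTheory Filter Topology
open Pool Pool.MP_3b5712_an

namespace Pool.Agent.S04391

/-- There exist n≥3, p with [n/2]<p≤n−1 (or n=3, 1≤p≤2), a connected open Ω in ℝⁿ and a continuous, open, discrete W^{1,p} map f on Ω whose weak Jacobian is positive on a set of positive measure and negative on a set of positive measure. -/
theorem result :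
    ∃ (n : ℕ) (p : ℝ) (Ω : Set (Fin n → ℝ)) (f : (Fin n → ℝ) → (Fin n → ℝ))
      (g : (Fin n → ℝ) → Matrix (Fin n) (Fin n) ℝ),
      3 ≤ n ∧
      ((((n / 2 : ℕ) : ℝ) < p ∧ p ≤ (n : ℝ) - 1) ∨ (n = 3 ∧ 1 ≤ p ∧ p ≤ 2)) ∧
      IsOpen Ω ∧ IsConnected Ω ∧
      ContinuousOn f Ω ∧
      (∀ U : Set (Fin n → ℝ), IsOpen U → U ⊆ Ω → IsOpen (f '' U)) ∧
      (∀ (y x : Fin n → ℝ), x ∈ Ω → ∀ᶠ z in 𝓝[≠] x, f z ≠ y) ∧
      MemLp f (ENNReal.ofReal p) (volume.restrict Ω) ∧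
      (∀ i j : Fin n, MemLp (fun x => g x i j) (ENNReal.ofReal p) (volume.restrict Ω)) ∧
      (∀ (i j : Fin n) (φ : (Fin n → ℝ) → ℝ),
        ContDiff ℝ ((⊤ : ℕ∞) : WithTop ℕ∞) φ → HasCompactSupport φ → tsupport φ ⊆ Ω →
        ∫ x in Ω, f x i * (fderiv ℝ φ x) (Pi.single j (1 : ℝ)) =
          -∫ x in Ω, g x i j * φ x) ∧
      0 < volume {x | x ∈ Ω ∧ 0 < (g x).det} ∧
      0 < volume {x | x ∈ Ω ∧ (g x).det < 0} :=
  Pool.Agent.JAC.main_result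

end Pool.Agent.S04391
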