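import Pool.Statements.S04545
import Pool.Agent.Lib.MP_471c81_an.Main

set_option autoImplicit false
open Pool Pool.MP_471c81_an

namespace Pool.Agent.S04545

/-- For every separable reflexive real Banach space X and closed subspace Y, every equivalent norm on Y that is Fréchet differentiable away from 0 extends to an equivalent norm on X that is Fréchet differentiable away from 0. -/
theorem result :
    ∀ (X : Type) [NormedAddCommGroup X] [NormedSpace ℝ X] [CompleteSpace X]
      [TopologicalSpace.SeparableSpace X],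
      Function.Surjective (NormedSpace.inclusionInDoubleDual ℝ X) →
      ∀ (Y : Submodule ℝ X), IsClosed (Y : Set X) →
      ∀ (N : Seminorm ℝ Y),
        (∃ c C : ℝ, 0 < c ∧ 0 < C ∧ ∀ y : Y, c * ‖y‖ ≤ N y ∧ N y ≤ C * ‖y‖) →
        (∀ y : Y, y ≠ 0 → DifferentiableAt ℝ (⇑N) y) →
        ∃ M : Seminorm ℝ X,
          (∃ c C : ℝ, 0 < c ∧ 0 < C ∧ ∀ x : X, c * ‖x‖ ≤ M x ∧ M x ≤ C * ‖x‖) ∧
          (∀ x : X, x ≠ 0 → DifferentiableAt ℝ (⇑M) x) ∧
          ∀ y : Y, M (y : X) = N y := by
  intro X _ _ _ _ hrefl Y hY N hN hd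
  -- the bidual is separable, hence so is the dual
  have h1 : TopologicalSpace.SeparableSpace ((X →L[ℝ] ℝ) →L[ℝ] ℝ) :=
    (hrefl.denseRange).separableSpace (NormedSpace.inclusionInDoubleDual ℝ X).continuous
  have h2 : TopologicalSpace.SeparableSpace (X →L[ℝ] ℝ) := L471c81.separable_of_dual
  have hHB : L471c81.HB (Y.subtypeL) := by
    intro w
    obtain ⟨g, hg, hgn⟩ := exists_extension_norm_eq Y w
    exact ⟨g, hg, hgn⟩
  have hcl : IsClosed (Set.range (Y.subtypeL)) := by
    have : Set.range (Y.subtypeL) = (Y : Set X) := by simp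
    rw [this]
    exact hY
  exact L471c81.extension Y.subtypeL (fun y => rfl) hcl hHB N hN hd

end Pool.Agent.S04545
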