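import Pool.Statements.S04549
import Pool.Agent.Lib.MP_4777ae_an.Final

set_option autoImplicit false
open scoped ComplexOrder
open Pool Pool.MP_4777ae_an

namespace Pool.Agent.S04549

/-- For all n×n complex PSD matrices A, B, reals p, q > 0, and every unitarily invariant norm N, N(A^p B^q + B^p A^q) ≤ N(A^(p+q) + B^(p+q)), with powers taken spectrally. -/
theorem result :
    ∀ (n : ℕ) (A B : Matrix (Fin n) (Fin n) ℂ) (hA : A.PosSemidef) (hB : B.PosSemidef),
    ∀ (p q : ℝ), 0 < p → 0 < q →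
    ∀ N : Matrix (Fin n) (Fin n) ℂ → ℝ,
      (∀ X, N X = 0 → X = 0) →
      (∀ (c : ℂ) (X : Matrix (Fin n) (Fin n) ℂ), N (c • X) = ‖c‖ * N X) →
      (∀ X Y, N (X + Y) ≤ N X + N Y) →
      (∀ U ∈ Matrix.unitaryGroup (Fin n) ℂ, ∀ V ∈ Matrix.unitaryGroup (Fin n) ℂ,
        ∀ X, N (U * X * V) = N X) →
      N ((hA.isHermitian.eigenvectorUnitary : Matrix (Fin n) (Fin n) ℂ)
            * Matrix.diagonal (fun i => Complex.ofReal (hA.isHermitian.eigenvalues i ^ p))
            * star (hA.isHermitian.eigenvectorUnitary : Matrix (Fin n) (Fin n) ℂ)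
          * ((hB.isHermitian.eigenvectorUnitary : Matrix (Fin n) (Fin n) ℂ)
            * Matrix.diagonal (fun i => Complex.ofReal (hB.isHermitian.eigenvalues i ^ q))
            * star (hB.isHermitian.eigenvectorUnitary : Matrix (Fin n) (Fin n) ℂ))
        + (hB.isHermitian.eigenvectorUnitary : Matrix (Fin n) (Fin n) ℂ)
            * Matrix.diagonal (fun i => Complex.ofReal (hB.isHermitian.eigenvalues i ^ p))
            * star (hB.isHermitian.eigenvectorUnitary : Matrix (Fin n) (Fin n) ℂ)
          * ((hA.isHermitian.eigenvectorUnitary : Matrix (Fin n) (Fin n) ℂ)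
            * Matrix.diagonal (fun i => Complex.ofReal (hA.isHermitian.eigenvalues i ^ q))
            * star (hA.isHermitian.eigenvectorUnitary : Matrix (Fin n) (Fin n) ℂ)))
        ≤ N ((hA.isHermitian.eigenvectorUnitary : Matrix (Fin n) (Fin n) ℂ)
            * Matrix.diagonal (fun i => Complex.ofReal (hA.isHermitian.eigenvalues i ^ (p + q)))
            * star (hA.isHermitian.eigenvectorUnitary : Matrix (Fin n) (Fin n) ℂ)
          + (hB.isHermitian.eigenvectorUnitary : Matrix (Fin n) (Fin n) ℂ)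
            * Matrix.diagonal (fun i => Complex.ofReal (hB.isHermitian.eigenvalues i ^ (p + q)))
            * star (hB.isHermitian.eigenvectorUnitary : Matrix (Fin n) (Fin n) ℂ)) := by
  intro n A B hA hB p q hp hq N _ hsmul hadd hunit
  have hN : BourinQ.UINorm N := ⟨hsmul, hadd, hunit⟩
  have hpq : 0 < p + q := by linarith
  have hx : ∀ i, 0 ≤ hA.isHermitian.eigenvalues i ^ (p + q) := fun i =>
    Real.rpow_nonneg (hA.eigenvalues_nonneg i) _
  have hz : ∀ i, 0 ≤ hB.isHermitian.eigenvalues i ^ (p + q) := fun i =>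
    Real.rpow_nonneg (hB.eigenvalues_nonneg i) _
  have ht1 : p / (p + q) < 1 := by rw [div_lt_one hpq]; linarith
  have key := BourinQ.bourin hN (hA.isHermitian.eigenvectorUnitary).2
    (hB.isHermitian.eigenvectorUnitary).2 hx hz (div_pos hp hpq) ht1
  have e1 : ∀ l : ℝ, 0 ≤ l → (l ^ (p + q)) ^ (p / (p + q)) = l ^ p := by
    intro l hl
    rw [← Real.rpow_mul hl]
    congr 1
    field_simp
  have e2 : ∀ l : ℝ, 0 ≤ l → (l ^ (p + q)) ^ (1 - p / (p + q)) = l ^ q := by
    intro l hl
    rw [← Real.rpow_mul hl]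
    congr 1
    field_simp
    ring
  simp only [e1 _ (hA.eigenvalues_nonneg _), e1 _ (hB.eigenvalues_nonneg _),
    e2 _ (hA.eigenvalues_nonneg _), e2 _ (hB.eigenvalues_nonneg _)] at key
  exact key

end Pool.Agent.S04549
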