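import Pool.Statements.S04713
import Pool.Agent.Lib.MP_561634_an.Total

set_option autoImplicit false
open Pool Pool.MP_561634_an

namespace Pool.Agent.S04713

/-- For every integer p ≥ 3 and every real polynomial f = Σ a_k x^k, the polynomial Σ e^{-k^p} a_k x^k has at most as many nonreal zeros (with multiplicity) as f. -/
theorem result :
    ∀ p : ℕ, 3 ≤ p → ∀ f : Polynomial ℝ,
      (((∑ n ∈ f.support,
            Polynomial.C (f.coeff n * Real.exp (-((n : ℝ) ^ p))) * Polynomial.X ^ n).map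
            (algebraMap ℝ ℂ)).roots.filter (fun z : ℂ => z.im ≠ 0)).card
        ≤ ((f.map (algebraMap ℝ ℂ)).roots.filter (fun z : ℂ => z.im ≠ 0)).card := by
  intro p hp f
  have hA : ∀ k : ℕ, 2 * ((fun k : ℕ => (k : ℝ) ^ p) (k + 1)) + Real.log 400
      ≤ (fun k : ℕ => (k : ℝ) ^ p) (k + 2) + (fun k : ℕ => (k : ℝ) ^ p) k := by
    intro k
    have h1 := Pool.Agent.Lib.MP561634.pow_second_difference p hp k
    have h2 := Pool.Agent.Lib.MP561634.log_400_le
    have h3 : (2 * ((k : ℝ) + 1) ^ p + 6) ≤ ((k : ℝ) + 2) ^ p + (k : ℝ) ^ p := by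
      exact_mod_cast h1
    push_cast
    linarith
  exact Pool.Agent.Lib.MP561634.czds (fun k : ℕ => (k : ℝ) ^ p) hA f

end Pool.Agent.S04713
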