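import Pool.Statements.S04952
import Pool.Agent.Lib.MP_6b7756_an.GM.All

set_option autoImplicit false
open Pool Pool.MP_6b7756_an

namespace Pool.Agent.S04952

/-- The negation of the preceding statement: For every Hausdorff locally compact group, each continuous function that is a pointwise limit of L²-regular-representation positive-definite coefficients is also a uniform-on-compacta limit of such coefficients, i.e. lies in the reduced Fourier–Stieltjes algebra. -/
theorem result :
    ¬ (∀ (G : Type) [Group G] [TopologicalSpace G] [IsTopologicalGroup G]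
      [LocallyCompactSpace G] [T2Space G] [MeasurableSpace G] [BorelSpace G],
      ∀ φ : G → ℂ, Continuous φ →
        φ ∈ closure {ψ : G → ℂ | ∃ ξ : G → ℂ,
              MeasureTheory.MemLp ξ 2 (MeasureTheory.Measure.haar : MeasureTheory.Measure G) ∧
              ∀ x : G, ψ x = ∫ y, ξ y * (starRingEnd ℂ) (ξ (x⁻¹ * y))
                ∂(MeasureTheory.Measure.haar : MeasureTheory.Measure G)} →
        ∀ K : Set G, IsCompact K → ∀ ε : ℝ, 0 < ε →
          ∃ ξ : G → ℂ,
            MeasureTheory.MemLp ξ 2 (MeasureTheory.Measure.haar : MeasureTheory.Measure G) ∧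
            ∀ x ∈ K, ‖φ x - ∫ y, ξ y * (starRingEnd ℂ) (ξ (x⁻¹ * y))
                ∂(MeasureTheory.Measure.haar : MeasureTheory.Measure G)‖ < ε) := by
  intro H
  exact Pool.Agent.Lib.MP_6b7756_an.GM.all_final (fun G _ _ _ _ _ _ _ => H G)

end Pool.Agent.S04952
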