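import Pool.Statements.S05176
import Pool.Agent.Lib.MP_7e0f1f_an.Failure

set_option autoImplicit false
open MeasureTheory
open Pool Pool.MP_7e0f1f_an

namespace Pool.Agent.S05176

/-- The negation of the preceding statement: Assume 0<α<n, 1<p, and A, B Young functions with Ā in B_{p'} and B̄ in B_p. Then for all weights u, σ whose two separated-bump cube constants are finite, there is C with ‖I_α(fσ)‖_{L^p(u)} ≤ C‖f‖_{L^p(σ)} for every f ≥ 0. -/
theorem result :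
    ¬ (∀ (n : ℕ), 1 ≤ n → ∀ (α p : ℝ), 0 < α → α < (n : ℝ) → 1 < p →
    ∀ (A B : ℝ → ℝ),
      (ConvexOn ℝ (Set.Ici 0) A ∧ MonotoneOn A (Set.Ici 0) ∧ A 0 = 0 ∧
        (∀ t : ℝ, 0 ≤ t → 0 ≤ A t) ∧
        Filter.Tendsto (fun t : ℝ => A t / t) Filter.atTop Filter.atTop) →
      (ConvexOn ℝ (Set.Ici 0) B ∧ MonotoneOn B (Set.Ici 0) ∧ B 0 = 0 ∧
        (∀ t : ℝ, 0 ≤ t → 0 ≤ B t) ∧
        Filter.Tendsto (fun t : ℝ => B t / t) Filter.atTop Filter.atTop) →
      (∫⁻ t in Set.Ioi (1 : ℝ),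
          ENNReal.ofReal ((⨆ s : Set.Ioi (0 : ℝ), ((s : ℝ) * t - A s)) *
            t ^ (-(p / (p - 1)) - 1)) < ⊤) →
      (∫⁻ t in Set.Ioi (1 : ℝ),
          ENNReal.ofReal ((⨆ s : Set.Ioi (0 : ℝ), ((s : ℝ) * t - B s)) *
            t ^ (-p - 1)) < ⊤) →
      ∀ (u σ : (Fin n → ℝ) → ℝ), (∀ x, 0 ≤ u x) → (∀ x, 0 ≤ σ x) →
        LocallyIntegrable u volume → LocallyIntegrable σ volume →
        (∃ K : ℝ, ∀ Q : Set (Fin n → ℝ),
          (∃ (a : Fin n → ℝ) (ℓ : ℝ), 0 < ℓ ∧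
            Q = Set.univ.pi (fun i => Set.Ico (a i) (a i + ℓ))) →
          (volume Q) ^ (α / (n : ℝ)) *
            ((∫⁻ x in Q, ENNReal.ofReal (u x)) / volume Q) ^ (1 / p) *
            (⨅ (c : ℝ) (_ : 0 < c ∧
                (∫⁻ x in Q, ENNReal.ofReal (B (σ x ^ (1 - 1 / p) / c))) ≤ volume Q),
              ENNReal.ofReal c) ≤ ENNReal.ofReal K) →
        (∃ K : ℝ, ∀ Q : Set (Fin n → ℝ),
          (∃ (a : Fin n → ℝ) (ℓ : ℝ), 0 < ℓ ∧
            Q = Set.univ.pi (fun i => Set.Ico (a i) (a i + ℓ))) →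
          (volume Q) ^ (α / (n : ℝ)) *
            (⨅ (c : ℝ) (_ : 0 < c ∧
                (∫⁻ x in Q, ENNReal.ofReal (A (u x ^ (1 / p) / c))) ≤ volume Q),
              ENNReal.ofReal c) *
            ((∫⁻ x in Q, ENNReal.ofReal (σ x)) / volume Q) ^ (1 - 1 / p)
            ≤ ENNReal.ofReal K) →
        ∃ C : ℝ, ∀ f : (Fin n → ℝ) → ℝ, Measurable f → (∀ x, 0 ≤ f x) →
          (∫⁻ x, (∫⁻ y, ENNReal.ofReal (f y * σ y *
              (Real.sqrt (∑ i, (x i - y i) ^ 2)) ^ (α - (n : ℝ)))) ^ p *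
              ENNReal.ofReal (u x))
            ≤ ENNReal.ofReal C * ∫⁻ x, ENNReal.ofReal (f x ^ p * σ x)) := by
  intro H
  have hY : (ConvexOn ℝ (Set.Ici 0) SepBump.A ∧ MonotoneOn SepBump.A (Set.Ici 0) ∧
      SepBump.A 0 = 0 ∧ (∀ t : ℝ, 0 ≤ t → 0 ≤ SepBump.A t) ∧
      Filter.Tendsto (fun t : ℝ => SepBump.A t / t) Filter.atTop Filter.atTop) :=
    ⟨SepBump.A_convex, SepBump.A_mono, SepBump.A_zero, fun _ h => SepBump.A_nonneg h,
      SepBump.A_superlinear⟩
  have e1 : (-((2:ℝ) / (2 - 1)) - 1) = -3 := by norm_num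
  have e2 : (-(2:ℝ) - 1) = -3 := by norm_num
  have e3 : (1:ℝ) / ((2:ℕ):ℝ) = 1 / 2 := by norm_num
  have e4 : (1:ℝ) - 1 / 2 = 1 / 2 := by norm_num
  have e5 : (1:ℝ) - ((2:ℕ):ℝ) = -1 := by norm_num
  have h := H 2 (by norm_num) 1 2 one_pos (by norm_num) (by norm_num) SepBump.A SepBump.A hY hY
    (by rw [e1]; exact SepBump.Bp_cond) (by rw [e2]; exact SepBump.Bp_cond)
    SepBump.u SepBump.sg SepBump.u_nonneg SepBump.sg_nonneg
    SepBump.u_integrable.locallyIntegrable SepBump.sg_integrable.locallyIntegrable ?_ ?_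
  · obtain ⟨C, hC⟩ := h
    obtain ⟨f, hf1, hf2, hf3⟩ := SepBump.failure C
    have := hC f hf1 hf2
    rw [e5] at this
    exact absurd this (not_le.mpr hf3)
  · refine ⟨6, ?_⟩
    rintro Q ⟨a, ℓ, hℓ, hQ⟩
    rw [e3, e4]
    have hcube : SepBump.IsCube Q a ℓ := hQ
    have hm0 : 0 < min ℓ 1 := lt_min hℓ one_pos
    have hs := Real.sqrt_pos.mpr hm0
    refine SepBump.three_factors (lam := 6 / Real.sqrt (min ℓ 1)) hℓ hm0.le (by positivity)
      (SepBump.vol_cube hℓ hcube) (SepBump.u_cube_le hcube) ?_ ?_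
    · exact iInf₂_le (6 / Real.sqrt (min ℓ 1))
        ⟨by positivity, SepBump.cond1_aux hℓ hcube⟩
    · rw [mul_div_cancel₀]
      exact hs.ne'
  · refine ⟨6, ?_⟩
    rintro Q ⟨a, ℓ, hℓ, hQ⟩
    rw [e3, e4, mul_right_comm]
    have hcube : SepBump.IsCube Q a ℓ := hQ
    have hσ := SepBump.sg_cube_le hcube rfl rfl
    set α := max 0 (a 0) with hα
    set β := min 1 (a 0 + ℓ) with hβ
    rcases lt_or_ge α β with hαβ | hαβ
    · have hβ0 : 0 < β := lt_of_le_of_lt (le_max_left _ _) hαβ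
      have hβ1 : β ≤ 1 := min_le_left _ _
      have hcβ := SepBump.cc_pos hβ0 hβ1
      have hg : 0 < (β - α) * SepBump.cc β := mul_pos (by linarith) hcβ
      have hs := Real.sqrt_pos.mpr hg
      refine SepBump.three_factors (lam := 6 / Real.sqrt ((β - α) * SepBump.cc β)) hℓ hg.le
        (by positivity) (SepBump.vol_cube hℓ hcube) hσ ?_ ?_
      · exact iInf₂_le (6 / Real.sqrt ((β - α) * SepBump.cc β))
          ⟨by positivity, SepBump.cond2_aux hℓ hcube hα hβ hαβ⟩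
      · rw [mul_div_cancel₀]
        exact hs.ne'
    · have h0 : ∫⁻ x in Q, ENNReal.ofReal (SepBump.sg x) = 0 := by
        have hJ : SepBump.JQ a ℓ = ∅ := by
          apply Set.eq_empty_of_forall_notMem
          intro s hs
          have := SepBump.JQ_sub a ℓ hs
          have h1 := this.1
          have h2 := this.2
          linarith
        have := SepBump.lint_cube_le hcube (fun x => ENNReal.ofReal (SepBump.sg x))
          (fun s => ENNReal.ofReal (SepBump.cc s)) SepBump.cc_meas.ennreal_ofReal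
          (fun x hx _ => by
            rw [SepBump.sg_of_mem hx, ENNReal.ofReal_mul (SepBump.cc_pos hx.1 hx.2.1.le).le])
          (fun x hx => by rw [SepBump.sg_of_notMem hx, ENNReal.ofReal_zero])
        rw [hJ] at this
        simpa using this
      rw [h0, ENNReal.zero_div, ENNReal.zero_rpow_of_pos (by norm_num), mul_zero, zero_mul]
      exact zero_le

end Pool.Agent.S05176
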