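import Pool.Statements.S05372
import Pool.Agent.Lib.MP_8effdd_an.CM.Final2

set_option autoImplicit false
open MeasureTheory Filter Topology
open scoped ENNReal
open Pool Pool.MP_8effdd_an

namespace Pool.Agent.S05372

/-- The negation of the preceding statement: For n ≥ 2 and closed E in ℝⁿ failing CNED (the n-modulus of curves joining some two disjoint continua changes when restricted to curves meeting E in countably many points), some homeomorphism, quasiconformal off E, maps E to positive measure. -/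
theorem result :
    ¬ (∀ n : ℕ, 2 ≤ n → ∀ E : Set (EuclideanSpace ℝ (Fin n)), IsClosed E →
      (∃ F₁ F₂ : Set (EuclideanSpace ℝ (Fin n)),
        IsCompact F₁ ∧ IsConnected F₁ ∧ IsCompact F₂ ∧ IsConnected F₂ ∧ Disjoint F₁ F₂ ∧
        (⨅ (ρ : EuclideanSpace ℝ (Fin n) → ℝ≥0∞) (_ : Measurable ρ)
            (_ : ∀ γ : ℝ → EuclideanSpace ℝ (Fin n), ContinuousOn γ (Set.Icc 0 1) →
              γ 0 ∈ F₁ → γ 1 ∈ F₂ → eVariationOn γ (Set.Icc 0 1) ≠ ⊤ →
              ∀ h : Monotone (fun t : ℝ => (eVariationOn γ (Set.Icc 0 (max 0 (min t 1)))).toReal),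
                1 ≤ ∫⁻ t in Set.Icc (0:ℝ) 1, ρ (γ t) ∂h.stieltjesFunction.measure),
            ∫⁻ x, ρ x ^ n) ≠
        (⨅ (ρ : EuclideanSpace ℝ (Fin n) → ℝ≥0∞) (_ : Measurable ρ)
            (_ : ∀ γ : ℝ → EuclideanSpace ℝ (Fin n), ContinuousOn γ (Set.Icc 0 1) →
              γ 0 ∈ F₁ → γ 1 ∈ F₂ → (γ '' Set.Icc 0 1 ∩ E).Countable →
              eVariationOn γ (Set.Icc 0 1) ≠ ⊤ →
              ∀ h : Monotone (fun t : ℝ => (eVariationOn γ (Set.Icc 0 (max 0 (min t 1)))).toReal),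
                1 ≤ ∫⁻ t in Set.Icc (0:ℝ) 1, ρ (γ t) ∂h.stieltjesFunction.measure),
            ∫⁻ x, ρ x ^ n)) →
      ∃ f : EuclideanSpace ℝ (Fin n) ≃ₜ EuclideanSpace ℝ (Fin n),
        (∃ H : ℝ, ∀ x, x ∉ E → ∀ᶠ r in 𝓝[>] (0:ℝ), ∀ y z : EuclideanSpace ℝ (Fin n),
          dist y x = r → dist z x = r → dist (f y) (f x) ≤ H * dist (f z) (f x)) ∧
        volume (f '' E) ≠ 0) := by
  exact Pool.Agent.Lib.MP_8effdd_an.CM.final

end Pool.Agent.S05372
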