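import Pool.Statements.S05499

set_option autoImplicit false
open MeasureTheory
open Pool Pool.MP_98de44_an

namespace Pool.Agent.S05499

section aux

variable {α : Type} [MeasurableSpace α] {μ : Measure α}

/-- An a.e. eigenfunction with eigenvalue `0` of a measure preserving map vanishes a.e. -/
lemma ae_zero_of_comp_zero {β : Type} [MeasurableSpace β] {ν : Measure β} {S : β → β}
    (hS : MeasurePreserving S ν ν) {f : β → ℂ} (hf : Measurable f)
    (h0 : ∀ᵐ p ∂ν, f (S p) = 0) : ∀ᵐ p ∂ν, f p = 0 := by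
  have hm : MeasurableSet {p : β | ¬ f p = 0} :=
    (measurableSet_eq_fun hf measurable_const).compl
  rw [ae_iff] at h0 ⊢
  rw [← hS.measure_preimage hm.nullMeasurableSet]
  exact h0

/-- For an ergodic map, an a.e. eigenfunction is a.e. zero, or is a.e. nonzero and its
eigenvalue is nonzero. -/
lemma zero_or_nonzero {β : Type} [MeasurableSpace β] {ν : Measure β} {S : β → β}
    (hS : Ergodic S ν) {f : β → ℂ} (hf : Measurable f) {c : ℂ}
    (h : ∀ᵐ p ∂ν, f (S p) = c * f p) :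
    (∀ᵐ p ∂ν, f p = 0) ∨ ((∀ᵐ p ∂ν, f p ≠ 0) ∧ c ≠ 0) := by
  by_cases hc : c = 0
  · left
    refine ae_zero_of_comp_zero hS.toMeasurePreserving hf ?_
    filter_upwards [h] with p hp
    rw [hp, hc, zero_mul]
  · have hm : MeasurableSet {p : β | f p = 0} := measurableSet_eq_fun hf measurable_const
    have hinv : S ⁻¹' {p : β | f p = 0} =ᵐ[ν] {p : β | f p = 0} := by
      filter_upwards [h] with p hp
      apply propext
      show f (S p) = 0 ↔ f p = 0
      rw [hp]
      simp [hc]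
    rcases hS.quasiErgodic.ae_mem_or_ae_notMem₀ hm.nullMeasurableSet hinv with h1 | h1
    · left; exact h1
    · right; exact ⟨h1, hc⟩

/-- If the Cartesian square is ergodic, then every a.e. eigenfunction of `T` is a.e. constant. -/
lemma eigen_const [SigmaFinite μ] {T : α → α} (hT : MeasurePreserving T μ μ)
    (hS : Ergodic (Prod.map T T) (μ.prod μ)) {h : α → ℂ} (hh : Measurable h) {a : ℂ}
    (he : ∀ᵐ x ∂μ, h (T x) = a * h x) : ∃ k : ℂ, ∀ᵐ x ∂μ, h x = k := by
  by_cases hz : ∀ᵐ x ∂μ, h x = 0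
  · exact ⟨0, hz⟩
  have ha : a ≠ 0 := by
    intro ha
    apply hz
    refine ae_zero_of_comp_zero hT hh ?_
    filter_upwards [he] with p hp
    rw [hp, ha, zero_mul]
  have hF : Measurable (fun p : α × α => h p.2 / h p.1) :=
    (hh.comp measurable_snd).div (hh.comp measurable_fst)
  have h1 : ∀ᵐ p ∂(μ.prod μ), h (T p.1) = a * h p.1 :=
    (Measure.quasiMeasurePreserving_fst (μ := μ) (ν := μ)).ae he
  have h2 : ∀ᵐ p ∂(μ.prod μ), h (T p.2) = a * h p.2 :=
    (Measure.quasiMeasurePreserving_snd (μ := μ) (ν := μ)).ae he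
  have hinv : (fun p : α × α => h p.2 / h p.1) ∘ (Prod.map T T)
      =ᵐ[μ.prod μ] (fun p : α × α => h p.2 / h p.1) := by
    filter_upwards [h1, h2] with p hp1 hp2
    show h (T p.2) / h (T p.1) = h p.2 / h p.1
    rw [hp1, hp2, mul_div_mul_left _ _ ha]
  obtain ⟨k, hk⟩ := hS.ae_eq_const_of_ae_eq_comp_ae hF.aestronglyMeasurable hinv
  have hk2 := Measure.ae_ae_of_ae_prod hk
  have hex : ∃ᵐ x ∂μ, h x ≠ 0 := by
    rw [Filter.Frequently]
    simpa using hz
  obtain ⟨x, hx0, hx⟩ := (hex.and_eventually hk2).exists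
  refine ⟨k * h x, ?_⟩
  filter_upwards [hx] with y hy
  have hy' : h y / h x = k := hy
  rw [div_eq_iff hx0] at hy'
  exact hy'

end aux

/-- Take an invertible, conservative, measure-preserving map T on an infinite σ-finite standard space with T×T ergodic. Then T×T has no nonconstant eigenfunctions: any measurable f with f∘(T×T) = c·f a.e. is a.e. constant. -/
theorem result :
    ∀ (α : Type) [MeasurableSpace α] [StandardBorelSpace α]
      (μ : MeasureTheory.Measure α) [MeasureTheory.SigmaFinite μ] (T : α ≃ᵐ α),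
      μ Set.univ = ⊤ →
      MeasureTheory.MeasurePreserving (⇑T) μ μ →
      MeasureTheory.Conservative (⇑T) μ →
      Ergodic (Prod.map ⇑T ⇑T) (μ.prod μ) →
      ∀ (f : α × α → ℂ), Measurable f → ∀ c : ℂ,
        (f ∘ Prod.map ⇑T ⇑T =ᵐ[μ.prod μ] fun x => c * f x) →
        ∃ a : ℂ, f =ᵐ[μ.prod μ] fun _ => a := by
  intro α _ _ μ _ T _ hT _ hS f hf c hfc
  have hfc' : ∀ᵐ p ∂(μ.prod μ), f (T p.1, T p.2) = c * f p := hfc
  rcases zero_or_nonzero hS hf hfc' with hz | ⟨hnz, hc⟩
  · exact ⟨0, hz⟩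
  have hTm : Measurable (⇑T) := T.measurable
  -- first coordinate
  have hA : MeasurePreserving (Prod.map (⇑T) (id : α → α)) (μ.prod μ) (μ.prod μ) :=
    hT.prod (MeasurePreserving.id μ)
  have hB : MeasurePreserving (Prod.map (id : α → α) (⇑T)) (μ.prod μ) (μ.prod μ) :=
    (MeasurePreserving.id μ).prod hT
  have hA1 : ∀ᵐ p ∂(μ.prod μ), f (T (T p.1), T p.2) = c * f (T p.1, p.2) :=
    hA.quasiMeasurePreserving.ae hfc'
  have hB1 : ∀ᵐ p ∂(μ.prod μ), f (T p.1, T (T p.2)) = c * f (p.1, T p.2) :=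
    hB.quasiMeasurePreserving.ae hfc'
  have hFA : Measurable (fun p : α × α => f (T p.1, p.2)) :=
    hf.comp ((hTm.comp measurable_fst).prodMk measurable_snd)
  have hFB : Measurable (fun p : α × α => f (p.1, T p.2)) :=
    hf.comp (measurable_fst.prodMk (hTm.comp measurable_snd))
  obtain ⟨a, ha⟩ : ∃ a : ℂ, (fun p : α × α => f (T p.1, p.2) / f p)
      =ᵐ[μ.prod μ] Function.const _ a := by
    refine hS.ae_eq_const_of_ae_eq_comp_ae (hFA.div hf).aestronglyMeasurable ?_
    filter_upwards [hfc', hA1] with p hp1 hp2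
    show f (T (T p.1), T p.2) / f (T p.1, T p.2) = f (T p.1, p.2) / f p
    rw [hp1, hp2, mul_div_mul_left _ _ hc]
  obtain ⟨b, hb⟩ : ∃ b : ℂ, (fun p : α × α => f (p.1, T p.2) / f p)
      =ᵐ[μ.prod μ] Function.const _ b := by
    refine hS.ae_eq_const_of_ae_eq_comp_ae (hFB.div hf).aestronglyMeasurable ?_
    filter_upwards [hfc', hB1] with p hp1 hp2
    show f (T p.1, T (T p.2)) / f (T p.1, T p.2) = f (p.1, T p.2) / f p
    rw [hp1, hp2, mul_div_mul_left _ _ hc]
  have ha' : ∀ᵐ p ∂(μ.prod μ), f (T p.1, p.2) = a * f p := by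
    filter_upwards [ha, hnz] with p hp hp0
    have hp' : f (T p.1, p.2) / f p = a := hp
    rwa [div_eq_iff hp0] at hp'
  have hb' : ∀ᵐ p ∂(μ.prod μ), f (p.1, T p.2) = b * f p := by
    filter_upwards [hb, hnz] with p hp hp0
    have hp' : f (p.1, T p.2) / f p = b := hp
    rwa [div_eq_iff hp0] at hp'
  -- the fibres in the second coordinate are a.e. constant
  have hfib2 : ∀ᵐ x ∂μ, ∀ᵐ y ∂μ, f (x, T y) = f (x, y) := by
    filter_upwards [Measure.ae_ae_of_ae_prod hb'] with x hx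
    obtain ⟨k, hk⟩ := eigen_const hT hS (hf.comp (measurable_const.prodMk measurable_id))
      (h := fun y => f (x, y)) hx
    have hk' : ∀ᵐ y ∂μ, f (x, T y) = k := hT.quasiMeasurePreserving.ae hk
    filter_upwards [hk, hk'] with y h1 h2
    rw [h1, h2]
  have hfib1 : ∀ᵐ y ∂μ, ∀ᵐ x ∂μ, f (T x, y) = f (x, y) := by
    have hsw : ∀ᵐ p ∂(μ.prod μ), f (T p.2, p.1) = a * f (p.2, p.1) :=
      (Measure.measurePreserving_swap (μ := μ) (ν := μ)).quasiMeasurePreserving.ae ha'
    filter_upwards [Measure.ae_ae_of_ae_prod hsw] with y hy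
    obtain ⟨k, hk⟩ := eigen_const hT hS (hf.comp (measurable_id.prodMk measurable_const))
      (h := fun x => f (x, y)) hy
    have hk' : ∀ᵐ x ∂μ, f (T x, y) = k := hT.quasiMeasurePreserving.ae hk
    filter_upwards [hk, hk'] with x h1 h2
    rw [h1, h2]
  have h2 : ∀ᵐ p ∂(μ.prod μ), f (p.1, T p.2) = f p := by
    have hm : MeasurableSet {p : α × α | f (p.1, T p.2) = f p} := measurableSet_eq_fun hFB hf
    exact (Measure.ae_prod_iff_ae_ae hm).2 hfib2
  have h1 : ∀ᵐ p ∂(μ.prod μ), f (T p.1, p.2) = f p := by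
    have hm : MeasurableSet {p : α × α | f (T p.2, p.1) = f (p.2, p.1)} :=
      measurableSet_eq_fun (hFA.comp measurable_swap) (hf.comp measurable_swap)
    have h3 : ∀ᵐ p ∂(μ.prod μ), f (T p.2, p.1) = f (p.2, p.1) :=
      (Measure.ae_prod_iff_ae_ae hm).2 hfib1
    exact (Measure.measurePreserving_swap (μ := μ) (ν := μ)).quasiMeasurePreserving.ae h3
  have h12 : ∀ᵐ p ∂(μ.prod μ), f (T p.1, T p.2) = f (p.1, T p.2) :=
    hB.quasiMeasurePreserving.ae h1
  obtain ⟨k, hk⟩ := hS.ae_eq_const_of_ae_eq_comp_ae (g := f) hf.aestronglyMeasurable (by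
    filter_upwards [h12, h2] with p hp1 hp2
    show f (T p.1, T p.2) = f p
    rw [hp1, hp2])
  exact ⟨k, hk⟩

end Pool.Agent.S05499
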