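import Pool.Statements.S05554
import Pool.Agent.Lib.MP_9d6b4a_an.Final

set_option autoImplicit false
open Pool Pool.MP_9d6b4a_an

namespace Pool.Agent.S05554

/-- The negation of the preceding statement: For invertible measure-preserving maps T_i of a probability space and distinct integer polynomials p_i with zero constant term, every positive-measure set A has positive m, n with μ(A ∩ ⋂ T_i^{-(m+p_i(n))}A) > 0. -/
theorem result :
    ¬ (∀ (α : Type) [MeasurableSpace α] (μ : MeasureTheory.Measure α)
      [MeasureTheory.IsProbabilityMeasure μ]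
      (ℓ : ℕ) (T : Fin ℓ → Equiv.Perm α) (p : Fin ℓ → Polynomial ℤ),
      (∀ i, Measurable (T i)) →
      (∀ i, Measurable (T i).symm) →
      (∀ i, MeasureTheory.MeasurePreserving (T i) μ μ) →
      Function.Injective p →
      (∀ i, (p i).coeff 0 = 0) →
      ∀ A : Set α, MeasurableSet A → 0 < μ A →
        ∃ m n : ℕ, 0 < m ∧ 0 < n ∧
          0 < μ (A ∩ ⋂ i, ⇑(T i ^ ((m : ℤ) + (p i).eval (n : ℤ))) ⁻¹' A)) := by
  obtain ⟨P⟩ := Pool.Agent.PolyRec.exists_par
  exact Pool.Agent.PolyRec.final P

end Pool.Agent.S05554
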