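import Pool.Statements.S05571
import Pool.Agent.Lib.MP_9e2694_an.Key5
import Pool.Agent.Lib.MP_9e2694_an.Upper
import Pool.Agent.Lib.MP_9e2694_an.Lower

set_option autoImplicit false
open Filter Topology MeasureTheory
open scoped ENNReal
open Pool Pool.MP_9e2694_an

namespace Pool.Agent.S05571

open Pool.Agent.Lib.MP_9e2694_an in
theorem eq_beu {g Tg : ℂ → ℂ} (hg : Test g)
    (h : ∀ x : ℂ, Tendsto
      (fun ε : ℝ => -(1 / (Real.pi : ℂ)) *
        ∫ y in {y : ℂ | ε < ‖x - y‖}, g y / (x - y) ^ 2)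
      (𝓝[>] (0 : ℝ)) (𝓝 (Tg x))) : Tg = Beu g :=
  funext fun x => tendsto_nhds_unique (h x) (pv_tendsto hg x)

open Pool.Agent.Lib.MP_9e2694_an in
theorem upper' (ε : ℝ) (hε : 0 < ε) : ∀ᶠ p : ℝ in atTop, ∀ g : ℂ → ℂ, Test g →
      eLpNorm (Beu g) (ENNReal.ofReal p) volume ≤
        ENNReal.ofReal ((1 + ε) * p) * eLpNorm g (ENNReal.ofReal p) volume := by
  refine upper_eventually (fun f g hf hg => beu_add hf hg) (fun c f hf => beu_const_mul c hf)
    (fun f hf => (contDiff_beu hf).continuous) (fun f hf => ?_) hL20 keyEst ε hε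
  obtain ⟨C, hC0, hC⟩ := cau_bound hf.dz
  refine ⟨C, fun z => (hC z).trans ?_⟩
  exact div_le_self hC0 (by linarith [norm_nonneg z])

open Pool.Agent.Lib.MP_9e2694_an in
theorem beu_dzb {h : ℂ → ℂ} (hh : Test h) : Beu (dzb h) = dz h := by
  rw [← dz_cau hh.dzb, cau_dzb hh]

/-- Let N(p) be the best constant with ‖Tg‖_p ≤ N(p)‖g‖_p for all smooth compactly supported g on the plane, T the principal-value Beurling transform. Then the liminf of N(p)/p as p→∞ equals 1. -/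
theorem result :
    Filter.liminf
      (fun p : ℝ =>
        sInf {C : ℝ≥0∞ | ∀ g : ℂ → ℂ, ContDiff ℝ (⊤ : ℕ∞) g → HasCompactSupport g →
          ∀ Tg : ℂ → ℂ,
            (∀ x : ℂ, Tendsto
              (fun ε : ℝ => -(1 / (Real.pi : ℂ)) *
                ∫ y in {y : ℂ | ε < ‖x - y‖}, g y / (x - y) ^ 2)
              (𝓝[>] (0 : ℝ)) (𝓝 (Tg x))) →
            eLpNorm Tg (ENNReal.ofReal p) volume ≤ C * eLpNorm g (ENNReal.ofReal p) volume}
        / ENNReal.ofReal p)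
      atTop = 1 := by
  refine Filter.Tendsto.liminf_eq (tendsto_order.2 ⟨fun a ha => ?_, fun a ha => ?_⟩)
  · obtain ⟨r, hr0, har, hr1⟩ := ENNReal.lt_iff_exists_real_btwn.1 ha
    have hr1' : r < 1 := by
      rw [← ENNReal.ofReal_one] at hr1
      exact (ENNReal.ofReal_lt_ofReal_iff one_pos).1 hr1
    filter_upwards [Lib.MP_9e2694_an.lower_eventually (1 - r) (by linarith),
      eventually_gt_atTop (0 : ℝ)] with p hp hp0
    obtain ⟨h, hh, h0, ht, hle⟩ := hp
    have hp0' : ENNReal.ofReal p ≠ 0 := (ENNReal.ofReal_pos.2 hp0).ne'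
    refine har.trans_le ?_
    rw [ENNReal.le_div_iff_mul_le (Or.inl hp0') (Or.inl ENNReal.ofReal_ne_top),
      ← ENNReal.ofReal_mul hr0]
    refine le_sInf fun C hC => ?_
    have h3 := hC (Lib.MP_9e2694_an.dzb h) hh.dzb.1 hh.dzb.2 _
      (fun x => Lib.MP_9e2694_an.pv_tendsto hh.dzb x)
    rw [beu_dzb hh] at h3
    have h4 := hle.trans h3
    rw [sub_sub_cancel] at h4
    exact (ENNReal.mul_le_mul_iff_left h0 ht).1 h4
  · obtain ⟨r, hr0, h1r, hra⟩ := ENNReal.lt_iff_exists_real_btwn.1 ha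
    have hr1' : 1 < r := by
      rw [← ENNReal.ofReal_one] at h1r
      by_contra hcon
      exact absurd h1r (not_lt.2 (ENNReal.ofReal_le_ofReal (not_lt.1 hcon)))
    filter_upwards [upper' (r - 1) (by linarith), eventually_gt_atTop (0 : ℝ)] with p hp hp0
    have hp0' : ENNReal.ofReal p ≠ 0 := (ENNReal.ofReal_pos.2 hp0).ne'
    refine lt_of_le_of_lt ?_ hra
    rw [ENNReal.div_le_iff hp0' ENNReal.ofReal_ne_top, ← ENNReal.ofReal_mul hr0]
    refine sInf_le ?_
    intro g hg hgc Tg hTg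
    rw [eq_beu ⟨hg, hgc⟩ hTg]
    have h5 := hp g ⟨hg, hgc⟩
    rwa [add_sub_cancel] at h5

end Pool.Agent.S05571
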