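import Pool.Statements.S05951
import Pool.Agent.Lib.MP_bcb457_an.Key
-- import your own Pool.Agent.* helpers here

set_option autoImplicit false
open Pool Pool.MP_bcb457_an

namespace Pool.Agent.S05951

/-- There are K>1, C>0 such that for all 1≤d≤n, every degree-d homogeneous multilinear polynomial on {-1,1}^n with all coefficients of modulus 1 has some point where C·d^((K+1)/(2K-2))·n^(-1/(2K-2))·∣f∣ is at least sqrt(binom(n,d)). -/
theorem result :
    ∃ K : ℝ, 1 < K ∧ ∃ C : ℝ, 0 < C ∧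
      ∀ n : ℕ, 1 ≤ n → ∀ d : ℕ, 1 ≤ d → d ≤ n →
        ∀ c : Finset (Fin n) → ℂ, (∀ S : Finset (Fin n), S.card = d → ‖c S‖ = 1) →
          ∃ x : Fin n → ℤ, (∀ i, x i = 1 ∨ x i = -1) ∧
            Real.sqrt ((n.choose d : ℕ) : ℝ) ≤
              C * (d : ℝ) ^ ((K + 1) / (2 * K - 2)) * (n : ℝ) ^ (-1 / (2 * K - 2)) *
                ‖∑ S ∈ (Finset.univ : Finset (Finset (Fin n))).filter (fun S => S.card = d),
                    c S * ∏ i ∈ S, ((x i : ℤ) : ℂ)‖ := by
  obtain ⟨K, hK, C, hC, h⟩ := Pool.Agent.Lib.MP_bcb457_an.final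
  refine ⟨K, hK, C, hC, fun n _ d hd hdn c hc => ?_⟩
  obtain ⟨T, hT⟩ := h n d hd hdn c hc
  refine ⟨fun i => if i ∈ T then -1 else 1, fun i => by
    by_cases hi : i ∈ T
    · right; simp [hi]
    · left; simp [hi], ?_⟩
  have e : ∑ S ∈ (Finset.univ : Finset (Finset (Fin n))).filter (fun S => S.card = d),
      c S * ∏ i ∈ S, (((if i ∈ T then -1 else 1 : ℤ) : ℤ) : ℂ) =
      Pool.Agent.Lib.MP_bcb457_an.F d c T := by
    unfold Pool.Agent.Lib.MP_bcb457_an.F
    apply Finset.sum_congr rfl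
    intro S _
    congr 1
    unfold Pool.Agent.Lib.MP_bcb457_an.chi Pool.Agent.Lib.MP_bcb457_an.sg
    push_cast
    apply Finset.prod_congr rfl
    intro i _
    split_ifs <;> simp
  rw [e]
  exact hT

end Pool.Agent.S05951
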