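import Pool.Statements.S06320
import Pool.Agent.Lib.MP_d71970_an.Final

set_option autoImplicit false
open Matrix
open Pool Pool.MP_d71970_an

namespace Pool.Agent.S06320

/-- The negation of the preceding statement: For real p ≥ 1, suppose every pair of normal complex matrices of any size has a matching of their eigenvalues whose l^p distance is at most the Schatten p-norm of their difference. Then p equals 2. -/
theorem result :
    ¬ (∀ p : ℝ, 1 ≤ p →
      (∀ n : ℕ, ∀ α β : Fin n → ℂ,
        ∀ U ∈ Matrix.unitaryGroup (Fin n) ℂ, ∀ V ∈ Matrix.unitaryGroup (Fin n) ℂ,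
          ∃ σ : Equiv.Perm (Fin n),
            (∑ i, ‖α i - β (σ i)‖ ^ p) ^ (1 / p) ≤
              (∑ i, Real.sqrt ((Matrix.isHermitian_conjTranspose_mul_self
                  (U * Matrix.diagonal α * star U - V * Matrix.diagonal β * star V)).eigenvalues i) ^ p)
                ^ (1 / p)) →
      p = 2) := by
  intro h
  have h42 : (4 : ℝ) = 2 := by
    refine h 4 (by norm_num) ?_
    intro n α β U hU V hV
    obtain ⟨σ, hσ⟩ := Pool.Agent.Lib.MP_d71970_an.hw4 α β U V hU hV
    refine ⟨σ, ?_⟩
    have h4 : ∀ x : ℝ, x ^ (4 : ℝ) = x ^ 4 := fun x => by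
      exact_mod_cast Real.rpow_natCast x 4
    refine Real.rpow_le_rpow (Finset.sum_nonneg fun i _ => by rw [h4]; positivity) ?_ (by norm_num)
    have h5 : ∀ i, Real.sqrt ((Matrix.isHermitian_conjTranspose_mul_self
        (U * Matrix.diagonal α * star U - V * Matrix.diagonal β * star V)).eigenvalues i) ^ (4 : ℝ) =
        (Matrix.isHermitian_conjTranspose_mul_self
        (U * Matrix.diagonal α * star U - V * Matrix.diagonal β * star V)).eigenvalues i ^ 2 := by
      intro i
      have hnn : 0 ≤ (Matrix.isHermitian_conjTranspose_mul_self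
        (U * Matrix.diagonal α * star U - V * Matrix.diagonal β * star V)).eigenvalues i :=
        Pool.Agent.Lib.MP_d71970_an.gram_eigenvalues_nonneg _ i
      rw [h4, show (4 : ℕ) = 2 * 2 by norm_num, pow_mul, Real.sq_sqrt hnn]
    rw [Finset.sum_congr rfl fun i _ => h4 _, Finset.sum_congr rfl fun i _ => h5 i,
      Pool.Agent.Lib.MP_d71970_an.sum_eigenvalues_sq]
    exact hσ
  norm_num at h42

end Pool.Agent.S06320
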