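import Pool.Statements.S06352
import Pool.Agent.Lib.BrownShields.Final

set_option autoImplicit false
open Classical
open Pool Pool.MP_d9131c_an

namespace Pool.Agent.S06352

/-- The negation of the preceding statement: If f = ∑aₙzⁿ lies in the Dirichlet space, is outer, and the set of circle points where its radial limit is 0 has outer logarithmic capacity zero, then some polynomial p makes ‖pf − 1‖ in the Dirichlet norm arbitrarily small, i.e. f is cyclic. -/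
theorem result :
    ¬ (∀ a : ℕ → ℂ,
    Summable (fun n : ℕ => (n : ℝ) * ‖a n‖ ^ 2) →
    a 0 ≠ 0 →
    (∃ F : ℝ → ℂ,
      (∀ᵐ θ : ℝ, Filter.Tendsto
        (fun r : ℝ => ∑' n : ℕ, a n * ((r : ℂ) * Complex.exp ((θ : ℂ) * Complex.I)) ^ n)
        (nhdsWithin 1 (Set.Iio 1)) (nhds (F θ))) ∧
      Real.log ‖a 0‖ = (1 / (2 * Real.pi)) * ∫ θ in (0 : ℝ)..(2 * Real.pi), Real.log ‖F θ‖) →
    (∀ M : ℕ, ∃ U : Set ℂ, IsOpen U ∧
      {z : ℂ | ∃ θ : ℝ, z = Complex.exp ((θ : ℂ) * Complex.I) ∧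
        Filter.Tendsto
          (fun r : ℝ => ∑' n : ℕ, a n * ((r : ℂ) * Complex.exp ((θ : ℂ) * Complex.I)) ^ n)
          (nhdsWithin 1 (Set.Iio 1)) (nhds 0)} ⊆ U ∧
      ∀ K : Set ℂ, IsCompact K → K ⊆ U ∩ Metric.sphere (0 : ℂ) 1 →
        ∀ μ : MeasureTheory.Measure ℂ, MeasureTheory.IsProbabilityMeasure μ → μ Kᶜ = 0 →
          (M : ENNReal) ≤ ∫⁻ z, ∫⁻ w,
            (if z = w then (⊤ : ENNReal) else ENNReal.ofReal (Real.log (2 / ‖z - w‖))) ∂μ ∂μ) →
    ∀ ε : ℝ, 0 < ε → ∃ p : Polynomial ℂ,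
      Summable (fun n : ℕ => ((n : ℝ) + 1) *
        ‖(∑ k ∈ Finset.range (n + 1), p.coeff k * a (n - k)) - (if n = 0 then (1 : ℂ) else 0)‖ ^ 2) ∧
      ∑' n : ℕ, ((n : ℝ) + 1) *
        ‖(∑ k ∈ Finset.range (n + 1), p.coeff k * a (n - k)) - (if n = 0 then (1 : ℂ) else 0)‖ ^ 2 < ε) := by
  intro H
  obtain ⟨m, hm⟩ := Pool.Agent.Lib.BrownShields.exists_par
  obtain ⟨p, hp1, hp2⟩ := H (Pool.Agent.Lib.BrownShields.coef m)
    (Pool.Agent.Lib.BrownShields.summable_coef hm)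
    (by rw [Pool.Agent.Lib.BrownShields.coef_zero]
        exact Pool.Agent.Lib.BrownShields.ff_zero_ne hm)
    (Pool.Agent.Lib.BrownShields.outer_part hm)
    (Pool.Agent.Lib.BrownShields.capacity_part hm) (1 / 4) (by norm_num)
  exact Pool.Agent.Lib.BrownShields.final_contra hm p
    (by convert hp1) (by convert hp2)

end Pool.Agent.S06352
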