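import Pool.Statements.S06478
import Mathlib

/-!
# D'Angelo's degree conjecture fails in source dimension two

An explicit polynomial map `ℂ² → ℂ¹²` of degree `22` which maps the unit sphere into the unit
sphere; `22 > 2 * 12 - 3 = 21`.  All twelve components are binary forms, of degrees
`22 (3 times), 21 (4 times), 20, 18 (4 times)`; the four groups of components span irreducible
representations (of dimensions 3, 4, 1, 4) of the binary icosahedral group, in Klein's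
coordinates, and the coefficients lie in `ℚ(√-3047)` up to one real normalising constant
for each component.
-/

set_option autoImplicit false
open Pool Pool.MP_e3689b_an

namespace Pool.Agent.S06478

open MvPolynomial

/-- `th = i √3047`. -/
noncomputable def th : ℂ := Complex.I * ((Real.sqrt 3047 : ℝ) : ℂ)

theorem th_sq : th ^ 2 = -3047 := by
  unfold th
  rw [mul_pow, Complex.I_sq, ← Complex.ofReal_pow, Real.sq_sqrt (by norm_num)]
  norm_num

theorem conj_th : (starRingEnd ℂ) th = -th := by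
  unfold th
  rw [map_mul, Complex.conj_I, Complex.conj_ofReal]
  ring

/-- Component 0 as a function (before normalisation; `t = i √3047`). -/
noncomputable def q0 (a b t : ℂ) : ℂ :=
  (6187 + 253 * t) * a ^ 22 + (816684 - 57684 * t) * a ^ 17 * b ^ 5 + (26814458 + 124982 * t) * a ^ 12 * b ^ 10 + (-8983524 + 57684 * t) * a ^ 7 * b ^ 15 + (748627 + 253 * t) * a ^ 2 * b ^ 20

/-- Component 1 as a function (before normalisation; `t = i √3047`). -/
noncomputable def q1 (a b t : ℂ) : ℂ :=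
  (-68057 + 253 * t) * a ^ 21 * b ^ 1 + (-4900104 - 57684 * t) * a ^ 16 * b ^ 6 + (-26195758 + 124982 * t) * a ^ 11 * b ^ 11 + (4900104 + 57684 * t) * a ^ 6 * b ^ 16 + (-68057 + 253 * t) * a ^ 1 * b ^ 21

/-- Component 2 as a function (before normalisation; `t = i √3047`). -/
noncomputable def q2 (a b t : ℂ) : ℂ :=
  (748627 + 253 * t) * a ^ 20 * b ^ 2 + (8983524 - 57684 * t) * a ^ 15 * b ^ 7 + (26814458 + 124982 * t) * a ^ 10 * b ^ 12 + (-816684 + 57684 * t) * a ^ 5 * b ^ 17 + (6187 + 253 * t) * b ^ 22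

/-- Component 3 as a function (before normalisation; `t = i √3047`). -/
noncomputable def q3 (a b t : ℂ) : ℂ :=
  (-449673 - 27531 * t) * a ^ 17 * b ^ 4 + (-2945817 + 119301 * t) * a ^ 12 * b ^ 9 + (3446619 + 82593 * t) * a ^ 7 * b ^ 14 + (-249711 + 483 * t) * a ^ 2 * b ^ 19

/-- Component 4 as a function (before normalisation; `t = i √3047`). -/
noncomputable def q4 (a b t : ℂ) : ℂ :=
  (-667 - 161 * t) * a ^ 21 + (541443 + 9177 * t) * a ^ 16 * b ^ 5 + (5674445 + 39767 * t) * a ^ 11 * b ^ 10 + (-620977 + 45885 * t) * a ^ 6 * b ^ 15 + (29302 + 322 * t) * a ^ 1 * b ^ 20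

/-- Component 5 as a function (before normalisation; `t = i √3047`). -/
noncomputable def q5 (a b t : ℂ) : ℂ :=
  (-29302 - 322 * t) * a ^ 20 * b ^ 1 + (-620977 + 45885 * t) * a ^ 15 * b ^ 6 + (-5674445 - 39767 * t) * a ^ 10 * b ^ 11 + (541443 + 9177 * t) * a ^ 5 * b ^ 16 + (667 + 161 * t) * b ^ 21

/-- Component 6 as a function (before normalisation; `t = i √3047`). -/
noncomputable def q6 (a b t : ℂ) : ℂ :=
  (249711 - 483 * t) * a ^ 19 * b ^ 2 + (3446619 + 82593 * t) * a ^ 14 * b ^ 7 + (2945817 - 119301 * t) * a ^ 9 * b ^ 12 + (-449673 - 27531 * t) * a ^ 4 * b ^ 17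

/-- Component 7 as a function (before normalisation; `t = i √3047`). -/
noncomputable def q7 (a b _t : ℂ) : ℂ :=
  (-1) * a ^ 20 + (228) * a ^ 15 * b ^ 5 + (-494) * a ^ 10 * b ^ 10 + (-228) * a ^ 5 * b ^ 15 + (-1) * b ^ 20

/-- Component 8 as a function (before normalisation; `t = i √3047`). -/
noncomputable def q8 (a b t : ℂ) : ℂ :=
  (14025 + 255 * t) * a ^ 17 * b ^ 1 + (-303875 + 2295 * t) * a ^ 12 * b ^ 6 + (-1143675 - 5865 * t) * a ^ 7 * b ^ 11 + (-30600 + 510 * t) * a ^ 2 * b ^ 16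

/-- Component 9 as a function (before normalisation; `t = i √3047`). -/
noncomputable def q9 (a b t : ℂ) : ℂ :=
  (31229 + 255 * t) * a ^ 15 * b ^ 3 + (51051 + 2805 * t) * a ^ 10 * b ^ 8 + (75123 - 255 * t) * a ^ 5 * b ^ 13 + (-782) * b ^ 18

/-- Component 10 as a function (before normalisation; `t = i √3047`). -/
noncomputable def q10 (a b t : ℂ) : ℂ :=
  (-782) * a ^ 18 + (-75123 + 255 * t) * a ^ 13 * b ^ 5 + (51051 + 2805 * t) * a ^ 8 * b ^ 10 + (-31229 - 255 * t) * a ^ 3 * b ^ 15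

/-- Component 11 as a function (before normalisation; `t = i √3047`). -/
noncomputable def q11 (a b t : ℂ) : ℂ :=
  (-30600 + 510 * t) * a ^ 16 * b ^ 2 + (1143675 + 5865 * t) * a ^ 11 * b ^ 7 + (-303875 + 2295 * t) * a ^ 6 * b ^ 12 + (-14025 - 255 * t) * a ^ 1 * b ^ 17

/-- Component 0, a binary form of degree 22 (before normalisation). -/
noncomputable def P0 : MvPolynomial (Fin 2) ℂ :=
  C (6187 + 253 * th) * X 0 ^ 22 + C (816684 - 57684 * th) * X 0 ^ 17 * X 1 ^ 5 + C (26814458 + 124982 * th) * X 0 ^ 12 * X 1 ^ 10 + C (-8983524 + 57684 * th) * X 0 ^ 7 * X 1 ^ 15 + C (748627 + 253 * th) * X 0 ^ 2 * X 1 ^ 20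

/-- Component 1, a binary form of degree 22 (before normalisation). -/
noncomputable def P1 : MvPolynomial (Fin 2) ℂ :=
  C (-68057 + 253 * th) * X 0 ^ 21 * X 1 ^ 1 + C (-4900104 - 57684 * th) * X 0 ^ 16 * X 1 ^ 6 + C (-26195758 + 124982 * th) * X 0 ^ 11 * X 1 ^ 11 + C (4900104 + 57684 * th) * X 0 ^ 6 * X 1 ^ 16 + C (-68057 + 253 * th) * X 0 ^ 1 * X 1 ^ 21

/-- Component 2, a binary form of degree 22 (before normalisation). -/
noncomputable def P2 : MvPolynomial (Fin 2) ℂ :=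
  C (748627 + 253 * th) * X 0 ^ 20 * X 1 ^ 2 + C (8983524 - 57684 * th) * X 0 ^ 15 * X 1 ^ 7 + C (26814458 + 124982 * th) * X 0 ^ 10 * X 1 ^ 12 + C (-816684 + 57684 * th) * X 0 ^ 5 * X 1 ^ 17 + C (6187 + 253 * th) * X 1 ^ 22

/-- Component 3, a binary form of degree 21 (before normalisation). -/
noncomputable def P3 : MvPolynomial (Fin 2) ℂ :=
  C (-449673 - 27531 * th) * X 0 ^ 17 * X 1 ^ 4 + C (-2945817 + 119301 * th) * X 0 ^ 12 * X 1 ^ 9 + C (3446619 + 82593 * th) * X 0 ^ 7 * X 1 ^ 14 + C (-249711 + 483 * th) * X 0 ^ 2 * X 1 ^ 19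

/-- Component 4, a binary form of degree 21 (before normalisation). -/
noncomputable def P4 : MvPolynomial (Fin 2) ℂ :=
  C (-667 - 161 * th) * X 0 ^ 21 + C (541443 + 9177 * th) * X 0 ^ 16 * X 1 ^ 5 + C (5674445 + 39767 * th) * X 0 ^ 11 * X 1 ^ 10 + C (-620977 + 45885 * th) * X 0 ^ 6 * X 1 ^ 15 + C (29302 + 322 * th) * X 0 ^ 1 * X 1 ^ 20

/-- Component 5, a binary form of degree 21 (before normalisation). -/
noncomputable def P5 : MvPolynomial (Fin 2) ℂ :=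
  C (-29302 - 322 * th) * X 0 ^ 20 * X 1 ^ 1 + C (-620977 + 45885 * th) * X 0 ^ 15 * X 1 ^ 6 + C (-5674445 - 39767 * th) * X 0 ^ 10 * X 1 ^ 11 + C (541443 + 9177 * th) * X 0 ^ 5 * X 1 ^ 16 + C (667 + 161 * th) * X 1 ^ 21

/-- Component 6, a binary form of degree 21 (before normalisation). -/
noncomputable def P6 : MvPolynomial (Fin 2) ℂ :=
  C (249711 - 483 * th) * X 0 ^ 19 * X 1 ^ 2 + C (3446619 + 82593 * th) * X 0 ^ 14 * X 1 ^ 7 + C (2945817 - 119301 * th) * X 0 ^ 9 * X 1 ^ 12 + C (-449673 - 27531 * th) * X 0 ^ 4 * X 1 ^ 17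

/-- Component 7, a binary form of degree 20 (before normalisation). -/
noncomputable def P7 : MvPolynomial (Fin 2) ℂ :=
  C (-1) * X 0 ^ 20 + C (228) * X 0 ^ 15 * X 1 ^ 5 + C (-494) * X 0 ^ 10 * X 1 ^ 10 + C (-228) * X 0 ^ 5 * X 1 ^ 15 + C (-1) * X 1 ^ 20

/-- Component 8, a binary form of degree 18 (before normalisation). -/
noncomputable def P8 : MvPolynomial (Fin 2) ℂ :=
  C (14025 + 255 * th) * X 0 ^ 17 * X 1 ^ 1 + C (-303875 + 2295 * th) * X 0 ^ 12 * X 1 ^ 6 + C (-1143675 - 5865 * th) * X 0 ^ 7 * X 1 ^ 11 + C (-30600 + 510 * th) * X 0 ^ 2 * X 1 ^ 16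

/-- Component 9, a binary form of degree 18 (before normalisation). -/
noncomputable def P9 : MvPolynomial (Fin 2) ℂ :=
  C (31229 + 255 * th) * X 0 ^ 15 * X 1 ^ 3 + C (51051 + 2805 * th) * X 0 ^ 10 * X 1 ^ 8 + C (75123 - 255 * th) * X 0 ^ 5 * X 1 ^ 13 + C (-782) * X 1 ^ 18

/-- Component 10, a binary form of degree 18 (before normalisation). -/
noncomputable def P10 : MvPolynomial (Fin 2) ℂ :=
  C (-782) * X 0 ^ 18 + C (-75123 + 255 * th) * X 0 ^ 13 * X 1 ^ 5 + C (51051 + 2805 * th) * X 0 ^ 8 * X 1 ^ 10 + C (-31229 - 255 * th) * X 0 ^ 3 * X 1 ^ 15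

/-- Component 11, a binary form of degree 18 (before normalisation). -/
noncomputable def P11 : MvPolynomial (Fin 2) ℂ :=
  C (-30600 + 510 * th) * X 0 ^ 16 * X 1 ^ 2 + C (1143675 + 5865 * th) * X 0 ^ 11 * X 1 ^ 7 + C (-303875 + 2295 * th) * X 0 ^ 6 * X 1 ^ 12 + C (-14025 - 255 * th) * X 0 ^ 1 * X 1 ^ 17

theorem eval_P0 (z : Fin 2 → ℂ) : eval z P0 = q0 (z 0) (z 1) th := by
  simp [P0, q0]

theorem conj_q0 (a b : ℂ) : (starRingEnd ℂ) (q0 a b th) =
    q0 ((starRingEnd ℂ) a) ((starRingEnd ℂ) b) (-th) := by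
  simp [q0, conj_th, map_ofNat]

theorem eval_P1 (z : Fin 2 → ℂ) : eval z P1 = q1 (z 0) (z 1) th := by
  simp [P1, q1]

theorem conj_q1 (a b : ℂ) : (starRingEnd ℂ) (q1 a b th) =
    q1 ((starRingEnd ℂ) a) ((starRingEnd ℂ) b) (-th) := by
  simp [q1, conj_th, map_ofNat]

theorem eval_P2 (z : Fin 2 → ℂ) : eval z P2 = q2 (z 0) (z 1) th := by
  simp [P2, q2]

theorem conj_q2 (a b : ℂ) : (starRingEnd ℂ) (q2 a b th) =
    q2 ((starRingEnd ℂ) a) ((starRingEnd ℂ) b) (-th) := by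
  simp [q2, conj_th, map_ofNat]

theorem eval_P3 (z : Fin 2 → ℂ) : eval z P3 = q3 (z 0) (z 1) th := by
  simp [P3, q3]

theorem conj_q3 (a b : ℂ) : (starRingEnd ℂ) (q3 a b th) =
    q3 ((starRingEnd ℂ) a) ((starRingEnd ℂ) b) (-th) := by
  simp [q3, conj_th, map_ofNat]

theorem eval_P4 (z : Fin 2 → ℂ) : eval z P4 = q4 (z 0) (z 1) th := by
  simp [P4, q4]

theorem conj_q4 (a b : ℂ) : (starRingEnd ℂ) (q4 a b th) =
    q4 ((starRingEnd ℂ) a) ((starRingEnd ℂ) b) (-th) := by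
  simp [q4, conj_th, map_ofNat]

theorem eval_P5 (z : Fin 2 → ℂ) : eval z P5 = q5 (z 0) (z 1) th := by
  simp [P5, q5]

theorem conj_q5 (a b : ℂ) : (starRingEnd ℂ) (q5 a b th) =
    q5 ((starRingEnd ℂ) a) ((starRingEnd ℂ) b) (-th) := by
  simp [q5, conj_th, map_ofNat]

theorem eval_P6 (z : Fin 2 → ℂ) : eval z P6 = q6 (z 0) (z 1) th := by
  simp [P6, q6]

theorem conj_q6 (a b : ℂ) : (starRingEnd ℂ) (q6 a b th) =
    q6 ((starRingEnd ℂ) a) ((starRingEnd ℂ) b) (-th) := by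
  simp [q6, conj_th, map_ofNat]

theorem eval_P7 (z : Fin 2 → ℂ) : eval z P7 = q7 (z 0) (z 1) th := by
  simp [P7, q7]

theorem conj_q7 (a b : ℂ) : (starRingEnd ℂ) (q7 a b th) =
    q7 ((starRingEnd ℂ) a) ((starRingEnd ℂ) b) (-th) := by
  simp [q7, map_ofNat]

theorem eval_P8 (z : Fin 2 → ℂ) : eval z P8 = q8 (z 0) (z 1) th := by
  simp [P8, q8]

theorem conj_q8 (a b : ℂ) : (starRingEnd ℂ) (q8 a b th) =
    q8 ((starRingEnd ℂ) a) ((starRingEnd ℂ) b) (-th) := by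
  simp [q8, conj_th, map_ofNat]

theorem eval_P9 (z : Fin 2 → ℂ) : eval z P9 = q9 (z 0) (z 1) th := by
  simp [P9, q9]

theorem conj_q9 (a b : ℂ) : (starRingEnd ℂ) (q9 a b th) =
    q9 ((starRingEnd ℂ) a) ((starRingEnd ℂ) b) (-th) := by
  simp [q9, conj_th, map_ofNat]

theorem eval_P10 (z : Fin 2 → ℂ) : eval z P10 = q10 (z 0) (z 1) th := by
  simp [P10, q10]

theorem conj_q10 (a b : ℂ) : (starRingEnd ℂ) (q10 a b th) =
    q10 ((starRingEnd ℂ) a) ((starRingEnd ℂ) b) (-th) := by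
  simp [q10, conj_th, map_ofNat]

theorem eval_P11 (z : Fin 2 → ℂ) : eval z P11 = q11 (z 0) (z 1) th := by
  simp [P11, q11]

theorem conj_q11 (a b : ℂ) : (starRingEnd ℂ) (q11 a b th) =
    q11 ((starRingEnd ℂ) a) ((starRingEnd ℂ) b) (-th) := by
  simp [q11, conj_th, map_ofNat]

set_option maxHeartbeats 4000000 in
/-- The polynomial identity behind the example (`t = i √3047`). -/
theorem key (a b A B t : ℂ) (ht : t ^ 2 = -3047) :
    (133 / 1963753800000) * (q0 a b t * q0 A B (-t))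
    + (133 / 981876900000) * (q1 a b t * q1 A B (-t))
    + (133 / 1963753800000) * (q2 a b t * q2 A B (-t))
    + (11 / 11680320000) * (q3 a b t * q3 A B (-t)) * (a * A + b * B) ^ 1
    + (11 / 3893440000) * (q4 a b t * q4 A B (-t)) * (a * A + b * B) ^ 1
    + (11 / 3893440000) * (q5 a b t * q5 A B (-t)) * (a * A + b * B) ^ 1
    + (11 / 11680320000) * (q6 a b t * q6 A B (-t)) * (a * A + b * B) ^ 1
    + (1174173 / 6725000) * (q7 a b t * q7 A B (-t)) * (a * A + b * B) ^ 2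
    + (1463 / 38220250000) * (q8 a b t * q8 A B (-t)) * (a * A + b * B) ^ 4
    + (1463 / 1528810000) * (q9 a b t * q9 A B (-t)) * (a * A + b * B) ^ 4
    + (1463 / 1528810000) * (q10 a b t * q10 A B (-t)) * (a * A + b * B) ^ 4
    + (1463 / 38220250000) * (q11 a b t * q11 A B (-t)) * (a * A + b * B) ^ 4
    = (a * A + b * B) ^ 22 := by
  simp only [q0, q1, q2, q3, q4, q5, q6, q7, q8, q9, q10, q11]
  linear_combination (-((133 / 1963753800000) * (((253) * a ^ 22 + (-57684) * a ^ 17 * b ^ 5 + (124982) * a ^ 12 * b ^ 10 + (57684) * a ^ 7 * b ^ 15 + (253) * a ^ 2 * b ^ 20) * ((253) * A ^ 22 + (-57684) * A ^ 17 * B ^ 5 + (124982) * A ^ 12 * B ^ 10 + (57684) * A ^ 7 * B ^ 15 + (253) * A ^ 2 * B ^ 20))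
    + (133 / 981876900000) * (((253) * a ^ 21 * b ^ 1 + (-57684) * a ^ 16 * b ^ 6 + (124982) * a ^ 11 * b ^ 11 + (57684) * a ^ 6 * b ^ 16 + (253) * a ^ 1 * b ^ 21) * ((253) * A ^ 21 * B ^ 1 + (-57684) * A ^ 16 * B ^ 6 + (124982) * A ^ 11 * B ^ 11 + (57684) * A ^ 6 * B ^ 16 + (253) * A ^ 1 * B ^ 21))
    + (133 / 1963753800000) * (((253) * a ^ 20 * b ^ 2 + (-57684) * a ^ 15 * b ^ 7 + (124982) * a ^ 10 * b ^ 12 + (57684) * a ^ 5 * b ^ 17 + (253) * b ^ 22) * ((253) * A ^ 20 * B ^ 2 + (-57684) * A ^ 15 * B ^ 7 + (124982) * A ^ 10 * B ^ 12 + (57684) * A ^ 5 * B ^ 17 + (253) * B ^ 22))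
    + (11 / 11680320000) * (((-27531) * a ^ 17 * b ^ 4 + (119301) * a ^ 12 * b ^ 9 + (82593) * a ^ 7 * b ^ 14 + (483) * a ^ 2 * b ^ 19) * ((-27531) * A ^ 17 * B ^ 4 + (119301) * A ^ 12 * B ^ 9 + (82593) * A ^ 7 * B ^ 14 + (483) * A ^ 2 * B ^ 19)) * (a * A + b * B) ^ 1
    + (11 / 3893440000) * (((-161) * a ^ 21 + (9177) * a ^ 16 * b ^ 5 + (39767) * a ^ 11 * b ^ 10 + (45885) * a ^ 6 * b ^ 15 + (322) * a ^ 1 * b ^ 20) * ((-161) * A ^ 21 + (9177) * A ^ 16 * B ^ 5 + (39767) * A ^ 11 * B ^ 10 + (45885) * A ^ 6 * B ^ 15 + (322) * A ^ 1 * B ^ 20)) * (a * A + b * B) ^ 1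
    + (11 / 3893440000) * (((-322) * a ^ 20 * b ^ 1 + (45885) * a ^ 15 * b ^ 6 + (-39767) * a ^ 10 * b ^ 11 + (9177) * a ^ 5 * b ^ 16 + (161) * b ^ 21) * ((-322) * A ^ 20 * B ^ 1 + (45885) * A ^ 15 * B ^ 6 + (-39767) * A ^ 10 * B ^ 11 + (9177) * A ^ 5 * B ^ 16 + (161) * B ^ 21)) * (a * A + b * B) ^ 1
    + (11 / 11680320000) * (((-483) * a ^ 19 * b ^ 2 + (82593) * a ^ 14 * b ^ 7 + (-119301) * a ^ 9 * b ^ 12 + (-27531) * a ^ 4 * b ^ 17) * ((-483) * A ^ 19 * B ^ 2 + (82593) * A ^ 14 * B ^ 7 + (-119301) * A ^ 9 * B ^ 12 + (-27531) * A ^ 4 * B ^ 17)) * (a * A + b * B) ^ 1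
    + (1463 / 38220250000) * (((255) * a ^ 17 * b ^ 1 + (2295) * a ^ 12 * b ^ 6 + (-5865) * a ^ 7 * b ^ 11 + (510) * a ^ 2 * b ^ 16) * ((255) * A ^ 17 * B ^ 1 + (2295) * A ^ 12 * B ^ 6 + (-5865) * A ^ 7 * B ^ 11 + (510) * A ^ 2 * B ^ 16)) * (a * A + b * B) ^ 4
    + (1463 / 1528810000) * (((255) * a ^ 15 * b ^ 3 + (2805) * a ^ 10 * b ^ 8 + (-255) * a ^ 5 * b ^ 13) * ((255) * A ^ 15 * B ^ 3 + (2805) * A ^ 10 * B ^ 8 + (-255) * A ^ 5 * B ^ 13)) * (a * A + b * B) ^ 4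
    + (1463 / 1528810000) * (((255) * a ^ 13 * b ^ 5 + (2805) * a ^ 8 * b ^ 10 + (-255) * a ^ 3 * b ^ 15) * ((255) * A ^ 13 * B ^ 5 + (2805) * A ^ 8 * B ^ 10 + (-255) * A ^ 3 * B ^ 15)) * (a * A + b * B) ^ 4
    + (1463 / 38220250000) * (((510) * a ^ 16 * b ^ 2 + (5865) * a ^ 11 * b ^ 7 + (2295) * a ^ 6 * b ^ 12 + (-255) * a ^ 1 * b ^ 17) * ((510) * A ^ 16 * B ^ 2 + (5865) * A ^ 11 * B ^ 7 + (2295) * A ^ 6 * B ^ 12 + (-255) * A ^ 1 * B ^ 17)) * (a * A + b * B) ^ 4)) * ht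

/-- The twelve forms, before normalisation. -/
noncomputable def P : Fin 12 → MvPolynomial (Fin 2) ℂ :=
  ![P0, P1, P2, P3, P4, P5, P6, P7, P8, P9, P10, P11]

/-- The squares of the normalising constants. -/
noncomputable def k : Fin 12 → ℝ := ![
  133 / 1963753800000,
  133 / 981876900000,
  133 / 1963753800000,
  11 / 11680320000,
  11 / 3893440000,
  11 / 3893440000,
  11 / 11680320000,
  1174173 / 6725000,
  1463 / 38220250000,
  1463 / 1528810000,
  1463 / 1528810000,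
  1463 / 38220250000]

theorem k_nonneg (j : Fin 12) : 0 ≤ k j := by
  fin_cases j <;> simp [k] <;> norm_num

/-- The map. -/
noncomputable def p (j : Fin 12) : MvPolynomial (Fin 2) ℂ := C ((Real.sqrt (k j) : ℝ) : ℂ) * P j

theorem norm_p (z : Fin 2 → ℂ) (j : Fin 12) :
    ((‖eval z (p j)‖ ^ 2 : ℝ) : ℂ) =
      (k j : ℂ) * (eval z (P j) * (starRingEnd ℂ) (eval z (P j))) := by
  rw [Complex.mul_conj, Complex.normSq_eq_norm_sq, p, map_mul, eval_C, norm_mul, mul_pow,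
    Complex.norm_real, Real.norm_eq_abs, sq_abs, Real.sq_sqrt (k_nonneg j), Complex.ofReal_mul]

theorem sum_twelve (f : Fin 12 → ℂ) : ∑ j, f j = f 0 + f 1 + f 2 + f 3 + f 4 + f 5 + f 6 + f 7 + f 8 + f 9 + f 10 + f 11 := by
  simp [Fin.sum_univ_succ, ← add_assoc]

theorem sum_p (z : Fin 2 → ℂ) (hz : ∑ i, ‖z i‖ ^ 2 = 1) : ∑ j, ‖eval z (p j)‖ ^ 2 = 1 := by
  have h1 : z 0 * (starRingEnd ℂ) (z 0) + z 1 * (starRingEnd ℂ) (z 1) = 1 := by
    rw [Complex.mul_conj, Complex.mul_conj, Complex.normSq_eq_norm_sq, Complex.normSq_eq_norm_sq,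
      ← Complex.ofReal_add]
    rw [Fin.sum_univ_two] at hz
    rw [hz, Complex.ofReal_one]
  have h2 := key (z 0) (z 1) ((starRingEnd ℂ) (z 0)) ((starRingEnd ℂ) (z 1)) th th_sq
  rw [h1] at h2
  simp only [one_pow, mul_one] at h2
  have h3 : ((∑ j, ‖eval z (p j)‖ ^ 2 : ℝ) : ℂ) = 1 := by
    rw [Complex.ofReal_sum, ← h2]
    simp only [norm_p]
    rw [sum_twelve]
    show (((133 / 1963753800000 : ℝ)) : ℂ) * (eval z P0 * (starRingEnd ℂ) (eval z P0))
      + (((133 / 981876900000 : ℝ)) : ℂ) * (eval z P1 * (starRingEnd ℂ) (eval z P1))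
      + (((133 / 1963753800000 : ℝ)) : ℂ) * (eval z P2 * (starRingEnd ℂ) (eval z P2))
      + (((11 / 11680320000 : ℝ)) : ℂ) * (eval z P3 * (starRingEnd ℂ) (eval z P3))
      + (((11 / 3893440000 : ℝ)) : ℂ) * (eval z P4 * (starRingEnd ℂ) (eval z P4))
      + (((11 / 3893440000 : ℝ)) : ℂ) * (eval z P5 * (starRingEnd ℂ) (eval z P5))
      + (((11 / 11680320000 : ℝ)) : ℂ) * (eval z P6 * (starRingEnd ℂ) (eval z P6))
      + (((1174173 / 6725000 : ℝ)) : ℂ) * (eval z P7 * (starRingEnd ℂ) (eval z P7))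
      + (((1463 / 38220250000 : ℝ)) : ℂ) * (eval z P8 * (starRingEnd ℂ) (eval z P8))
      + (((1463 / 1528810000 : ℝ)) : ℂ) * (eval z P9 * (starRingEnd ℂ) (eval z P9))
      + (((1463 / 1528810000 : ℝ)) : ℂ) * (eval z P10 * (starRingEnd ℂ) (eval z P10))
      + (((1463 / 38220250000 : ℝ)) : ℂ) * (eval z P11 * (starRingEnd ℂ) (eval z P11)) = _
    simp only [eval_P0, eval_P1, eval_P2, eval_P3, eval_P4, eval_P5, eval_P6, eval_P7, eval_P8,
      eval_P9, eval_P10, eval_P11, conj_q0, conj_q1, conj_q2, conj_q3, conj_q4, conj_q5, conj_q6,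
      conj_q7, conj_q8, conj_q9, conj_q10, conj_q11]
    push_cast
    ring
  exact_mod_cast h3

theorem p_zero (j : Fin 12) : eval (0 : Fin 2 → ℂ) (p j) = 0 := by
  have h : eval (0 : Fin 2 → ℂ) (P j) = 0 := by
    fin_cases j
    · show eval (0 : Fin 2 → ℂ) P0 = 0
      rw [eval_P0]; simp [q0]
    · show eval (0 : Fin 2 → ℂ) P1 = 0
      rw [eval_P1]; simp [q1]
    · show eval (0 : Fin 2 → ℂ) P2 = 0
      rw [eval_P2]; simp [q2]
    · show eval (0 : Fin 2 → ℂ) P3 = 0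
      rw [eval_P3]; simp [q3]
    · show eval (0 : Fin 2 → ℂ) P4 = 0
      rw [eval_P4]; simp [q4]
    · show eval (0 : Fin 2 → ℂ) P5 = 0
      rw [eval_P5]; simp [q5]
    · show eval (0 : Fin 2 → ℂ) P6 = 0
      rw [eval_P6]; simp [q6]
    · show eval (0 : Fin 2 → ℂ) P7 = 0
      rw [eval_P7]; simp [q7]
    · show eval (0 : Fin 2 → ℂ) P8 = 0
      rw [eval_P8]; simp [q8]
    · show eval (0 : Fin 2 → ℂ) P9 = 0
      rw [eval_P9]; simp [q9]
    · show eval (0 : Fin 2 → ℂ) P10 = 0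
      rw [eval_P10]; simp [q10]
    · show eval (0 : Fin 2 → ℂ) P11 = 0
      rw [eval_P11]; simp [q11]
  rw [p, map_mul, h, mul_zero]

theorem P0_homogeneous : P0.IsHomogeneous 22 := by
  have key2 : ∀ (c : ℂ) (m n : ℕ), m + n = 22 →
      (C c * X 0 ^ m * X 1 ^ n : MvPolynomial (Fin 2) ℂ).IsHomogeneous 22 := by
    intro c m n h
    have h1 := ((isHomogeneous_C (Fin 2) c).mul ((isHomogeneous_X ℂ (0 : Fin 2)).pow m)).mul
      ((isHomogeneous_X ℂ (1 : Fin 2)).pow n)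
    have h2 : 0 + 1 * m + 1 * n = 22 := by omega
    rwa [h2] at h1
  unfold P0
  refine IsHomogeneous.add (IsHomogeneous.add (IsHomogeneous.add (IsHomogeneous.add ?_ ?_) ?_) ?_) ?_
  · have := key2 (6187 + 253 * th) 22 0 rfl
    rwa [pow_zero, mul_one] at this
  · exact key2 _ _ _ rfl
  · exact key2 _ _ _ rfl
  · exact key2 _ _ _ rfl
  · exact key2 _ _ _ rfl

theorem p0_ne_zero : p 0 ≠ 0 := by
  intro h
  have h1 : eval (fun i : Fin 2 => if i = 0 then (1 : ℂ) else 0) (p 0) = 0 := by rw [h]; simp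
  have h2 : eval (fun i : Fin 2 => if i = 0 then (1 : ℂ) else 0) (P 0) = 6187 + 253 * th := by
    show eval _ P0 = _
    rw [eval_P0]
    simp [q0]
  rw [p, map_mul, h2, eval_C] at h1
  rcases mul_eq_zero.mp h1 with h3 | h3
  · have h4 : Real.sqrt (k 0) = 0 := by exact_mod_cast h3
    have h5 : k 0 = 0 := (Real.sqrt_eq_zero (k_nonneg 0)).mp h4
    have h6 : k 0 = 133 / 1963753800000 := rfl
    rw [h6] at h5
    norm_num at h5
  · have h4 := congrArg Complex.re h3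
    simp [th] at h4

theorem p0_degree : (p 0).totalDegree = 22 := by
  have h : (p 0).IsHomogeneous 22 := by
    have := (isHomogeneous_C (Fin 2) ((Real.sqrt (k 0) : ℝ) : ℂ)).mul P0_homogeneous
    rwa [zero_add] at this
  exact h.totalDegree p0_ne_zero

/-- The negation of the preceding statement: For every N, if p/q is a reduced rational map from C^2 to C^N with q nonzero on the closed unit ball, mapping the unit sphere into the unit sphere, and non-constant, then max(deg p, deg q) is at most 2N-3. -/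
theorem result :
    ¬ (∀ (N : ℕ) (p : Fin N → MvPolynomial (Fin 2) ℂ) (q : MvPolynomial (Fin 2) ℂ),
      (∀ r : MvPolynomial (Fin 2) ℂ, r ∣ q → (∀ j, r ∣ p j) → IsUnit r) →
      (∀ z : Fin 2 → ℂ, ∑ i, ‖z i‖ ^ 2 ≤ 1 → MvPolynomial.eval z q ≠ 0) →
      (∀ z : Fin 2 → ℂ, ∑ i, ‖z i‖ ^ 2 = 1 →
        ∑ j, ‖MvPolynomial.eval z (p j) / MvPolynomial.eval z q‖ ^ 2 = 1) →
      (∃ z w : Fin 2 → ℂ, ∑ i, ‖z i‖ ^ 2 ≤ 1 ∧ ∑ i, ‖w i‖ ^ 2 ≤ 1 ∧
        (fun j => MvPolynomial.eval z (p j) / MvPolynomial.eval z q) ≠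
          (fun j => MvPolynomial.eval w (p j) / MvPolynomial.eval w q)) →
      (((max (Finset.univ.sup (fun j => (p j).totalDegree)) q.totalDegree : ℕ) : ℤ)
        ≤ 2 * (N : ℤ) - 3)) := by
  intro H
  have h := H 12 p 1 (fun r hr _ => isUnit_of_dvd_one hr) (fun z _ => by simp)
    (fun z hz => by simpa using sum_p z hz) ?_
  · have h1 : 22 ≤ Finset.univ.sup (fun j => (p j).totalDegree) := by
      rw [← p0_degree]
      exact Finset.le_sup (f := fun j => (p j).totalDegree) (Finset.mem_univ (0 : Fin 12))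
    have h2 : 22 ≤ max (Finset.univ.sup (fun j => (p j).totalDegree))
        (1 : MvPolynomial (Fin 2) ℂ).totalDegree := le_trans h1 (le_max_left _ _)
    have h3 : ((22 : ℕ) : ℤ) ≤ ((max (Finset.univ.sup (fun j => (p j).totalDegree))
        (1 : MvPolynomial (Fin 2) ℂ).totalDegree : ℕ) : ℤ) := by exact_mod_cast h2
    have h4 := le_trans h3 h
    norm_num at h4
  · refine ⟨0, fun i : Fin 2 => if i = 0 then (1 : ℂ) else 0, ?_, ?_, ?_⟩
    · simp
    · simp [Fin.sum_univ_two]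
    · intro he
      have h5 := sum_p (fun i : Fin 2 => if i = 0 then (1 : ℂ) else 0) (by simp [Fin.sum_univ_two])
      have h6 : ∀ j, eval (fun i : Fin 2 => if i = 0 then (1 : ℂ) else 0) (p j) = 0 := by
        intro j
        have h7 := congrFun he j
        simp only [map_one, div_one] at h7
        rw [← h7, p_zero]
      simp [h6] at h5

end Pool.Agent.S06478
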