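import Pool.Statements.S06503
import Pool.Agent.Lib.MP_e59edf_an.Main

set_option autoImplicit false
open Pool Pool.MP_e59edf_an

namespace Pool.Agent.S06503

/-- Some one-sided subshift over a finite alphabet has an infinite-order automorphism g lying in a finite generating set S of automorphisms such that the word length of gⁿ with respect to S is o(n). -/
theorem result :
    ∃ (k : ℕ) (X : Set (ℕ → Fin k)), IsClosed X ∧
      (∀ x ∈ X, (fun n => x (n + 1)) ∈ X) ∧
      ∃ (S : Finset (Equiv.Perm X)) (g : Equiv.Perm X), g ∈ S ∧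
        (∀ h ∈ S, Continuous (h : X → X) ∧
          ∀ x y : X, ((y : ℕ → Fin k) = fun n => (x : ℕ → Fin k) (n + 1)) →
            ((h y : X) : ℕ → Fin k) = fun n => ((h x : X) : ℕ → Fin k) (n + 1)) ∧
        ¬ IsOfFinOrder g ∧
        ∀ ε : ℝ, 0 < ε → ∃ N : ℕ, ∀ n : ℕ, N ≤ n →
          ∃ l : List (Equiv.Perm X), (l.length : ℝ) ≤ ε * n ∧
            (∀ h ∈ l, h ∈ S ∨ h⁻¹ ∈ S) ∧ l.prod = g ^ n := by
  exact E59.main

end Pool.Agent.S06503
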