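import Pool.Statements.S06979
import Pool.Agent.Lib.MP_05df08_co.C2

set_option autoImplicit false
open Pool Pool.MP_05df08_co

namespace Pool.Agent.S06979

/-- For every constant C and every N there is a planar set of n ≥ N points, no three collinear, whose number of (ordered) unit-distance pairs exceeds C·n·log n; i.e. the max unit distances over n log n has infinite limsup. -/
theorem result :
    ∀ C : ℝ, ∀ N : ℕ, ∃ S : Finset (EuclideanSpace ℝ (Fin 2)),
      N ≤ S.card ∧
      (∀ x ∈ S, ∀ y ∈ S, ∀ z ∈ S, x ≠ y → y ≠ z → x ≠ z →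
        ¬ Collinear ℝ ({x, y, z} : Set (EuclideanSpace ℝ (Fin 2)))) ∧
      C * (S.card : ℝ) * Real.log (S.card : ℝ) <
        (((S ×ˢ S).filter (fun p => dist p.1 p.2 = 1)).card : ℝ) := by
  intro C N
  exact Pool.Agent.UD.main_plane C N

end Pool.Agent.S06979
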