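import Pool.Statements.S07249
import Pool.Agent.Lib.MP_11f292_co.Main

set_option autoImplicit false
open Pool Pool.MP_11f292_co

namespace Pool.Agent.S07249

/-- There are c<5 and r0>0 such that for every r in (0,r0), every finite packing of radius-r disks in the hyperbolic plane has contact graph with average degree at most c. -/
theorem result :
    ∃ c : ℝ, c < 5 ∧ ∃ r₀ : ℝ, 0 < r₀ ∧
      ∀ r : ℝ, 0 < r → r < r₀ →
        ∀ S : Finset UpperHalfPlane,
          (∀ x ∈ S, ∀ y ∈ S, x ≠ y → 2 * r ≤ dist x y) →
            (∑ x ∈ S, ((S.filter (fun y => dist x y = 2 * r)).card : ℝ))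
              ≤ c * (S.card : ℝ) := by
  convert Pool.Agent.HypPack.main_thm

end Pool.Agent.S07249
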