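import Pool.Statements.S07461
import Pool.Agent.Lib.MP_1c0a46_co.Main
-- import your own Pool.Agent.* helpers here

set_option autoImplicit false
open Pool Pool.MP_1c0a46_co

namespace Pool.Agent.S07461

/-- For every constant C, for all large n, any colouring of the edges of K_n with k colours where every 4 vertices see at least 3 distinct edge colours must have k at least C times log n. -/
theorem result :
    ∀ C : ℝ, ∃ N : ℕ, ∀ n : ℕ, N ≤ n → ∀ k : ℕ, ∀ c : Sym2 (Fin n) → Fin k,
      (∀ S : Finset (Fin n), S.card = 4 →
        3 ≤ (((S ×ˢ S).filter (fun p : Fin n × Fin n => p.1 ≠ p.2)).image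
              (fun p : Fin n × Fin n => c s(p.1, p.2))).card) →
      C * Real.log (n : ℝ) ≤ (k : ℝ) := by
  exact Pool.Agent.EG.main

end Pool.Agent.S07461
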