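import Pool.Statements.S07829
import Pool.Agent.Lib.MP_2b959d_co.Final

set_option autoImplicit false
open Matrix
open Pool Pool.MP_2b959d_co

namespace Pool.Agent.S07829

/-- For every n ≥ 1 there is an integer k ≥ 2 such that every n×n doubly stochastic real matrix A satisfies per(A^k) ≤ per(A). -/
theorem result :
    ∀ n : ℕ, 1 ≤ n → ∃ k : ℕ, 2 ≤ k ∧
      ∀ A : Matrix (Fin n) (Fin n) ℝ, A ∈ doublyStochastic ℝ (Fin n) →
        (A ^ k).permanent ≤ A.permanent := by
  intro n hn
  have : NeZero n := ⟨by omega⟩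
  obtain ⟨K, hK⟩ := Pool.Agent.Lib.MP_2b959d_co.foregger_strong (n := n)
  exact ⟨max K 2, le_max_right _ _, fun A hA => hK _ (le_max_left _ _) A hA⟩

end Pool.Agent.S07829
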