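-- Proof of the frozen statement S07972 (the negation): an explicit counterexample with 70 vertices.
import Pool.Statements.S07972
import Pool.Agent.Lib.MP_321260_co.Graph70

set_option autoImplicit false
open Pool Pool.MP_321260_co

namespace Pool.Agent.S07972

open Pool.Agent.Lib.MP_321260_co

/-- The negation of the preceding statement: Every finite Hamiltonian simple graph with all degrees at least 3 has an edge uv such that both the graph with uv deleted and the graph with uv contracted (v merged into u) are Hamiltonian. -/
theorem result :
    ¬ (∀ (V : Type) [Fintype V] [DecidableEq V] (G : SimpleGraph V) [DecidableRel G.Adj],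
      G.IsHamiltonian → (∀ x : V, 3 ≤ G.degree x) →
      ∃ u v : V, G.Adj u v ∧ (G.deleteEdges {s(u, v)}).IsHamiltonian ∧
        (SimpleGraph.fromRel (fun a b : {x : V // x ≠ v} =>
            G.Adj a.1 b.1 ∨ (a.1 = u ∧ G.Adj v b.1))).IsHamiltonian) := by
  intro hall
  obtain ⟨u, v, huv, hdel, hcon⟩ := hall (Fin 70) G70 ham70 degree_ge
  -- the Hamiltonian cycle of the graph with the edge deleted is the designated one
  obtain ⟨R, hR, hadj⟩ := exists_cycRel (G70.deleteEdges {s(u, v)})
    (by rw [Fintype.card_fin]; decide) hdel
  have hadj' : ∀ a b, R a b → G70.Adj a b := fun a b h => by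
    have := hadj a b h
    rw [SimpleGraph.deleteEdges_adj] at this
    exact this.1
  have hRuv : ¬ R u v := fun h => by
    have := hadj u v h
    rw [SimpleGraph.deleteEdges_adj] at this
    exact this.2 rfl
  have h1 := unique_cycle hR hadj' (fun _ _ _ => Or.inl trivial) u v
  -- the cycle obtained from the contraction is the designated one, too
  have hcard : Fintype.card {x : Fin 70 // x ≠ v} ≠ 1 := by
    rw [Fintype.card_subtype_compl, Fintype.card_fin, Fintype.card_subtype_eq]
    decide
  obtain ⟨R', vis, hR', hadj'', hone, hlast⟩ := exists_cycRel_contract G70 u v huv hcard hcon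
  have h2 := unique_cycle hR' hadj'' hone u v
  rcases hlast with ⟨a, ha⟩ | h
  · exact ha (vis_all hR' hadj'' hone a)
  · exact hRuv (h1.2 (h2.1 h))

end Pool.Agent.S07972
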