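import Pool.Statements.S08064

set_option autoImplicit false
open Pool Pool.MP_3562eb_co

namespace Pool.Agent.S08064

/-- The wall pattern on the integers `0, …, p-1`. -/
def Q (p v : ℕ) : Prop :=
  v < 64 ∨ 64 * (p / 64 - 1) ≤ v ∨ v % 64 ≤ 1 ∨ (v / 64) % 64 ≤ 1

instance (p v : ℕ) : Decidable (Q p v) := by unfold Q; infer_instance

/-- successor modulo `p` -/
def w1 (p v : ℕ) : ℕ := if v + 1 < p then v + 1 else v + 1 - p
/-- predecessor modulo `p` -/
def w2 (p v : ℕ) : ℕ := if 1 ≤ v then v - 1 else v + p - 1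
/-- shift by `64` modulo `p` -/
def w3 (p v : ℕ) : ℕ := if v + 64 < p then v + 64 else v + 64 - p
/-- shift by `-64` modulo `p` -/
def w4 (p v : ℕ) : ℕ := if 64 ≤ v then v - 64 else v + p - 64

theorem core12 (p v : ℕ) (hp : 6400 < p) (hv : v < p) (h : Q p v) :
    Q p (w1 p v) ∨ Q p (w2 p v) := by
  unfold Q w1 w2 at *
  split_ifs <;> omega

theorem core13 (p v : ℕ) (hp : 6400 < p) (hv : v < p) (h : Q p v) :
    Q p (w1 p v) ∨ Q p (w3 p v) := by
  unfold Q w1 w3 at *
  split_ifs <;> omega

theorem core14 (p v : ℕ) (hp : 6400 < p) (hv : v < p) (h : Q p v) :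
    Q p (w1 p v) ∨ Q p (w4 p v) := by
  unfold Q w1 w4 at *
  split_ifs <;> omega

theorem core23 (p v : ℕ) (hp : 6400 < p) (hv : v < p) (h : Q p v) :
    Q p (w2 p v) ∨ Q p (w3 p v) := by
  unfold Q w2 w3 at *
  split_ifs <;> omega

theorem core24 (p v : ℕ) (_hp : 6400 < p) (hv : v < p) (h : Q p v) :
    Q p (w2 p v) ∨ Q p (w4 p v) := by
  unfold Q w2 w4 at *
  split_ifs <;> omega

theorem core34 (p v : ℕ) (hp : 6400 < p) (hv : v < p) (h : Q p v) :
    Q p (w3 p v) ∨ Q p (w4 p v) := by
  unfold Q w3 w4 at *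
  split_ifs <;> omega

section zmod
variable (p : ℕ) [NeZero p]

omit [NeZero p] in
theorem val_eq_of_cast (x : ZMod p) (w : ℕ) (hw : w < p) (h : ((w : ℕ) : ZMod p) = x) :
    x.val = w := by
  rw [← h, ZMod.val_natCast, Nat.mod_eq_of_lt hw]

theorem val_w1 (hp : 6400 < p) (x : ZMod p) : (x + 1).val = w1 p x.val := by
  have hx : x.val < p := ZMod.val_lt x
  have hc : ((x.val : ℕ) : ZMod p) = x := ZMod.natCast_zmod_val x
  apply val_eq_of_cast
  · unfold w1; split_ifs <;> omega
  · unfold w1
    split_ifs with h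
    · push_cast; rw [hc]
    · have h2 : x.val + 1 - p + p = x.val + 1 := by omega
      have h3 : ((x.val + 1 - p + p : ℕ) : ZMod p) = x + 1 := by rw [h2]; push_cast; rw [hc]
      rw [← h3]; push_cast; simp

theorem val_w2 (_hp : 6400 < p) (x : ZMod p) : (x - 1).val = w2 p x.val := by
  have hx : x.val < p := ZMod.val_lt x
  have hc : ((x.val : ℕ) : ZMod p) = x := ZMod.natCast_zmod_val x
  apply val_eq_of_cast
  · unfold w2; split_ifs <;> omega
  · unfold w2
    split_ifs with h
    · push_cast [Nat.cast_sub h]; rw [hc]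
    · have h1 : 1 ≤ x.val + p := by omega
      push_cast [Nat.cast_sub h1]; rw [hc]; simp

theorem val_w3 (hp : 6400 < p) (x : ZMod p) : (x + 64).val = w3 p x.val := by
  have hx : x.val < p := ZMod.val_lt x
  have hc : ((x.val : ℕ) : ZMod p) = x := ZMod.natCast_zmod_val x
  apply val_eq_of_cast
  · unfold w3; split_ifs <;> omega
  · unfold w3
    split_ifs with h
    · push_cast; rw [hc]
    · have h2 : x.val + 64 - p + p = x.val + 64 := by omega
      have h3 : ((x.val + 64 - p + p : ℕ) : ZMod p) = x + 64 := by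
        rw [h2]; push_cast; rw [hc]
      rw [← h3]; push_cast; simp

theorem val_w4 (hp : 6400 < p) (x : ZMod p) : (x - 64).val = w4 p x.val := by
  have hx : x.val < p := ZMod.val_lt x
  have hc : ((x.val : ℕ) : ZMod p) = x := ZMod.natCast_zmod_val x
  apply val_eq_of_cast
  · unfold w4; split_ifs <;> omega
  · unfold w4
    split_ifs with h
    · push_cast [Nat.cast_sub h]; rw [hc]
    · have h1 : 64 ≤ x.val + p := by omega
      push_cast [Nat.cast_sub h1]; rw [hc]; simp

/-- The set `A`: the wall pattern together with its reflection. -/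
def setA : Finset (ZMod p) :=
  Finset.univ.filter (fun x => Q p x.val ∨ Q p (-x).val)

/-- The four allowed sums. -/
def setE : Finset (ZMod p) := {1, -1, 64, -64}

theorem mem_setA (x : ZMod p) : x ∈ setA p ↔ Q p x.val ∨ Q p (-x).val := by
  simp [setA]

theorem neg_mem {x : ZMod p} (h : x ∈ setA p) : -x ∈ setA p := by
  rw [mem_setA] at *
  rw [neg_neg]
  exact h.symm

theorem six (hp : 6400 < p) (x : ZMod p) (h : Q p x.val) :
    (x + 1 ∈ setA p ∨ x - 1 ∈ setA p) ∧ (x + 1 ∈ setA p ∨ x + 64 ∈ setA p) ∧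
    (x + 1 ∈ setA p ∨ x - 64 ∈ setA p) ∧ (x - 1 ∈ setA p ∨ x + 64 ∈ setA p) ∧
    (x - 1 ∈ setA p ∨ x - 64 ∈ setA p) ∧ (x + 64 ∈ setA p ∨ x - 64 ∈ setA p) := by
  have hx : x.val < p := ZMod.val_lt x
  have m1 : Q p (w1 p x.val) → x + 1 ∈ setA p := fun h => by
    rw [mem_setA, val_w1 p hp]; exact Or.inl h
  have m2 : Q p (w2 p x.val) → x - 1 ∈ setA p := fun h => by
    rw [mem_setA, val_w2 p hp]; exact Or.inl h
  have m3 : Q p (w3 p x.val) → x + 64 ∈ setA p := fun h => by
    rw [mem_setA, val_w3 p hp]; exact Or.inl h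
  have m4 : Q p (w4 p x.val) → x - 64 ∈ setA p := fun h => by
    rw [mem_setA, val_w4 p hp]; exact Or.inl h
  exact ⟨(core12 p _ hp hx h).imp m1 m2, (core13 p _ hp hx h).imp m1 m3,
    (core14 p _ hp hx h).imp m1 m4, (core23 p _ hp hx h).imp m2 m3,
    (core24 p _ hp hx h).imp m2 m4, (core34 p _ hp hx h).imp m3 m4⟩

/-- For each `x ∈ A`, any two of the four numbers `e - x` contain one from `A`. -/
theorem pairwise_mem (hp : 6400 < p) (x : ZMod p) (hx : x ∈ setA p)
    (e e' : ZMod p) (he : e ∈ setE p) (he' : e' ∈ setE p) (hne : e ≠ e') :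
    e - x ∈ setA p ∨ e' - x ∈ setA p := by
  have key : (x + 1 ∈ setA p ∨ x - 1 ∈ setA p) ∧ (x + 1 ∈ setA p ∨ x + 64 ∈ setA p) ∧
    (x + 1 ∈ setA p ∨ x - 64 ∈ setA p) ∧ (x - 1 ∈ setA p ∨ x + 64 ∈ setA p) ∧
    (x - 1 ∈ setA p ∨ x - 64 ∈ setA p) ∧ (x + 64 ∈ setA p ∨ x - 64 ∈ setA p) := by
    rw [mem_setA] at hx
    rcases hx with h | h
    · exact six p hp x h
    · obtain ⟨a1, a2, a3, a4, a5, a6⟩ := six p hp (-x) h
      have n1 : -x + 1 ∈ setA p → x - 1 ∈ setA p := fun h => by
        have := neg_mem p h; rwa [show -(-x + 1) = x - 1 by ring] at this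
      have n2 : -x - 1 ∈ setA p → x + 1 ∈ setA p := fun h => by
        have := neg_mem p h; rwa [show -(-x - 1) = x + 1 by ring] at this
      have n3 : -x + 64 ∈ setA p → x - 64 ∈ setA p := fun h => by
        have := neg_mem p h; rwa [show -(-x + 64) = x - 64 by ring] at this
      have n4 : -x - 64 ∈ setA p → x + 64 ∈ setA p := fun h => by
        have := neg_mem p h; rwa [show -(-x - 64) = x + 64 by ring] at this
      exact ⟨(a1.imp n1 n2).symm, (a5.imp n2 n4), (a4.imp n2 n3),
        (a3.imp n1 n4), (a2.imp n1 n3), (a6.imp n3 n4).symm⟩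
  obtain ⟨k12, k13, k14, k23, k24, k34⟩ := key
  have g1 : x - 1 ∈ setA p → (1 : ZMod p) - x ∈ setA p := fun h => by
    have := neg_mem p h; rwa [show -(x - 1) = 1 - x by ring] at this
  have g2 : x + 1 ∈ setA p → (-1 : ZMod p) - x ∈ setA p := fun h => by
    have := neg_mem p h; rwa [show -(x + 1) = -1 - x by ring] at this
  have g3 : x - 64 ∈ setA p → (64 : ZMod p) - x ∈ setA p := fun h => by
    have := neg_mem p h; rwa [show -(x - 64) = 64 - x by ring] at this
  have g4 : x + 64 ∈ setA p → (-64 : ZMod p) - x ∈ setA p := fun h => by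
    have := neg_mem p h; rwa [show -(x + 64) = -64 - x by ring] at this
  simp only [setE, Finset.mem_insert, Finset.mem_singleton] at he he'
  rcases he with rfl | rfl | rfl | rfl <;> rcases he' with rfl | rfl | rfl | rfl
  · exact absurd rfl hne
  · exact k12.symm.imp g1 g2
  · exact k24.imp g1 g3
  · exact k23.imp g1 g4
  · exact k12.imp g2 g1
  · exact absurd rfl hne
  · exact k14.imp g2 g3
  · exact k13.imp g2 g4
  · exact k24.symm.imp g3 g1
  · exact k14.symm.imp g3 g2
  · exact absurd rfl hne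
  · exact k34.symm.imp g3 g4
  · exact k23.symm.imp g4 g1
  · exact k13.symm.imp g4 g2
  · exact k34.imp g4 g3
  · exact absurd rfl hne

omit [NeZero p] in
theorem card_setE_le : (setE p).card ≤ 4 := by
  unfold setE
  exact Finset.card_le_four

omit [NeZero p] in
theorem cast_ne (_hp : 6400 < p) (a b : ℕ) (ha : a < p) (hb : b < p) (hab : a ≠ b) :
    ((a : ℕ) : ZMod p) ≠ ((b : ℕ) : ZMod p) := by
  intro h
  apply hab
  have := congrArg ZMod.val h
  rwa [ZMod.val_natCast, ZMod.val_natCast, Nat.mod_eq_of_lt ha, Nat.mod_eq_of_lt hb] at this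

theorem card_setE (hp : 6400 < p) : (setE p).card = 4 := by
  have e1 : (1 : ZMod p) = ((1 : ℕ) : ZMod p) := by push_cast; rfl
  have e2 : (-1 : ZMod p) = ((p - 1 : ℕ) : ZMod p) := by
    rw [Nat.cast_sub (by omega)]; simp
  have e3 : (64 : ZMod p) = ((64 : ℕ) : ZMod p) := by push_cast; rfl
  have e4 : (-64 : ZMod p) = ((p - 64 : ℕ) : ZMod p) := by
    rw [Nat.cast_sub (by omega)]; simp
  have h12 : (1 : ZMod p) ≠ -1 := by
    rw [e2, e1]; exact cast_ne p hp _ _ (by omega) (by omega) (by omega)
  have h13 : (1 : ZMod p) ≠ 64 := by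
    rw [e3, e1]; exact cast_ne p hp _ _ (by omega) (by omega) (by omega)
  have h14 : (1 : ZMod p) ≠ -64 := by
    rw [e4, e1]; exact cast_ne p hp _ _ (by omega) (by omega) (by omega)
  have h23 : (-1 : ZMod p) ≠ 64 := by
    rw [e3, e2]; exact cast_ne p hp _ _ (by omega) (by omega) (by omega)
  have h24 : (-1 : ZMod p) ≠ -64 := by
    rw [e4, e2]; exact cast_ne p hp _ _ (by omega) (by omega) (by omega)
  have h34 : (64 : ZMod p) ≠ -64 := by
    rw [e4, e3]; exact cast_ne p hp _ _ (by omega) (by omega) (by omega)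
  unfold setE
  rw [Finset.card_insert_of_notMem, Finset.card_insert_of_notMem,
    Finset.card_insert_of_notMem, Finset.card_singleton]
  · simpa using h34
  · simp only [Finset.mem_insert, Finset.mem_singleton, not_or]; exact ⟨h23, h24⟩
  · simp only [Finset.mem_insert, Finset.mem_singleton, not_or]; exact ⟨h12, h13, h14⟩

/-- Each `x ∈ A` has at least three partners `b ∈ A` with `x + b ∈ E`. -/
theorem three_le (hp : 6400 < p) (x : ZMod p) (hx : x ∈ setA p) :
    3 ≤ ((setA p).filter (fun b => x + b ∈ setE p)).card := by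
  classical
  have h1 : ((setE p).filter (fun e => ¬ (e - x ∈ setA p))).card ≤ 1 := by
    rw [Finset.card_le_one]
    intro a ha b hb
    rw [Finset.mem_filter] at ha hb
    by_contra hne
    rcases pairwise_mem p hp x hx a b ha.1 hb.1 hne with h | h
    · exact ha.2 h
    · exact hb.2 h
  have h2 := Finset.card_filter_add_card_filter_not (s := setE p) (fun e => e - x ∈ setA p)
  rw [card_setE p hp] at h2
  have h3 : 3 ≤ ((setE p).filter (fun e => e - x ∈ setA p)).card := by omega
  refine h3.trans ?_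
  apply Finset.card_le_card_of_injOn (fun e => e - x)
  · intro e he
    simp only [Finset.coe_filter, Set.mem_ofPred_eq] at he ⊢
    refine ⟨he.2, ?_⟩
    rw [add_sub_cancel]
    exact he.1
  · intro a _ b _ h
    simpa using h

theorem card_not_le (hp : 6400 < p) (x : ZMod p) (hx : x ∈ setA p) :
    ((setA p).filter (fun b => ¬ (x + b ∈ setE p))).card ≤ (setA p).card - 3 := by
  have h2 := Finset.card_filter_add_card_filter_not (s := setA p) (fun b => x + b ∈ setE p)
  have h3 := three_le p hp x hx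
  omega

/-- the wall pattern as a set of integers -/
def setV : Finset ℕ := (Finset.range p).filter (fun v => Q p v)

theorem card_setV_le (hp : 6400 < p) : (setV p).card ≤ p / 16 + 400 := by
  have hsub : setV p ⊆ Finset.range 64 ∪ (Finset.Ico (64 * (p / 64 - 1)) p) ∪
      ((Finset.range p).filter (fun v => v % 64 ≤ 1)) ∪
      ((Finset.range p).filter (fun v => (v / 64) % 64 ≤ 1)) := by
    intro v hv
    rw [setV, Finset.mem_filter, Finset.mem_range] at hv
    obtain ⟨hv1, hv2⟩ := hv
    simp only [Finset.mem_union, Finset.mem_range, Finset.mem_Ico, Finset.mem_filter]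
    rcases hv2 with h | h | h | h
    · exact Or.inl (Or.inl (Or.inl h))
    · exact Or.inl (Or.inl (Or.inr ⟨h, hv1⟩))
    · exact Or.inl (Or.inr ⟨hv1, h⟩)
    · exact Or.inr ⟨hv1, h⟩
  have h3 : ((Finset.range p).filter (fun v => v % 64 ≤ 1)).card ≤ (p / 64 + 1) * 2 := by
    have : ((Finset.range p).filter (fun v => v % 64 ≤ 1)).card ≤
        ((Finset.range (p / 64 + 1)) ×ˢ (Finset.range 2)).card := by
      apply Finset.card_le_card_of_injOn (fun v => (v / 64, v % 64))
      · intro v hv
        simp only [Finset.coe_filter, Finset.mem_range, Set.mem_ofPred_eq] at hv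
        simp only [Finset.coe_product, Finset.coe_range, Set.mem_prod, Set.mem_Iio]
        omega
      · intro a _ b _ h
        simp only [Prod.mk.injEq] at h
        omega
    simpa using this
  have h4 : ((Finset.range p).filter (fun v => (v / 64) % 64 ≤ 1)).card ≤
      (p / 4096 + 1) * (2 * 64) := by
    have : ((Finset.range p).filter (fun v => (v / 64) % 64 ≤ 1)).card ≤
        ((Finset.range (p / 4096 + 1)) ×ˢ ((Finset.range 2) ×ˢ (Finset.range 64))).card := by
      apply Finset.card_le_card_of_injOn (fun v => (v / 4096, (v / 64) % 64, v % 64))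
      · intro v hv
        simp only [Finset.coe_filter, Finset.mem_range, Set.mem_ofPred_eq] at hv
        simp only [Finset.coe_product, Finset.coe_range, Set.mem_prod, Set.mem_Iio]
        omega
      · intro a _ b _ h
        simp only [Prod.mk.injEq] at h
        omega
    simpa using this
  have h1 := Finset.card_le_card hsub
  have h5 : (Finset.range 64 ∪ (Finset.Ico (64 * (p / 64 - 1)) p) ∪
      ((Finset.range p).filter (fun v => v % 64 ≤ 1)) ∪
      ((Finset.range p).filter (fun v => (v / 64) % 64 ≤ 1))).card ≤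
      64 + (p - 64 * (p / 64 - 1)) + (p / 64 + 1) * 2 + (p / 4096 + 1) * (2 * 64) := by
    refine (Finset.card_union_le _ _).trans ?_
    refine Nat.add_le_add ?_ h4
    refine (Finset.card_union_le _ _).trans ?_
    refine Nat.add_le_add ?_ h3
    refine (Finset.card_union_le _ _).trans ?_
    simp
  omega

theorem card_setA_le (hp : 6400 < p) : (setA p).card ≤ p / 8 + 801 := by
  classical
  have hV := card_setV_le p hp
  have hsub : setA p ⊆ (setV p).image (fun v : ℕ => (v : ZMod p)) ∪
      (setV p).image (fun v : ℕ => -(v : ZMod p)) := by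
    intro x hx
    rw [mem_setA] at hx
    rw [Finset.mem_union, Finset.mem_image, Finset.mem_image]
    rcases hx with h | h
    · left
      refine ⟨x.val, ?_, ZMod.natCast_zmod_val x⟩
      simp only [setV, Finset.mem_filter, Finset.mem_range]
      exact ⟨ZMod.val_lt x, h⟩
    · right
      refine ⟨(-x).val, ?_, ?_⟩
      · simp only [setV, Finset.mem_filter, Finset.mem_range]
        exact ⟨ZMod.val_lt _, h⟩
      · rw [ZMod.natCast_zmod_val, neg_neg]
  have h1 := Finset.card_le_card hsub
  have h2 := Finset.card_union_le ((setV p).image (fun v : ℕ => (v : ZMod p)))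
    ((setV p).image (fun v : ℕ => -(v : ZMod p)))
  have h3 : ((setV p).image (fun v : ℕ => (v : ZMod p))).card ≤ (setV p).card :=
    Finset.card_image_le
  have h4 : ((setV p).image (fun v : ℕ => -(v : ZMod p))).card ≤ (setV p).card :=
    Finset.card_image_le
  omega

theorem le_card_setA (hp : 6400 < p) (n₀ : ℕ) (hn : 64 * n₀ < p) : n₀ ≤ (setA p).card := by
  have : (Finset.range n₀).card ≤ (setA p).card := by
    apply Finset.card_le_card_of_injOn (fun k => (((64 * k : ℕ)) : ZMod p))
    · intro k hk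
      simp only [Finset.coe_range, Set.mem_Iio] at hk
      show (((64 * k : ℕ)) : ZMod p) ∈ setA p
      rw [mem_setA]
      left
      rw [ZMod.val_natCast, Nat.mod_eq_of_lt (by omega)]
      unfold Q
      omega
    · intro a ha b hb h
      simp only [Finset.coe_range, Set.mem_Iio] at ha hb
      have h' : (((64 * a : ℕ)) : ZMod p) = (((64 * b : ℕ)) : ZMod p) := h
      by_contra hne
      exact cast_ne p hp _ _ (by omega) (by omega) (by omega) h'
  simpa using this

end zmod

/-- The negation of the preceding statement: For each β>0 there are c,n0 so that for any prime p, any A in Z_p with n0 ≤ ∣A∣ = n < (1−β)p/2, and any forbidden set F ⊆ A×A of max degree ≤ d, some B ⊆ A with ∣B∣ ≤ c has at least 2n−2d−1 sums a+b, a∈A, b∈B, (a,b)∉F. -/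
theorem result :
    ¬ (∀ β : ℝ, 0 < β → ∃ c n₀ : ℕ, ∀ p : ℕ, p.Prime →
      ∀ (A : Finset (ZMod p)) (F : Finset (ZMod p × ZMod p)) (d : ℕ),
        n₀ ≤ A.card →
        (A.card : ℝ) < (1 - β) * (p : ℝ) / 2 →
        F ⊆ A ×ˢ A →
        (∀ x : ZMod p, (F.filter (fun q => q.1 = x)).card ≤ d) →
        (∀ x : ZMod p, (F.filter (fun q => q.2 = x)).card ≤ d) →
        ∃ B : Finset (ZMod p), B ⊆ A ∧ B.card ≤ c ∧
          (2 * (A.card : ℤ) - 2 * (d : ℤ) - 1) ≤
            ((((A ×ˢ B) \ F).image (fun q => q.1 + q.2)).card : ℤ)) := by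
  intro H
  obtain ⟨c, n₀, H⟩ := H (1 / 2) (by norm_num)
  obtain ⟨p, hpn, hpp⟩ := Nat.exists_infinite_primes (64 * n₀ + 10000)
  have : NeZero p := ⟨hpp.ne_zero⟩
  have hp : 6400 < p := by omega
  classical
  set A := setA p with hA
  set F := (A ×ˢ A).filter (fun q => ¬ (q.1 + q.2 ∈ setE p)) with hF
  have hcardle := card_setA_le p hp
  have h3 : 3 ≤ A.card := le_card_setA p hp 3 (by omega)
  have hdens : (A.card : ℝ) < (1 - 1 / 2) * (p : ℝ) / 2 := by
    have h1 : 4 * A.card < p := by
      rw [hA]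
      omega
    have h2 : (4 : ℝ) * (A.card : ℝ) < (p : ℝ) := by exact_mod_cast h1
    linarith
  have hrow1 : ∀ x : ZMod p, (F.filter (fun q => q.1 = x)).card ≤ A.card - 3 := by
    intro x
    by_cases hx : x ∈ A
    · refine le_trans ?_ (card_not_le p hp x hx)
      apply Finset.card_le_card_of_injOn (fun q => q.2)
      · intro q hq
        simp only [hF, Finset.coe_filter, Finset.mem_filter, Finset.mem_product,
          Set.mem_ofPred_eq] at hq ⊢
        obtain ⟨⟨⟨h1, h2⟩, h3⟩, h4⟩ := hq
        exact ⟨h2, by rw [← h4]; exact h3⟩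
      · intro a ha b hb h
        simp only [Finset.coe_filter, Set.mem_ofPred_eq] at ha hb
        exact Prod.ext (ha.2.trans hb.2.symm) h
    · have : F.filter (fun q => q.1 = x) = ∅ := by
        apply Finset.filter_eq_empty_iff.mpr
        intro q hq hqx
        simp only [hF, Finset.mem_filter, Finset.mem_product] at hq
        exact hx (hqx ▸ hq.1.1)
      rw [this]
      simp
  have hrow2 : ∀ x : ZMod p, (F.filter (fun q => q.2 = x)).card ≤ A.card - 3 := by
    intro x
    by_cases hx : x ∈ A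
    · refine le_trans ?_ (card_not_le p hp x hx)
      apply Finset.card_le_card_of_injOn (fun q => q.1)
      · intro q hq
        simp only [hF, Finset.coe_filter, Finset.mem_filter, Finset.mem_product,
          Set.mem_ofPred_eq] at hq ⊢
        obtain ⟨⟨⟨h1, h2⟩, h3⟩, h4⟩ := hq
        exact ⟨h1, by rw [← h4, add_comm]; exact h3⟩
      · intro a ha b hb h
        simp only [Finset.coe_filter, Set.mem_ofPred_eq] at ha hb
        exact Prod.ext h (ha.2.trans hb.2.symm)
    · have : F.filter (fun q => q.2 = x) = ∅ := by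
        apply Finset.filter_eq_empty_iff.mpr
        intro q hq hqx
        simp only [hF, Finset.mem_filter, Finset.mem_product] at hq
        exact hx (hqx ▸ hq.1.2)
      rw [this]
      simp
  obtain ⟨B, hBA, -, hB⟩ := H p hpp A F (A.card - 3)
    (le_card_setA p hp n₀ (by omega)) hdens (Finset.filter_subset _ _) hrow1 hrow2
  have himg : ((A ×ˢ B) \ F).image (fun q => q.1 + q.2) ⊆ setE p := by
    intro s hs
    rw [Finset.mem_image] at hs
    obtain ⟨q, hq, rfl⟩ := hs
    rw [Finset.mem_sdiff, Finset.mem_product] at hq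
    by_contra hcon
    apply hq.2
    simp only [hF, Finset.mem_filter, Finset.mem_product]
    exact ⟨⟨hq.1.1, hBA hq.1.2⟩, hcon⟩
  have hle := (Finset.card_le_card himg).trans (card_setE_le p)
  have hle' : ((((A ×ˢ B) \ F).image (fun q => q.1 + q.2)).card : ℤ) ≤ 4 := by
    exact_mod_cast hle
  have hcast : ((A.card - 3 : ℕ) : ℤ) = (A.card : ℤ) - 3 := by
    rw [Nat.cast_sub h3]; rfl
  rw [hcast] at hB
  linarith

end Pool.Agent.S08064
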