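import Pool.Statements.S08412
-- import your own Pool.Agent.* helpers here

set_option autoImplicit false
open MeasureTheory
open Pool Pool.MP_436c60_co

namespace Pool.Agent.S08412

/-- Nine goods valued by three agents (rows of a `3 × 3` array, columns, and a third pattern), followed
by three goods of value zero. -/
def w : Fin 3 → Fin 12 → ℕ := ![![1,16,23,26,4,10,12,19,9,0,0,0],
  ![1,16,22,26,4,9,13,20,9,0,0,0], ![1,15,23,25,4,10,13,20,9,0,0,0]]

/-- The value of island `j` to agent `i`. -/
def v (i : Fin 3) (j : Fin 12) : ℕ := 1000 + w i j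

/-- A partition of the twelve islands into three bundles of four, for each agent, in which every
bundle is worth exactly `4040` to that agent. -/
def part : Fin 3 → Fin 3 → Fin 4 → Fin 12 :=
  ![![![0,1,2,9], ![3,4,5,10], ![6,7,8,11]],
    ![![0,3,6,9], ![1,4,7,10], ![2,5,8,11]],
    ![![0,5,7,8], ![1,3,9,10], ![2,4,6,11]]]

theorem part_sum : ∀ i p : Fin 3, ∑ l, v i (part i p l) = 4040 := by decide

theorem part_inj : ∀ i p : Fin 3, ∀ l l', part i p l = part i p l' → l = l' := by decide

theorem part_disj : ∀ i p p' : Fin 3, p ≠ p' → ∀ l l', part i p l ≠ part i p' l' := by decide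

theorem v_le : ∀ i j, v i j ≤ 1026 := by decide

/-- Exhaustive search over the ways to hand out a list of goods. -/
def chk : List (ℕ × ℕ × ℕ) → ℕ → ℕ → ℕ → Bool
  | [], x, y, z => !(Nat.ble 40 x && Nat.ble 40 y && Nat.ble 40 z)
  | (r, c, u) :: t, x, y, z => chk t (x + r) y z && chk t x (y + c) z && chk t x y (z + u)

/-- The value `n` if the owner `f` is agent `i`, and zero otherwise. -/
def sel (i : Fin 3) (f : Fin 3) (n : ℕ) : ℕ := if f = i then n else 0

theorem chk_sound : ∀ (l : List (ℕ × ℕ × ℕ)) (x y z : ℕ), chk l x y z = true →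
    ∀ (s : List (Fin 3)), s.length = l.length →
    ¬ (40 ≤ x + ((s.zip l).map (fun p => sel 0 p.1 p.2.1)).sum ∧
       40 ≤ y + ((s.zip l).map (fun p => sel 1 p.1 p.2.2.1)).sum ∧
       40 ≤ z + ((s.zip l).map (fun p => sel 2 p.1 p.2.2.2)).sum) := by
  intro l
  induction l with
  | nil =>
    intro x y z h s hs
    have : s = [] := by simpa using hs
    subst this
    rintro ⟨h1, h2, h3⟩
    simp only [List.zip_nil_left, List.map_nil, List.sum_nil, Nat.add_zero] at h1 h2 h3
    have e1 := Nat.ble_eq.mpr h1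
    have e2 := Nat.ble_eq.mpr h2
    have e3 := Nat.ble_eq.mpr h3
    simp [chk, e1, e2, e3] at h
  | cons g t ih =>
    intro x y z h s hs
    obtain ⟨r, c, u⟩ := g
    cases s with
    | nil => simp at hs
    | cons f s =>
      simp only [List.length_cons, Nat.add_right_cancel_iff] at hs
      simp only [chk, Bool.and_eq_true] at h
      obtain ⟨⟨h1, h2⟩, h3⟩ := h
      simp only [List.zip_cons_cons, List.map_cons, List.sum_cons]
      fin_cases f
      · have := ih _ _ _ h1 s hs
        simp [sel] at this ⊢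
        intro ha hb
        exact this (by omega) (by omega)
      · have := ih _ _ _ h2 s hs
        simp [sel] at this ⊢
        intro ha hb
        exact this (by omega) (by omega)
      · have := ih _ _ _ h3 s hs
        simp [sel] at this ⊢
        intro ha hb
        have := this (by omega) (by omega)
        omega

theorem chk_ok : chk [(1,1,1),(16,16,15),(23,22,23),(26,26,25),(4,4,4),(10,9,10),(12,13,13),
    (19,20,20),(9,9,9)] 0 0 0 = true := by decide +kernel

/-- No way to hand out the goods gives every agent value at least `40`. -/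
theorem goods (f : Fin 12 → Fin 3) :
    ¬ (∀ i : Fin 3, 40 ≤ ∑ j, sel i (f j) (w i j)) := by
  intro h
  have hs := chk_sound _ 0 0 0 chk_ok [f 0, f 1, f 2, f 3, f 4, f 5, f 6, f 7, f 8] rfl
  apply hs
  have h0 := h 0
  have h1 := h 1
  have h2 := h 2
  have z : ∀ i g : Fin 3, sel i g 0 = 0 := by decide
  simp [Fin.sum_univ_succ, w, z] at h0 h1 h2
  simp
  refine ⟨?_, ?_, ?_⟩
  · exact h0
  · exact h1
  · exact h2

/-- The same statement in terms of three pairwise disjoint bundles. -/
theorem goods' (S : Fin 3 → Finset (Fin 12)) (hd : ∀ i i', i ≠ i' → Disjoint (S i) (S i'))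
    (h : ∀ i, 40 ≤ ∑ j ∈ S i, w i j) : False := by
  classical
  apply goods (fun j => if j ∈ S 0 then 0 else if j ∈ S 1 then 1 else 2)
  intro i
  refine (h i).trans ?_
  rw [← Finset.sum_filter_add_sum_filter_not Finset.univ (fun j => j ∈ S i)]
  have : ∑ j ∈ S i, w i j ≤ ∑ x with x ∈ S i,
      sel i (if x ∈ S 0 then 0 else if x ∈ S 1 then 1 else 2) (w i x) := by
    have e : (Finset.univ.filter (fun x => x ∈ S i)) = S i := by ext x; simp
    rw [e]
    apply Finset.sum_le_sum
    intro j hj
    have h01 := hd 0 1 (by decide)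
    have h02 := hd 0 2 (by decide)
    have h12 := hd 1 2 (by decide)
    rw [Finset.disjoint_left] at h01 h02 h12
    fin_cases i
    · have hj : j ∈ S 0 := hj
      simp [sel, hj]
    · have hj : j ∈ S 1 := hj
      have : j ∉ S 0 := fun hh => h01 hh hj
      simp [sel, hj, this]
    · have hj : j ∈ S 2 := hj
      have h0 : j ∉ S 0 := fun hh => h02 hh hj
      have h1 : j ∉ S 1 := fun hh => h12 hh hj
      simp [sel, h0, h1]
  omega

/-- The value measure of agent `i`. -/
noncomputable def mu (i : Fin 3) : Measure ℝ :=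
  ∑ j : Fin 12, (v i j : ENNReal) • volume.restrict (Set.Icc (2 * ((j : ℕ) : ℝ)) (2 * ((j : ℕ) : ℝ) + 1))

theorem mu_apply' (i : Fin 3) (s : Set ℝ) :
    mu i s = ∑ j : Fin 12, (v i j : ENNReal) *
      (volume.restrict (Set.Icc (2 * ((j : ℕ) : ℝ)) (2 * ((j : ℕ) : ℝ) + 1))) s := by
  simp [mu, Measure.finsetSum_apply]

theorem isFinite (i : Fin 3) : IsFiniteMeasure (mu i) := by
  refine ⟨?_⟩
  rw [mu_apply']
  refine ENNReal.sum_lt_top.mpr ?_
  intro j _
  refine ENNReal.mul_lt_top (by simp) ?_
  simp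

theorem ac (i : Fin 3) : mu i ≪ volume := by
  intro s hs
  rw [mu_apply']
  refine Finset.sum_eq_zero ?_
  intro j _
  have : (volume.restrict (Set.Icc (2 * ((j : ℕ) : ℝ)) (2 * ((j : ℕ) : ℝ) + 1))) s = 0 :=
    Measure.absolutelyContinuous_of_le Measure.restrict_le_self hs
  simp [this]

theorem mu_island (i : Fin 3) (j : Fin 12) (s : Set ℝ)
    (hs : s ⊆ Set.Icc (2 * ((j : ℕ) : ℝ)) (2 * ((j : ℕ) : ℝ) + 1)) :
    mu i s = (v i j : ENNReal) * volume s := by
  rw [mu_apply', Finset.sum_eq_single j]
  · rw [Measure.restrict_eq_self _ hs]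
  · intro k _ hk
    have hdis : s ∩ Set.Icc (2 * ((k : ℕ) : ℝ)) (2 * ((k : ℕ) : ℝ) + 1) = ∅ := by
      ext x
      simp only [Set.mem_inter_iff, Set.mem_Icc, Set.mem_empty_iff_false, iff_false, not_and]
      intro hx h1 h2
      have hx := hs hx
      simp only [Set.mem_Icc] at hx
      apply hk
      apply Fin.ext
      have a1 : ((k : ℕ) : ℝ) < (j : ℕ) + 1 := by linarith
      have a2 : ((j : ℕ) : ℝ) < (k : ℕ) + 1 := by linarith
      have b1 : (k : ℕ) < (j : ℕ) + 1 := by exact_mod_cast a1
      have b2 : (j : ℕ) < (k : ℕ) + 1 := by exact_mod_cast a2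
      omega
    rw [Measure.restrict_apply' measurableSet_Icc, hdis]
    simp
  · simp

/-- Every bundle of the reference partition of agent `i` is worth at least `4040`. -/
theorem part_value (i p : Fin 3) :
    (4040 : ENNReal) ≤ mu i (⋃ l, Set.Ioo (2 * ((part i p l : ℕ) : ℝ)) (2 * ((part i p l : ℕ) : ℝ) + 1)) := by
  rw [measure_iUnion _ (fun l => measurableSet_Ioo), tsum_fintype]
  · have : ∀ l, mu i (Set.Ioo (2 * ((part i p l : ℕ) : ℝ)) (2 * ((part i p l : ℕ) : ℝ) + 1))
        = (v i (part i p l) : ENNReal) := by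
      intro l
      rw [mu_island i (part i p l) _ Set.Ioo_subset_Icc_self, Real.volume_Ioo]
      simp
    simp only [this]
    rw [← Nat.cast_sum, part_sum]
    norm_num
  · intro l l' hl
    change Disjoint _ _
    rw [Set.disjoint_left]
    intro x hx hx'
    simp only [Set.mem_Ioo] at hx hx'
    apply hl
    apply part_inj i p
    apply Fin.ext
    have a1 : ((part i p l : ℕ) : ℝ) < (part i p l' : ℕ) + 1 := by linarith
    have a2 : ((part i p l' : ℕ) : ℝ) < (part i p l : ℕ) + 1 := by linarith
    have b1 : (part i p l : ℕ) < (part i p l' : ℕ) + 1 := by exact_mod_cast a1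
    have b2 : (part i p l' : ℕ) < (part i p l : ℕ) + 1 := by exact_mod_cast a2
    omega

/-- The negation of the preceding statement: For m,n,k ≥ 2 and any n finite measures with densities on a cake of m separated islands, there is an allocation giving each agent at most k intervals, each within one island, worth at least that agent's k-interval maximin share. -/
theorem result :
    ¬ (∀ m n k : ℕ, 2 ≤ m → 2 ≤ n → 2 ≤ k →
    ∀ μ : Fin n → Measure ℝ, (∀ i, IsFiniteMeasure (μ i)) → (∀ i, μ i ≪ volume) →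
    ∃ a b : Fin n → Fin k → ℝ,
      (∀ i l, ∃ j : ℕ, j < m ∧
        Set.Ioo (a i l) (b i l) ⊆ Set.Icc (2 * (j : ℝ)) (2 * (j : ℝ) + 1)) ∧
      (∀ i i', i ≠ i' →
        Disjoint (⋃ l, Set.Ioo (a i l) (b i l)) (⋃ l, Set.Ioo (a i' l) (b i' l))) ∧
      ∀ i, ∀ c d : Fin n → Fin k → ℝ,
        (∀ p l, ∃ j : ℕ, j < m ∧
          Set.Ioo (c p l) (d p l) ⊆ Set.Icc (2 * (j : ℝ)) (2 * (j : ℝ) + 1)) →
        (∀ p p', p ≠ p' →
          Disjoint (⋃ l, Set.Ioo (c p l) (d p l)) (⋃ l, Set.Ioo (c p' l) (d p' l))) →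
        ∃ p, μ i (⋃ l, Set.Ioo (c p l) (d p l)) ≤ μ i (⋃ l, Set.Ioo (a i l) (b i l))) := by
  classical
  intro H
  obtain ⟨a, b, h1, h2, h3⟩ := H 12 3 4 (by norm_num) (by norm_num) (by norm_num) mu isFinite ac
  -- every agent gets at least 4040
  have hval : ∀ i, (4040 : ENNReal) ≤ mu i (⋃ l, Set.Ioo (a i l) (b i l)) := by
    intro i
    obtain ⟨p, hp⟩ := h3 i (fun p l => 2 * ((part i p l : ℕ) : ℝ))
      (fun p l => 2 * ((part i p l : ℕ) : ℝ) + 1)
      (fun p l => ⟨(part i p l : ℕ), (part i p l).isLt, Set.Ioo_subset_Icc_self⟩)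
      (by
        intro p p' hpp
        rw [Set.disjoint_left]
        intro x hx hx'
        simp only [Set.mem_iUnion, Set.mem_Ioo] at hx hx'
        obtain ⟨l, hx⟩ := hx
        obtain ⟨l', hx'⟩ := hx'
        apply part_disj i p p' hpp l l'
        apply Fin.ext
        have a1 : ((part i p l : ℕ) : ℝ) < (part i p' l' : ℕ) + 1 := by linarith
        have a2 : ((part i p' l' : ℕ) : ℝ) < (part i p l : ℕ) + 1 := by linarith
        have b1 : (part i p l : ℕ) < (part i p' l' : ℕ) + 1 := by exact_mod_cast a1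
        have b2 : (part i p' l' : ℕ) < (part i p l : ℕ) + 1 := by exact_mod_cast a2
        omega)
    exact (part_value i p).trans hp
  choose J hJ hJs using h1
  let K : Fin 3 → Fin 4 → Fin 12 := fun i l => ⟨J i l, hJ i l⟩
  have hK : ∀ i l, Set.Ioo (a i l) (b i l) ⊆
      Set.Icc (2 * ((K i l : ℕ) : ℝ)) (2 * ((K i l : ℕ) : ℝ) + 1) := fun i l => hJs i l
  let S : Fin 3 → Finset (Fin 12) := fun i => Finset.univ.image (K i)
  have hisl : ∀ i j, mu i (Set.Icc (2 * ((j : Fin 12) : ℝ)) (2 * (j : ℝ) + 1)) = (v i j : ENNReal) := by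
    intro i j
    rw [mu_island i j _ (Set.Subset.refl _), Real.volume_Icc]
    simp
  -- the value is at most the value of the islands that are touched
  have hS : ∀ i, 4040 ≤ ∑ j ∈ S i, v i j := by
    intro i
    have : mu i (⋃ l, Set.Ioo (a i l) (b i l)) ≤ ∑ j ∈ S i, (v i j : ENNReal) := by
      have hsub : (⋃ l, Set.Ioo (a i l) (b i l)) ⊆
          ⋃ j ∈ S i, Set.Icc (2 * ((j : ℕ) : ℝ)) (2 * ((j : ℕ) : ℝ) + 1) := by
        intro x hx
        simp only [Set.mem_iUnion] at hx ⊢
        obtain ⟨l, hl⟩ := hx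
        exact ⟨K i l, Finset.mem_image_of_mem _ (Finset.mem_univ _), hK i l hl⟩
      refine (measure_mono hsub).trans ((measure_biUnion_finset_le _ _).trans ?_)
      apply Finset.sum_le_sum
      intro j _
      exact (hisl i j).le
    have h4 := (hval i).trans this
    have h5 : ((4040 : ℕ) : ENNReal) ≤ ((∑ j ∈ S i, v i j : ℕ) : ENNReal) := by
      push_cast
      exact_mod_cast h4
    exact_mod_cast h5
  have hcard : ∀ i, (S i).card = 4 := by
    intro i
    have hle : (S i).card ≤ 4 := by
      refine Finset.card_image_le.trans ?_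
      simp
    have : ∑ j ∈ S i, v i j ≤ (S i).card * 1026 := by
      have := Finset.sum_le_card_nsmul (S i) (v i) 1026 (fun j _ => v_le i j)
      simpa using this
    have := hS i
    by_contra hne
    have : (S i).card ≤ 3 := by omega
    have : (S i).card * 1026 ≤ 3 * 1026 := Nat.mul_le_mul_right _ this
    omega
  -- every interval is longer than one half
  have hlen : ∀ i l, 1 / 2 < b i l - a i l := by
    intro i l
    by_contra hcon
    have hcon := not_lt.mp hcon
    have hU : (⋃ l, Set.Ioo (a i l) (b i l)) ⊆ Set.Ioo (a i l) (b i l) ∪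
        ⋃ j ∈ (Finset.univ.erase l).image (K i), Set.Icc (2 * ((j : ℕ) : ℝ)) (2 * ((j : ℕ) : ℝ) + 1) := by
      intro x hx
      simp only [Set.mem_iUnion] at hx
      obtain ⟨l', hl'⟩ := hx
      by_cases hll : l' = l
      · left; rwa [hll] at hl'
      · right
        simp only [Set.mem_iUnion]
        exact ⟨K i l', Finset.mem_image_of_mem _ (by simp [hll]), hK i l' hl'⟩
    have h6 : mu i (Set.Ioo (a i l) (b i l)) ≤ (513 : ENNReal) := by
      rw [mu_island i (K i l) _ (hK i l), Real.volume_Ioo]
      have hv : (v i (K i l) : ENNReal) ≤ ((1026 : ℕ) : ENNReal) := by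
        exact_mod_cast v_le i (K i l)
      calc (v i (K i l) : ENNReal) * ENNReal.ofReal (b i l - a i l)
          ≤ ((1026 : ℕ) : ENNReal) * ENNReal.ofReal (1 / 2) :=
            mul_le_mul' hv (ENNReal.ofReal_le_ofReal hcon)
        _ = ENNReal.ofReal 1026 * ENNReal.ofReal (1 / 2) := by
            congr 1
            rw [ENNReal.ofReal_eq_coe_nnreal (by norm_num)]
            simp
            rfl
        _ = ENNReal.ofReal 513 := by
            rw [← ENNReal.ofReal_mul (by norm_num)]
            norm_num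
        _ ≤ 513 := by
            simp
    have h7 : mu i (⋃ j ∈ (Finset.univ.erase l).image (K i),
        Set.Icc (2 * ((j : ℕ) : ℝ)) (2 * ((j : ℕ) : ℝ) + 1)) ≤ (3078 : ENNReal) := by
      refine (measure_biUnion_finset_le _ _).trans ?_
      have h8 : ∑ j ∈ (Finset.univ.erase l).image (K i), v i j ≤ 3078 := by
        have := Finset.sum_le_card_nsmul ((Finset.univ.erase l).image (K i)) (v i) 1026
          (fun j _ => v_le i j)
        refine this.trans ?_
        have hc : ((Finset.univ.erase l).image (K i)).card ≤ 3 := by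
          refine Finset.card_image_le.trans ?_
          simp
        simp only [smul_eq_mul]
        calc ((Finset.univ.erase l).image (K i)).card * 1026 ≤ 3 * 1026 :=
              Nat.mul_le_mul_right _ hc
          _ = 3078 := by norm_num
      have h9 : ∑ j ∈ (Finset.univ.erase l).image (K i), (v i j : ENNReal) ≤ ((3078 : ℕ) : ENNReal) := by
        rw [← Nat.cast_sum]
        exact_mod_cast h8
      refine le_trans (Finset.sum_le_sum (fun j _ => (hisl i j).le)) ?_
      exact_mod_cast h9
    have h10 : mu i (⋃ l, Set.Ioo (a i l) (b i l)) ≤ 513 + 3078 :=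
      (measure_mono hU).trans ((measure_union_le _ _).trans (add_le_add h6 h7))
    have h11 : (4040 : ENNReal) ≤ 513 + 3078 := (hval i).trans h10
    have h12 : ((4040 : ℕ) : ENNReal) ≤ ((3591 : ℕ) : ENNReal) := by
      refine le_trans (by norm_num) (h11.trans (by norm_num))
    have h13 : (4040 : ℕ) ≤ 3591 := by exact_mod_cast h12
    omega
  have hdisj : ∀ i i', i ≠ i' → Disjoint (S i) (S i') := by
    intro i i' hii
    rw [Finset.disjoint_left]
    intro j hj hj'
    simp only [S, Finset.mem_image, Finset.mem_univ, true_and] at hj hj'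
    obtain ⟨l, hl⟩ := hj
    obtain ⟨l', hl'⟩ := hj'
    have e1 := hlen i l
    have e2 := hlen i' l'
    have hs1 := hK i l
    have hs2 := hK i' l'
    rw [hl] at hs1
    rw [hl'] at hs2
    have key : ∀ x y : ℝ, 1 / 2 < y - x → Set.Ioo x y ⊆ Set.Icc (2 * ((j : ℕ) : ℝ)) (2 * ((j : ℕ) : ℝ) + 1) →
        2 * ((j : ℕ) : ℝ) + 1 / 2 ∈ Set.Ioo x y := by
      intro x y hxy hsub
      have hlt : x < y := by linarith
      have hcl := closure_minimal hsub isClosed_Icc
      rw [closure_Ioo hlt.ne] at hcl
      have c1 := hcl (Set.left_mem_Icc.mpr hlt.le)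
      have c2 := hcl (Set.right_mem_Icc.mpr hlt.le)
      simp only [Set.mem_Icc] at c1 c2
      constructor <;> linarith
    have m1 := key _ _ e1 hs1
    have m2 := key _ _ e2 hs2
    have hd := h2 i i' hii
    rw [Set.disjoint_left] at hd
    exact hd (Set.mem_iUnion.mpr ⟨l, m1⟩) (Set.mem_iUnion.mpr ⟨l', m2⟩)
  refine goods' S hdisj ?_
  intro i
  have := hS i
  have hv : ∑ j ∈ S i, v i j = 1000 * (S i).card + ∑ j ∈ S i, w i j := by
    simp only [v, Finset.sum_add_distrib, Finset.sum_const, smul_eq_mul]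
    ring
  rw [hcard i] at hv
  omega

end Pool.Agent.S08412
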