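import Pool.Statements.S08537
import Pool.Agent.Lib.MP_484915_co.Draw
import Pool.Agent.Lib.MP_484915_co.Gamma

set_option autoImplicit false
open Pool Pool.MP_484915_co

namespace Pool.Agent.S08537

open Pool.Agent.Bond

theorem sInf_G_le : sInf {n : ℕ | ∃ D : Finset (Fin 28), D.card = n ∧
    ∀ v : Fin 28, v ∈ D ∨ ∃ u ∈ D, G.Adj u v} ≤ 6 := by
  obtain ⟨D, hD, hdom⟩ := surv_all ∅ (by simp) (by simp)
  refine le_trans (Nat.sInf_le ⟨D, rfl, ?_⟩) hD
  intro v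
  rcases hdom v with h | ⟨u, hu, hadj⟩
  · exact Or.inl h
  · rw [SimpleGraph.deleteEdges_adj] at hadj
    exact Or.inr ⟨u, hu, hadj.1⟩

theorem le_sInf_G : 6 ≤ sInf {n : ℕ | ∃ D : Finset (Fin 28), D.card = n ∧
    ∀ v : Fin 28, v ∈ D ∨ ∃ u ∈ D, G.Adj u v} := by
  apply le_csInf
  · exact ⟨_, Finset.univ, rfl, fun v => Or.inl (Finset.mem_univ v)⟩
  · rintro n ⟨D, rfl, hdom⟩
    exact gamma_ge D hdom

theorem le_sInf_E0 : 7 ≤ sInf {n : ℕ | ∃ D : Finset (Fin 28), D.card = n ∧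
    ∀ v : Fin 28, v ∈ D ∨
      ∃ u ∈ D, (G.deleteEdges (↑E0 : Set (Sym2 (Fin 28)))).Adj u v} := by
  apply le_csInf
  · exact ⟨_, Finset.univ, rfl, fun v => Or.inl (Finset.mem_univ v)⟩
  · rintro n ⟨D, rfl, hdom⟩
    exact gamma_E0 D hdom

/-- There is a finite graph, drawable in the plane without crossings, in which removing some set of at most 8 edges raises the domination number, but removing any set of at most 6 edges never does, so its bondage number is 7 or 8. -/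
theorem result :
    ∃ (V : Type) (_ : Fintype V) (G : SimpleGraph V),
      (∃ (p : V → ℝ × ℝ) (γ : ∀ u v : V, Path (p u) (p v)),
        Function.Injective p ∧
        (∀ u v : V, G.Adj u v → Function.Injective (⇑(γ u v))) ∧
        (∀ u v : V, G.Adj u v → ∀ t : unitInterval, t ≠ 0 → t ≠ 1 →
          ∀ w : V, γ u v t ≠ p w) ∧
        (∀ u v x y : V, G.Adj u v → G.Adj x y → s(u, v) ≠ s(x, y) →
          ∀ a b : unitInterval, a ≠ 0 → a ≠ 1 → b ≠ 0 → b ≠ 1 →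
            γ u v a ≠ γ x y b)) ∧
      (∃ E : Finset (Sym2 V), (↑E : Set (Sym2 V)) ⊆ G.edgeSet ∧ E.card ≤ 8 ∧
        sInf {n : ℕ | ∃ D : Finset V, D.card = n ∧
            ∀ v : V, v ∈ D ∨ ∃ u ∈ D, G.Adj u v} <
          sInf {n : ℕ | ∃ D : Finset V, D.card = n ∧
            ∀ v : V, v ∈ D ∨ ∃ u ∈ D, (G.deleteEdges (↑E : Set (Sym2 V))).Adj u v}) ∧
      (∀ E : Finset (Sym2 V), (↑E : Set (Sym2 V)) ⊆ G.edgeSet → E.card ≤ 6 →
        ¬ (sInf {n : ℕ | ∃ D : Finset V, D.card = n ∧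
            ∀ v : V, v ∈ D ∨ ∃ u ∈ D, G.Adj u v} <
          sInf {n : ℕ | ∃ D : Finset V, D.card = n ∧
            ∀ v : V, v ∈ D ∨ ∃ u ∈ D, (G.deleteEdges (↑E : Set (Sym2 V))).Adj u v})) := by
  refine ⟨Fin 28, inferInstance, Bond.G, ⟨pos, fun u v => seg (pos u) (pos v), pos_inj, ?_, ?_, ?_⟩,
    ⟨E0, ?_, E0_card, ?_⟩, ?_⟩
  · intro u v h
    exact seg_inj h
  · intro u v h t h0 h1 w hw
    have hon := On_seg (a := pos u) (b := pos v) h0 h1
    rw [hw] at hon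
    exact vert_avoid h w hon
  · intro u v x y h1 h2 hne a b ha0 ha1 hb0 hb1 hab
    have hon1 := On_seg (a := pos u) (b := pos v) ha0 ha1
    have hon2 := On_seg (a := pos x) (b := pos y) hb0 hb1
    rw [← hab] at hon2
    exact edge_cross h1 h2 hne hon1 hon2
  · intro e he
    exact E0_sub e (Finset.mem_coe.mp he)
  · exact lt_of_le_of_lt sInf_G_le (lt_of_lt_of_le (by norm_num) le_sInf_E0)
  · intro E hsub hE hlt
    obtain ⟨D, hD, hdom⟩ := surv_all E hsub hE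
    have h1 := le_trans (Nat.sInf_le (s := {n : ℕ | ∃ D : Finset (Fin 28), D.card = n ∧
      ∀ v : Fin 28, v ∈ D ∨
        ∃ u ∈ D, (Bond.G.deleteEdges (↑E : Set (Sym2 (Fin 28)))).Adj u v}) ⟨D, rfl, hdom⟩) hD
    have h2 := le_sInf_G
    omega

end Pool.Agent.S08537
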