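import Pool.Statements.S09830
import Pool.Agent.Lib.MP_839d5d_co.Lines

set_option autoImplicit false
open Pool Pool.MP_839d5d_co

namespace Pool.Agent.S09830

open Pool.Agent.Lib.MP839d5d in
lemma four_pow_ge (m : ℕ) (hm : 4 ≤ m) : 10 * m ^ 2 ≤ 4 ^ m := by
  induction m, hm using Nat.le_induction with
  | base => norm_num
  | succ m hm ih =>
    calc 10 * (m + 1) ^ 2 ≤ 4 * (10 * m ^ 2) := by nlinarith
      _ ≤ 4 * 4 ^ m := Nat.mul_le_mul_left _ ih
      _ = 4 ^ (m + 1) := by ring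

open Pool.Agent.Lib.MP839d5d in
lemma win_balanced (m : ℕ) (hm : 4 ≤ m) : Win (8 * m) (5 * m + 5 * m * ((8 * m + 1) / 2)) := by
  refine win_of_choose (8 * m) _ (5 * m) (5 * m) (by omega) (by omega) rfl ?_
  have h1 : (5 * m + 5 * m).choose (5 * m) = Nat.centralBinom (5 * m) := by
    rw [Nat.centralBinom_eq_two_mul_choose, two_mul]
  rw [h1]
  by_contra hcon
  push Not at hcon
  have h2 := Nat.four_pow_lt_mul_centralBinom (5 * m) (by omega)
  have h3 : 4 ^ (5 * m) < 5 * m * (8 * m * 2 ^ (8 * m - 2)) :=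
    lt_of_lt_of_le h2 (Nat.mul_le_mul_left _ hcon)
  have h4 : 5 * m * (8 * m * 2 ^ (8 * m - 2)) = 10 * m ^ 2 * 4 ^ (4 * m) := by
    have h5 : 2 ^ (8 * m - 2) * 4 = 4 ^ (4 * m) := by
      have : (4 : ℕ) = 2 ^ 2 := by norm_num
      rw [this, ← pow_mul, ← pow_add]
      congr 1
      omega
    rw [← h5]; ring
  have h6 : (4 : ℕ) ^ (5 * m) = 4 ^ m * 4 ^ (4 * m) := by
    rw [← pow_add]; congr 1; ring
  rw [h4, h6] at h3
  have h7 := Nat.lt_of_mul_lt_mul_right h3
  have h8 := four_pow_ge m hm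
  omega

/-- The negation of the preceding statement: There is a constant C such that for all n ≥ 2: Maker wins the Maker-Breaker game on the lines of n^d when d ≥ (n² log 2 − n log n)/2 + Cn, and Breaker wins when d ≤ (n² log 2 − n log n)/2 − Cn. -/
theorem result :
    ¬ (∃ C : ℝ, ∀ n : ℕ, 2 ≤ n → ∀ d : ℕ, ∀ W : Prop,
      (W ↔ ∃ σ : List (Fin d → Fin n) → (Fin d → Fin n),
        ∀ τ : List (Fin d → Fin n) → (Fin d → Fin n),
          ∃ k : ℕ, ∃ a : Fin d → Fin n, ∃ s : Fin d → Fin 3, (∃ i, s i ≠ 0) ∧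
            ∀ t : Fin n,
              (fun i => if s i = 0 then a i else if s i = 1 then t else Fin.rev t) ∈
                  (fun h : List (Fin d → Fin n) =>
                    h ++ [if Even h.length then σ h else τ h])^[k] [] ∧
              Even (List.idxOf
                (fun i => if s i = 0 then a i else if s i = 1 then t else Fin.rev t)
                ((fun h : List (Fin d → Fin n) =>
                    h ++ [if Even h.length then σ h else τ h])^[k] []))) →
      (((d : ℝ) ≥ (Real.log 2 * (n : ℝ) ^ 2 - (n : ℝ) * Real.log n) / 2 + C * n → W) ∧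
       ((d : ℝ) ≤ (Real.log 2 * (n : ℝ) ^ 2 - (n : ℝ) * Real.log n) / 2 - C * n → ¬ W))) := by
  rintro ⟨C, hC⟩
  set k : ℕ := ⌈|C|⌉₊ + 10 with hk
  set m : ℕ := k ^ 2 with hmdef
  have hk10 : 10 ≤ k := by omega
  have hm4 : 4 ≤ m := by
    rw [hmdef]; nlinarith
  have hwin := win_balanced m hm4
  have h1 := (hC (8 * m) (by omega) (5 * m + 5 * m * ((8 * m + 1) / 2)) _ Iff.rfl).2
  apply h1 _ hwin
  have hdiv : (8 * m + 1) / 2 = 4 * m := by omega
  rw [hdiv]
  have hkR : (10 : ℝ) ≤ (k : ℝ) := by exact_mod_cast hk10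
  have hCk : C + 10 ≤ (k : ℝ) := by
    have h2 : C ≤ |C| := le_abs_self C
    have h3 : |C| ≤ (⌈|C|⌉₊ : ℝ) := Nat.le_ceil _
    have h4 : (k : ℝ) = (⌈|C|⌉₊ : ℝ) + 10 := by rw [hk]; push_cast; ring
    linarith
  have hlog2 := Real.log_two_gt_d9
  have hlog2' := Real.log_two_lt_d9
  have hkpos : (0 : ℝ) < k := by linarith
  have hlogk : Real.log (k : ℝ) ≤ (k : ℝ) - 1 := Real.log_le_sub_one_of_pos hkpos
  have hlogn : Real.log ((8 * m : ℕ) : ℝ) = 3 * Real.log 2 + 2 * Real.log (k : ℝ) := by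
    rw [hmdef]
    push_cast
    rw [Real.log_mul (by norm_num) (by positivity), Real.log_pow]
    have : (8 : ℝ) = 2 ^ 3 := by norm_num
    rw [this, Real.log_pow]
    push_cast; ring
  rw [hlogn]
  have hmR : (m : ℝ) = (k : ℝ) ^ 2 := by rw [hmdef]; push_cast; ring
  push_cast
  rw [hmR]
  have hk2 : (0 : ℝ) < (k : ℝ) ^ 2 := by positivity
  -- reduce to an inequality after dividing by k^2
  have key : 5 + 20 * (k : ℝ) ^ 2 ≤
      32 * Real.log 2 * (k : ℝ) ^ 2 - 4 * (3 * Real.log 2 + 2 * Real.log (k : ℝ)) - 8 * C := by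
    nlinarith
  nlinarith [mul_le_mul_of_nonneg_left key hk2.le]

end Pool.Agent.S09830
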