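import Pool.Statements.S09975
import Pool.Agent.Lib.MP_8a5648_co.Assemble
import Pool.Agent.Lib.MP_8a5648_co.SF4S
import Pool.Agent.Lib.MP_8a5648_co.Spec5S
import Pool.Agent.Lib.MP_8a5648_co.Cyc6S

set_option autoImplicit false
open Pool Pool.MP_8a5648_co

namespace Pool.Agent.S09975

/-- all base facts (kernel computations in dimensions 3 to 6) -/
theorem base : Locke.Base where
  el3 := Locke.el3
  el4 := Locke.el4
  b14 := Locke.b14
  b24 := Locke.b24
  sf4 := Locke.sf4
  specA := Locke.specA
  specX := Locke.specX
  specF := Locke.specF
  specD := Locke.specD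
  cyc6 := Locke.cyc6

/-- For all k and all n ≥ k+2, deleting any set of k even and k odd vertices from the n-dimensional hypercube leaves a Hamiltonian graph. -/
theorem result :
    ∀ k n : ℕ, k + 2 ≤ n → ∀ F : Finset (Fin n → Bool),
      (F.filter (fun x => Even (Finset.univ.filter (fun i => x i = true)).card)).card = k →
      (F.filter (fun x => ¬ Even (Finset.univ.filter (fun i => x i = true)).card)).card = k →
      ((SimpleGraph.fromRel (fun x y : Fin n → Bool => hammingDist x y = 1)).induce
          {x | x ∉ F}).IsHamiltonian :=
  Locke.final (Locke.EL_all base)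

end Pool.Agent.S09975
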