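import Pool.Statements.S10009
import Pool.Agent.Lib.MP_8b9a2e_co.Final

set_option autoImplicit false
open Classical
open Pool Pool.MP_8b9a2e_co

namespace Pool.Agent.S10009

/-- For every n ≥ 2 there are k and ℓ ≥ 2 with ℓ+2k=n such that the double comet (path on ℓ vertices, k pendants at each end) has adjacency gap λ1−λ2 at most that of every tree on n vertices. -/
theorem result :
    ∀ n : ℕ, 2 ≤ n → ∃ k ℓ : ℕ, 2 ≤ ℓ ∧ ℓ + 2 * k = n ∧
      ∀ T : SimpleGraph (Fin n), T.IsTree →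
        ∀ (hC : ((SimpleGraph.fromRel (fun a b : Fin n =>
                    (a.val + 1 = b.val ∧ b.val < ℓ) ∨
                    (ℓ ≤ b.val ∧ b.val < ℓ + k ∧ a.val = 0) ∨
                    (ℓ + k ≤ b.val ∧ a.val + 1 = ℓ))).adjMatrix ℝ).IsHermitian)
          (hT : (T.adjMatrix ℝ).IsHermitian)
          (i j : Fin (Fintype.card (Fin n))),
          i.val = 0 → j.val = 1 →
            hC.eigenvalues₀ i - hC.eigenvalues₀ j ≤ hT.eigenvalues₀ i - hT.eigenvalues₀ j := by
  intro n hn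
  obtain ⟨k, ℓ, h1, h2, h3⟩ := Pool.Agent.SG.final_aux n hn
  refine ⟨k, ℓ, h1, h2, ?_⟩
  intro T hT hC hTA i j hi hj
  have key : ∀ (M : Matrix (Fin n) (Fin n) ℝ) (hM : M.IsHermitian),
      M = (Pool.Agent.SG.CG n k ℓ).adjMatrix ℝ →
      hM.eigenvalues₀ i - hM.eigenvalues₀ j ≤ hTA.eigenvalues₀ i - hTA.eigenvalues₀ j := by
    rintro M hM rfl
    exact h3 T hT hM hTA i j hi hj
  refine key _ hC ?_
  ext a b
  unfold Pool.Agent.SG.CG
  rw [SimpleGraph.adjMatrix_apply, SimpleGraph.adjMatrix_apply]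
  congr

end Pool.Agent.S10009
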