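import Pool.Statements.S10336
import Pool.Agent.Lib.MP_99d978_co.Graphs
import Pool.Agent.Lib.MP_99d978_co.Reg

set_option autoImplicit false
open Classical
open Pool Pool.MP_99d978_co

namespace Pool.Agent.S10336

theorem root_le (x : ℝ)
    (hx : 90*x^6 + 729*x^5 - 188*x^4 - 1632*x^3 - 1247*x^2 - 363*x - 38 = 0) : x ≤ 2 := by
  by_contra hcon
  have ht : 0 < x - 2 := by
    have := not_le.mp hcon
    linarith
  obtain ⟨t, rfl⟩ : ∃ t, x = t + 2 := ⟨x - 2, by ring⟩
  have ht' : 0 < t := by linarith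
  have h1 : 90*(t+2)^6 + 729*(t+2)^5 - 188*(t+2)^4 - 1632*(t+2)^3 - 1247*(t+2)^2 - 363*(t+2) - 38
      = 90*t^6 + 1809*t^5 + 12502*t^4 + 40424*t^3 + 64369*t^2 + 44649*t + 7272 := by ring
  rw [h1] at hx
  have h2 : 0 < 90*t^6 + 1809*t^5 + 12502*t^4 + 40424*t^3 + 64369*t^2 + 44649*t + 7272 := by
    positivity
  linarith

theorem exists_largest : ∃ L : ℝ,
    90*L^6 + 729*L^5 - 188*L^4 - 1632*L^3 - 1247*L^2 - 363*L - 38 = 0 ∧
    ∀ x : ℝ, 90*x^6 + 729*x^5 - 188*x^4 - 1632*x^3 - 1247*x^2 - 363*x - 38 = 0 → x ≤ L := by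
  have hcont : Continuous (fun x : ℝ =>
      90*x^6 + 729*x^5 - 188*x^4 - 1632*x^3 - 1247*x^2 - 363*x - 38) := by fun_prop
  have hne : ∃ x ∈ Set.Icc (1:ℝ) 2,
      90*x^6 + 729*x^5 - 188*x^4 - 1632*x^3 - 1247*x^2 - 363*x - 38 = 0 := by
    have h := intermediate_value_Icc (by norm_num : (1:ℝ) ≤ 2) hcont.continuousOn
    have h0 : (0:ℝ) ∈ Set.Icc
        (90*(1:ℝ)^6 + 729*(1:ℝ)^5 - 188*(1:ℝ)^4 - 1632*(1:ℝ)^3 - 1247*(1:ℝ)^2 - 363*(1:ℝ) - 38)
        (90*(2:ℝ)^6 + 729*(2:ℝ)^5 - 188*(2:ℝ)^4 - 1632*(2:ℝ)^3 - 1247*(2:ℝ)^2 - 363*(2:ℝ) - 38) := by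
      constructor <;> norm_num
    obtain ⟨x, hx, hx0⟩ := h h0
    exact ⟨x, hx, hx0⟩
  have hclosed : IsClosed {x : ℝ |
      90*x^6 + 729*x^5 - 188*x^4 - 1632*x^3 - 1247*x^2 - 363*x - 38 = 0} :=
    isClosed_eq hcont continuous_const
  have hcomp : IsCompact (Set.Icc (1:ℝ) 2 ∩ {x : ℝ |
      90*x^6 + 729*x^5 - 188*x^4 - 1632*x^3 - 1247*x^2 - 363*x - 38 = 0}) :=
    isCompact_Icc.inter_right hclosed
  obtain ⟨x0, hx0, hx00⟩ := hne
  obtain ⟨L, hL, hmax⟩ := hcomp.exists_isGreatest ⟨x0, hx0, hx00⟩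
  refine ⟨L, hL.2, ?_⟩
  intro x hx
  by_cases h1 : 1 ≤ x
  · exact hmax ⟨⟨h1, root_le x hx⟩, hx⟩
  · have := hL.1.1
    linarith [not_le.mp h1]

/-- The negation of the preceding statement: Let L be the largest real root of the sextic. For every finite 4-regular triangle-free G and λ>0: if λ≤L, G's occupancy fraction is at least the Robertson graph's (4-regular, girth 5, 19 vertices); if λ≥L, at least that of the circulant on Z13 with jumps ±1,±5. -/
theorem result :
    ¬ (∀ L : ℝ,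
      90*L^6 + 729*L^5 - 188*L^4 - 1632*L^3 - 1247*L^2 - 363*L - 38 = 0 →
      (∀ x : ℝ, 90*x^6 + 729*x^5 - 188*x^4 - 1632*x^3 - 1247*x^2 - 363*x - 38 = 0 → x ≤ L) →
      ∀ (V : Type) [Fintype V] [Nonempty V] (G : SimpleGraph V),
        G.IsRegularOfDegree 4 → G.CliqueFree 3 →
        ∀ H : SimpleGraph (Fin 19), H.IsRegularOfDegree 4 → (5 : ℕ∞) ≤ H.egirth →
        ∀ l : ℝ, 0 < l →
          (l ≤ L →
            (∑ I : Finset (Fin 19), if H.IsIndepSet (I : Set (Fin 19)) then (I.card : ℝ) * l ^ I.card else 0) /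
              ((Fintype.card (Fin 19) : ℝ) *
                ∑ I : Finset (Fin 19), if H.IsIndepSet (I : Set (Fin 19)) then l ^ I.card else 0)
            ≤
            (∑ I : Finset V, if G.IsIndepSet (I : Set V) then (I.card : ℝ) * l ^ I.card else 0) /
              ((Fintype.card V : ℝ) *
                ∑ I : Finset V, if G.IsIndepSet (I : Set V) then l ^ I.card else 0)) ∧
          (L ≤ l →
            (∑ I : Finset (ZMod 13),
                if (SimpleGraph.fromRel (fun x y : ZMod 13 => x - y = 1 ∨ x - y = 5)).IsIndepSet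
                    (I : Set (ZMod 13))
                then (I.card : ℝ) * l ^ I.card else 0) /
              ((Fintype.card (ZMod 13) : ℝ) *
                ∑ I : Finset (ZMod 13),
                  if (SimpleGraph.fromRel (fun x y : ZMod 13 => x - y = 1 ∨ x - y = 5)).IsIndepSet
                      (I : Set (ZMod 13))
                  then l ^ I.card else 0)
            ≤
            (∑ I : Finset V, if G.IsIndepSet (I : Set V) then (I.card : ℝ) * l ^ I.card else 0) /
              ((Fintype.card V : ℝ) *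
                ∑ I : Finset V, if G.IsIndepSet (I : Set V) then l ^ I.card else 0))) := by
  intro hall
  obtain ⟨L, hL, hmax⟩ := exists_largest
  have h := (hall L hL hmax (Fin 20) Occ.K (Occ.K_reg _) Occ.K_cliqueFree Occ.R (Occ.R_reg _)
    Occ.R_girth 2 (by norm_num)).2 (root_le L hL)
  have hK := Occ.K_sums
  have hC := Occ.C_sums
  have h' : (4810 : ℝ) / ((13 : ℝ) * 1483) ≤ 359800 / ((20 : ℝ) * 72225) := by
    convert h using 3
    · convert hC.2.symm
    · rw [ZMod.card]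
      norm_num
    · convert hC.1.symm
    · convert hK.2.symm
    · rw [Fintype.card_fin]
      norm_num
    · convert hK.1.symm
  norm_num at h'

end Pool.Agent.S10336
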