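import Pool.Statements.S10665
import Pool.Agent.Lib.MP_a90607_co.Cover

set_option autoImplicit false
open Pool Pool.MP_a90607_co

namespace Pool.Agent.S10665

open Pool.Agent.Lib.MP_a90607_co in
/-- From lists of labels to functions on `Fin n`. -/
theorem of_good {n j : ℕ} (hn : 0 < n) (h : Good n (j : ℤ)) :
    ∃ f g : Fin n → ℕ, Function.Injective (Sum.elim f g) ∧
      (∀ x : Fin n ⊕ Fin n, Sum.elim f g x ∈ Finset.Icc 1 (2 * n)) ∧
      ∀ i : Fin n, g i + f i + f (finRotate n i) = j := by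
  obtain ⟨m, rfl⟩ : ∃ m, n = m + 1 := ⟨n - 1, by omega⟩
  exact h.exists_functions

/-- For n=2k+1≥7 and each j in [5k+4,7k+5], and for n=2k≥4 and each j in [5k+2,7k+1], the n-cycle has a bijective labeling of its vertices and edges by 1..2n with every edge label plus its two end labels equal to j. -/
theorem result :
    (∀ k : ℕ, 3 ≤ k → ∀ j : ℕ, 5 * k + 4 ≤ j → j ≤ 7 * k + 5 →
      ∃ f g : Fin (2 * k + 1) → ℕ,
        Function.Injective (Sum.elim f g) ∧
        (∀ x : Fin (2 * k + 1) ⊕ Fin (2 * k + 1),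
            Sum.elim f g x ∈ Finset.Icc 1 (2 * (2 * k + 1))) ∧
        ∀ i : Fin (2 * k + 1), g i + f i + f (finRotate (2 * k + 1) i) = j) ∧
    (∀ k : ℕ, 2 ≤ k → ∀ j : ℕ, 5 * k + 2 ≤ j → j ≤ 7 * k + 1 →
      ∃ f g : Fin (2 * k) → ℕ,
        Function.Injective (Sum.elim f g) ∧
        (∀ x : Fin (2 * k) ⊕ Fin (2 * k),
            Sum.elim f g x ∈ Finset.Icc 1 (2 * (2 * k))) ∧
        ∀ i : Fin (2 * k), g i + f i + f (finRotate (2 * k) i) = j) := by
  constructor
  · intro k hk j h1 h2
    exact of_good (by omega)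
      (Pool.Agent.Lib.MP_a90607_co.good_all (by push_cast; omega) (by push_cast; omega) (by omega))
  · intro k hk j h1 h2
    exact of_good (by omega)
      (Pool.Agent.Lib.MP_a90607_co.good_all (by push_cast; omega) (by push_cast; omega) (by omega))

end Pool.Agent.S10665
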