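import Pool.Statements.S10980
import Pool.Agent.Lib.MP_b6d645_co.Main
import Pool.Agent.Lib.MP_b6d645_co.Numeric

set_option autoImplicit false
open Pool Pool.MP_b6d645_co

namespace Pool.Agent.S10980

/-- The negation of the preceding statement: Take any graph on n vertices with no isolated vertex in which every maximal independent set has exactly n/2 vertices. Then the counts of independent sets of size k, for k = 0, 1, 2, ..., first weakly increase and then weakly decrease. -/
theorem result :
    ¬ (∀ (n : ℕ) (G : SimpleGraph (Fin n)),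
      (∀ v : Fin n, ∃ w : Fin n, G.Adj v w) →
      (∀ s : Finset (Fin n),
        Maximal (fun t : Finset (Fin n) => G.IsIndepSet (t : Set (Fin n))) s →
          2 * s.card = n) →
      ∃ m : ℕ,
        (∀ i : ℕ, i < m →
          {s : Finset (Fin n) | G.IsIndepSet (s : Set (Fin n)) ∧ s.card = i}.ncard ≤
          {s : Finset (Fin n) | G.IsIndepSet (s : Set (Fin n)) ∧ s.card = i + 1}.ncard) ∧
        (∀ i : ℕ, m ≤ i →
          {s : Finset (Fin n) | G.IsIndepSet (s : Set (Fin n)) ∧ s.card = i + 1}.ncard ≤
          {s : Finset (Fin n) | G.IsIndepSet (s : Set (Fin n)) ∧ s.card = i}.ncard)) :=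
  -- the counterexample: the corona of the join of 663 isolated vertices with 150 copies of K_10
  Pool.Agent.Lib.MP_b6d645_co.main 663 150 10 (2 ^ 2560) 1160 1170 (by norm_num)
    Pool.Agent.Lib.MP_b6d645_co.num3 (by norm_num)
    Pool.Agent.Lib.MP_b6d645_co.num1 Pool.Agent.Lib.MP_b6d645_co.num2

end Pool.Agent.S10980
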