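import Pool.Statements.S11531
import Pool.Agent.Lib.MP_cf17a0_co.S1.Main

set_option autoImplicit false
open Pool Pool.MP_cf17a0_co

namespace Pool.Agent.S11531

/-- For all naturals n,k,a with nk even, a odd, k>3, the polynomial (1+q)^floor((k+1)/2) times the product over v=1..k of (1-(-q)^(a(n+v)))/(1-(-q)^v) has all coefficients nonnegative. -/
theorem result :
    ∀ n k a : ℕ, Even (n * k) → Odd a → 3 < k → ∀ i : ℕ,
      0 ≤ (((1 + Polynomial.X : Polynomial ℚ) ^ ((k + 1) / 2) *
              ∏ v ∈ Finset.Icc 1 k, (1 - (-Polynomial.X : Polynomial ℚ) ^ (a * (n + v)))) /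
            ∏ v ∈ Finset.Icc 1 k, (1 - (-Polynomial.X : Polynomial ℚ) ^ v)).coeff i :=
  Pool.Agent.SignedQ.An.frozen Pool.Agent.SignedQ.An.all

end Pool.Agent.S11531
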