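import Pool.Statements.S11856
-- import your own Pool.Agent.* helpers here

set_option autoImplicit false
open Pool Pool.MP_dc9599_co

namespace Pool.Agent.S11856

/-! ### Arcs of a closed list -/

section arcs

variable {V : Type}

theorem mem_arcs {w : List V} {x y : V} (h : (x, y) ∈ w.zip (w.rotate 1)) :
    ∃ (i : ℕ) (hi : i < w.length), w[i] = x ∧
      w[(i + 1) % w.length]'(Nat.mod_lt _ (by omega)) = y := by
  obtain ⟨i, hi, he⟩ := List.mem_iff_getElem.mp h
  rw [List.length_zip, List.length_rotate, min_self] at hi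
  refine ⟨i, hi, ?_⟩
  rw [List.getElem_zip, List.getElem_rotate] at he
  exact ⟨congrArg Prod.fst he, congrArg Prod.snd he⟩

theorem arcs_mem {w : List V} (i : ℕ) (hi : i < w.length) :
    (w[i], w[(i + 1) % w.length]'(Nat.mod_lt _ (by omega))) ∈ w.zip (w.rotate 1) := by
  rw [List.mem_iff_getElem]
  refine ⟨i, by rw [List.length_zip, List.length_rotate, min_self]; exact hi, ?_⟩
  rw [List.getElem_zip, List.getElem_rotate]

theorem arcs_right_unique {w : List V} (hc : w.Nodup) {a b b' : V}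
    (h : (a, b) ∈ w.zip (w.rotate 1)) (h' : (a, b') ∈ w.zip (w.rotate 1)) : b = b' := by
  obtain ⟨i, hi, h1, h2⟩ := mem_arcs h
  obtain ⟨j, hj, h3, h4⟩ := mem_arcs h'
  have hij : i = j := (hc.getElem_inj_iff).mp (h1.trans h3.symm)
  subst hij
  exact h2.symm.trans h4

theorem arcs_left_unique {w : List V} (hc : w.Nodup) {a a' b : V}
    (h : (a, b) ∈ w.zip (w.rotate 1)) (h' : (a', b) ∈ w.zip (w.rotate 1)) : a = a' := by
  obtain ⟨i, hi, h1, h2⟩ := mem_arcs h
  obtain ⟨j, hj, h3, h4⟩ := mem_arcs h'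
  have hij : (i + 1) % w.length = (j + 1) % w.length :=
    (hc.getElem_inj_iff).mp (h2.trans h4.symm)
  have hij' : i = j := by
    rcases Nat.lt_or_ge (i + 1) w.length with h5 | h5 <;>
    rcases Nat.lt_or_ge (j + 1) w.length with h6 | h6
    · rw [Nat.mod_eq_of_lt h5, Nat.mod_eq_of_lt h6] at hij
      omega
    · have : j + 1 = w.length := by omega
      rw [Nat.mod_eq_of_lt h5, this, Nat.mod_self] at hij
      omega
    · have : i + 1 = w.length := by omega
      rw [Nat.mod_eq_of_lt h6, this, Nat.mod_self] at hij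
      omega
    · omega
  subst hij'
  exact h1.symm.trans h3

theorem mem_of_arc_left {w : List V} {a b : V} (h : (a, b) ∈ w.zip (w.rotate 1)) : a ∈ w := by
  obtain ⟨i, hi, h1, h2⟩ := mem_arcs h
  rw [← h1]
  exact List.getElem_mem hi

theorem mem_of_arc_right {w : List V} {a b : V} (h : (a, b) ∈ w.zip (w.rotate 1)) : b ∈ w := by
  obtain ⟨i, hi, h1, h2⟩ := mem_arcs h
  rw [← h2]
  exact List.getElem_mem _

theorem exists_out {w : List V} {a : V} (h : a ∈ w) : ∃ b, (a, b) ∈ w.zip (w.rotate 1) := by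
  obtain ⟨i, hi, rfl⟩ := List.mem_iff_getElem.mp h
  exact ⟨_, arcs_mem i hi⟩

theorem exists_in {w : List V} {b : V} (h : b ∈ w) : ∃ a, (a, b) ∈ w.zip (w.rotate 1) := by
  obtain ⟨i, hi, rfl⟩ := List.mem_iff_getElem.mp h
  have hpos : 0 < w.length := by omega
  have key := arcs_mem (w := w) ((i + w.length - 1) % w.length) (Nat.mod_lt _ hpos)
  refine ⟨w[(i + w.length - 1) % w.length]'(Nat.mod_lt _ hpos), ?_⟩
  convert key using 3
  rw [Nat.mod_add_mod]
  have : i + w.length - 1 + 1 = i + w.length := by omega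
  rw [this, Nat.add_mod_right, Nat.mod_eq_of_lt hi]

/-- A property that passes along arcs holds on the whole circuit once it holds somewhere. -/
theorem closure {w : List V} (S : V → Prop) (hS : ∀ a b, (a, b) ∈ w.zip (w.rotate 1) → S a → S b)
    {a : V} (ha : a ∈ w) (hSa : S a) : ∀ b ∈ w, S b := by
  obtain ⟨i, hi, rfl⟩ := List.mem_iff_getElem.mp ha
  have hpos : 0 < w.length := by omega
  have key : ∀ k : ℕ, S (w[(i + k) % w.length]'(Nat.mod_lt _ hpos)) := by
    intro k
    induction k with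
    | zero =>
      have : (i + 0) % w.length = i := by rw [Nat.add_zero, Nat.mod_eq_of_lt hi]
      simp only [this]
      exact hSa
    | succ k ih =>
      have h1 := hS _ _ (arcs_mem (w := w) ((i + k) % w.length) (Nat.mod_lt _ hpos)) ih
      have h2 : ((i + k) % w.length + 1) % w.length = (i + (k + 1)) % w.length := by
        rw [Nat.mod_add_mod, Nat.add_assoc]
      simp only [h2] at h1
      exact h1
  intro b hb
  obtain ⟨j, hj, rfl⟩ := List.mem_iff_getElem.mp hb
  have := key (w.length - i + j)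
  have h3 : (i + (w.length - i + j)) % w.length = j := by
    have : i + (w.length - i + j) = j + w.length := by omega
    rw [this, Nat.add_mod_right, Nat.mod_eq_of_lt hj]
  simp only [h3] at this
  exact this

end arcs

/-! ### The digraph: two centres, ten petals -/

/-- Arcs of the digraph. Vertices `0, 1` are the centres; vertex `2 + 25 s + 5 i + j` is the `j`-th
vertex of the `i`-th petal at the centre `s`, where `j = 0` is the hub, `j = 1, 2` are the
`x`-vertices and `j = 3, 4` are the `y`-vertices. -/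
def adj (a b : ℕ) : Bool :=
  if a < 2 then Nat.ble 2 b && ((b - 2) / 25 == a && Nat.ble ((b - 2) % 5) 2)
  else if b < 2 then
    (((a - 2) % 5 == 0) && !((a - 2) / 25 == b)) || (Nat.ble 3 ((a - 2) % 5) && ((a - 2) / 25 == b))
  else ((a - 2) / 5 == (b - 2) / 5) &&
    ((((a - 2) % 5 == 0) && (((b - 2) % 5 == 1) || ((b - 2) % 5 == 2))) ||
     ((((a - 2) % 5 == 1) || ((a - 2) % 5 == 2)) && (((b - 2) % 5 == 3) || ((b - 2) % 5 == 4))) ||
     ((((a - 2) % 5 == 3) || ((a - 2) % 5 == 4)) && ((b - 2) % 5 == 0)))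

def A : Finset (Fin 52 × Fin 52) := Finset.univ.filter (fun e => adj e.1.1 e.2.1 = true)

theorem mem_A {a b : Fin 52} : (a, b) ∈ A ↔ adj a.1 b.1 = true := by
  simp [A]

def allPairs : Bool := (List.range 52).all fun a => (List.range 52).all fun b =>
  !(adj a b) || !(adj b a)

theorem allPairs_ok : allPairs = true := by decide +kernel

theorem oriented (u v : Fin 52) (h : (u, v) ∈ A) : (v, u) ∉ A := by
  rw [mem_A] at h ⊢
  have h0 := allPairs_ok
  unfold allPairs at h0
  rw [List.all_eq_true] at h0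
  have h1 := h0 u.1 (List.mem_range.mpr u.2)
  rw [List.all_eq_true] at h1
  have h2 := h1 v.1 (List.mem_range.mpr v.2)
  simpa [h] using h2

theorem degs_ok : ∀ v : Fin 52, (Finset.univ.filter (fun b : Fin 52 => adj v.1 b.1 = true)).card =
    (Finset.univ.filter (fun b : Fin 52 => adj b.1 v.1 = true)).card := by decide +kernel

theorem eulerian (v : Fin 52) :
    (A.filter (fun e => e.1 = v)).card = (A.filter (fun e => e.2 = v)).card := by
  have h1 : A.filter (fun e => e.1 = v) =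
      (Finset.univ.filter (fun b : Fin 52 => adj v.1 b.1 = true)).map
        ⟨fun b => (v, b), fun _ _ h => (Prod.ext_iff.mp h).2⟩ := by
    ext ⟨a, b⟩
    simp only [Finset.mem_filter, Finset.mem_map, Finset.mem_univ, true_and, mem_A]
    constructor
    · rintro ⟨h, rfl⟩
      exact ⟨b, h, rfl⟩
    · rintro ⟨b', h, h'⟩
      obtain ⟨rfl, rfl⟩ := Prod.ext_iff.mp h'
      exact ⟨h, rfl⟩
  have h2 : A.filter (fun e => e.2 = v) =
      (Finset.univ.filter (fun b : Fin 52 => adj b.1 v.1 = true)).map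
        ⟨fun b => (b, v), fun _ _ h => (Prod.ext_iff.mp h).1⟩ := by
    ext ⟨a, b⟩
    simp only [Finset.mem_filter, Finset.mem_map, Finset.mem_univ, true_and, mem_A]
    constructor
    · rintro ⟨h, rfl⟩
      exact ⟨a, h, rfl⟩
    · rintro ⟨b', h, h'⟩
      obtain ⟨rfl, rfl⟩ := Prod.ext_iff.mp h'
      exact ⟨h, rfl⟩
  rw [h1, h2, Finset.card_map, Finset.card_map]
  exact degs_ok v

/-- The centre on the side `s`. -/
def cen (s : Fin 2) : Fin 52 := ⟨s.1, by omega⟩

/-- The `j`-th vertex of the `i`-th petal on the side `s`. -/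
def pet (s : Fin 2) (i : Fin 5) (j : Fin 5) : Fin 52 := ⟨2 + 25 * s.1 + 5 * i.1 + j.1, by omega⟩

theorem pet_inj : ∀ s s' : Fin 2, ∀ i i' j j' : Fin 5, pet s i j = pet s' i' j' →
    s = s' ∧ i = i' ∧ j = j' := by
  intro s s' i i' j j' h
  have h := congrArg Fin.val h
  simp only [pet] at h
  refine ⟨?_, ?_, ?_⟩ <;> apply Fin.ext <;> omega

theorem pet_ne_cen (s s' : Fin 2) (i j : Fin 5) : pet s i j ≠ cen s' := by
  intro h
  have h := congrArg Fin.val h
  simp only [pet, cen] at h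
  omega

theorem vertex_cases (v : Fin 52) : (∃ s, v = cen s) ∨ ∃ s i j, v = pet s i j := by
  by_cases h : v.1 < 2
  · exact Or.inl ⟨⟨v.1, h⟩, rfl⟩
  · right
    refine ⟨⟨(v.1 - 2) / 25, by omega⟩, ⟨(v.1 - 2) % 25 / 5, by omega⟩, ⟨(v.1 - 2) % 5, by omega⟩, ?_⟩
    apply Fin.ext
    simp only [pet]
    omega

/-! Neighbourhoods. -/

theorem arc_out_cen : ∀ s i, (cen s, pet s i 0) ∈ A ∧ (cen s, pet s i 1) ∈ A ∧
    (cen s, pet s i 2) ∈ A := by
  simp only [mem_A]
  decide +kernel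

theorem arc_hub : ∀ s i, (pet s i 0, pet s i 1) ∈ A ∧ (pet s i 0, pet s i 2) ∈ A ∧
    (pet s i 0, cen (1 - s)) ∈ A := by
  simp only [mem_A]
  decide +kernel

theorem arc_xy : ∀ s i, (pet s i 1, pet s i 3) ∈ A ∧ (pet s i 1, pet s i 4) ∈ A ∧
    (pet s i 2, pet s i 3) ∈ A ∧ (pet s i 2, pet s i 4) ∈ A := by
  simp only [mem_A]
  decide +kernel

theorem arc_y : ∀ s i, (pet s i 3, pet s i 0) ∈ A ∧ (pet s i 4, pet s i 0) ∈ A ∧
    (pet s i 3, cen s) ∈ A ∧ (pet s i 4, cen s) ∈ A := by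
  simp only [mem_A]
  decide +kernel

theorem out_hub : ∀ s i b, (pet s i 0, b) ∈ A → b = pet s i 1 ∨ b = pet s i 2 ∨ b = cen (1 - s) := by
  simp only [mem_A]
  decide +kernel

theorem out_x1 : ∀ s i b, (pet s i 1, b) ∈ A → b = pet s i 3 ∨ b = pet s i 4 := by
  simp only [mem_A]
  decide +kernel

theorem out_x2 : ∀ s i b, (pet s i 2, b) ∈ A → b = pet s i 3 ∨ b = pet s i 4 := by
  simp only [mem_A]
  decide +kernel

theorem out_y1 : ∀ s i b, (pet s i 3, b) ∈ A → b = pet s i 0 ∨ b = cen s := by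
  simp only [mem_A]
  decide +kernel

theorem out_y2 : ∀ s i b, (pet s i 4, b) ∈ A → b = pet s i 0 ∨ b = cen s := by
  simp only [mem_A]
  decide +kernel

/-- The set of vertices on the side `0`. -/
def side0 (v : Fin 52) : Prop := v = cen 0 ∨ ∃ i j, v = pet 0 i j

/-- The only arcs leaving the side `0` are the five arcs from the hubs to the centre `1`. -/
theorem cross : ∀ a b : Fin 52, (a, b) ∈ A → (a = cen 0 ∨ ∃ i j, a = pet 0 i j) →
    ¬ (b = cen 0 ∨ ∃ i j, b = pet 0 i j) → ∃ i, a = pet 0 i 0 ∧ b = cen 1 := by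
  simp only [mem_A]
  decide +kernel

/-- The local case analysis at a petal, on the labels of its arcs. -/
theorem local_nat (hx1 hx2 hc cx1 cx2 x1y1 x1y2 x2y1 x2y2 y1h y2h y1c y2c : ℕ)
    (n1 : hx1 = x1y1 → x1y1 ≠ y1h) (n2 : hx1 = x1y2 → x1y2 ≠ y2h)
    (n3 : hx2 = x2y1 → x2y1 ≠ y1h) (n4 : hx2 = x2y2 → x2y2 ≠ y2h)
    (d6 : y1h ≠ y1c) (d7 : y2h ≠ y2c) (e3 : y1h ≠ y2h) (e4 : cx1 ≠ hx1) (e5 : cx2 ≠ hx2)
    (e6 : x1y1 ≠ x2y1) (e7 : x1y2 ≠ x2y2)
    (f1 : hx1 = x1y1 ∨ hx1 = x1y2) (f2 : hx2 = x2y1 ∨ hx2 = x2y2)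
    (f3 : cx1 = x1y1 ∨ cx1 = x1y2) (f4 : cx2 = x2y1 ∨ cx2 = x2y2)
    (f5 : x1y1 = y1h ∨ x1y1 = y1c) (f6 : x2y1 = y1h ∨ x2y1 = y1c)
    (f7 : x1y2 = y2h ∨ x1y2 = y2c) (f8 : x2y2 = y2h ∨ x2y2 = y2c)
    (f9 : y1h = hx1 ∨ y1h = hx2 ∨ y1h = hc) (f10 : y2h = hx1 ∨ y2h = hx2 ∨ y2h = hc) : False := by
  rcases f1 with f1 | f1
  · have g5 : x1y1 = y1c := f5.resolve_left (n1 f1)
    have g6 : x2y1 = y1h := f6.resolve_right (fun h => e6 (g5.trans h.symm))
    have g2 : hx2 = x2y2 := f2.resolve_left (fun h => n3 h g6)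
    have g8 : x2y2 = y2c := f8.resolve_left (n4 g2)
    have g7 : x1y2 = y2h := f7.resolve_right (fun h => e7 (h.trans g8.symm))
    have g3 : cx1 = x1y2 := f3.resolve_left (fun h => e4 (h.trans f1.symm))
    have g4 : cx2 = x2y1 := f4.resolve_right (fun h => e5 (h.trans g2.symm))
    have g9 : y1h = hc := by
      rcases f9 with h | h | h
      · exact absurd (h.trans (f1.trans g5)) d6
      · exact absurd (g4.trans (g6.trans h)) e5
      · exact h
    have g10 : y2h = hc := by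
      rcases f10 with h | h | h
      · exact absurd (g3.trans (g7.trans h)) e4
      · exact absurd (h.trans (g2.trans g8)) d7
      · exact h
    exact e3 (g9.trans g10.symm)
  · have g7 : x1y2 = y2c := f7.resolve_left (n2 f1)
    have g8 : x2y2 = y2h := f8.resolve_right (fun h => e7 (g7.trans h.symm))
    have g2 : hx2 = x2y1 := f2.resolve_right (fun h => n4 h g8)
    have g6 : x2y1 = y1c := f6.resolve_left (n3 g2)
    have g5 : x1y1 = y1h := f5.resolve_right (fun h => e6 (h.trans g6.symm))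
    have g3 : cx1 = x1y1 := f3.resolve_right (fun h => e4 (h.trans f1.symm))
    have g4 : cx2 = x2y2 := f4.resolve_left (fun h => e5 (h.trans g2.symm))
    have g9 : y1h = hc := by
      rcases f9 with h | h | h
      · exact absurd (g3.trans (g5.trans h)) e4
      · exact absurd (h.trans (g2.trans g6)) d6
      · exact h
    have g10 : y2h = hc := by
      rcases f10 with h | h | h
      · exact absurd (h.trans (f1.trans g7)) d7
      · exact absurd (g4.trans (g8.trans h)) e5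
      · exact h
    exact e3 (g9.trans g10.symm)

attribute [irreducible] A

/-- In every petal one of the circuits is a triangle through the hub that avoids the centres. -/
theorem petal_triangle (o : Fin 52 → Fin 52 → ℕ)
    (R1 : ∀ a b b', (a, b) ∈ A → (a, b') ∈ A → o a b = o a b' → b = b')
    (R2 : ∀ a a' b, (a, b) ∈ A → (a', b) ∈ A → o a b = o a' b → a = a')
    (R3 : ∀ a b, (a, b) ∈ A → ∃ b', (b, b') ∈ A ∧ o b b' = o a b) (s : Fin 2) (i : Fin 5) :
    ∃ x y : Fin 5, (x = 1 ∨ x = 2) ∧ (y = 3 ∨ y = 4) ∧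
      o (pet s i 0) (pet s i x) = o (pet s i x) (pet s i y) ∧
      o (pet s i x) (pet s i y) = o (pet s i y) (pet s i 0) := by
  by_contra hcon
  push Not at hcon
  have n1 := hcon 1 3 (Or.inl rfl) (Or.inl rfl)
  have n2 := hcon 1 4 (Or.inl rfl) (Or.inr rfl)
  have n3 := hcon 2 3 (Or.inr rfl) (Or.inl rfl)
  have n4 := hcon 2 4 (Or.inr rfl) (Or.inr rfl)
  clear hcon
  obtain ⟨ach, acx1, acx2⟩ := arc_out_cen s i
  obtain ⟨ahx1, ahx2, ahc⟩ := arc_hub s i
  obtain ⟨a13, a14, a23, a24⟩ := arc_xy s i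
  obtain ⟨a30, a40, a3c, a4c⟩ := arc_y s i
  have pne : ∀ j j' : Fin 5, j ≠ j' → pet s i j ≠ pet s i j' :=
    fun j j' hj h => hj (pet_inj _ _ _ _ _ _ h).2.2
  have d6 : o (pet s i 3) (pet s i 0) ≠ o (pet s i 3) (cen s) :=
    fun h => pet_ne_cen _ _ _ _ (R1 _ _ _ a30 a3c h)
  have d7 : o (pet s i 4) (pet s i 0) ≠ o (pet s i 4) (cen s) :=
    fun h => pet_ne_cen _ _ _ _ (R1 _ _ _ a40 a4c h)
  -- distinct in-arcs
  have e3 : o (pet s i 3) (pet s i 0) ≠ o (pet s i 4) (pet s i 0) :=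
    fun h => pne 3 4 (by decide) (R2 _ _ _ a30 a40 h)
  have e4 : o (cen s) (pet s i 1) ≠ o (pet s i 0) (pet s i 1) :=
    fun h => pet_ne_cen _ _ _ _ (R2 _ _ _ acx1 ahx1 h).symm
  have e5 : o (cen s) (pet s i 2) ≠ o (pet s i 0) (pet s i 2) :=
    fun h => pet_ne_cen _ _ _ _ (R2 _ _ _ acx2 ahx2 h).symm
  have e6 : o (pet s i 1) (pet s i 3) ≠ o (pet s i 2) (pet s i 3) :=
    fun h => pne 1 2 (by decide) (R2 _ _ _ a13 a23 h)
  have e7 : o (pet s i 1) (pet s i 4) ≠ o (pet s i 2) (pet s i 4) :=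
    fun h => pne 1 2 (by decide) (R2 _ _ _ a14 a24 h)
  -- successors
  have f1 : o (pet s i 0) (pet s i 1) = o (pet s i 1) (pet s i 3) ∨
      o (pet s i 0) (pet s i 1) = o (pet s i 1) (pet s i 4) := by
    obtain ⟨b, hb, hb'⟩ := R3 _ _ ahx1
    rcases out_x1 s i b hb with rfl | rfl
    · exact Or.inl hb'.symm
    · exact Or.inr hb'.symm
  have f2 : o (pet s i 0) (pet s i 2) = o (pet s i 2) (pet s i 3) ∨
      o (pet s i 0) (pet s i 2) = o (pet s i 2) (pet s i 4) := by
    obtain ⟨b, hb, hb'⟩ := R3 _ _ ahx2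
    rcases out_x2 s i b hb with rfl | rfl
    · exact Or.inl hb'.symm
    · exact Or.inr hb'.symm
  have f3 : o (cen s) (pet s i 1) = o (pet s i 1) (pet s i 3) ∨
      o (cen s) (pet s i 1) = o (pet s i 1) (pet s i 4) := by
    obtain ⟨b, hb, hb'⟩ := R3 _ _ acx1
    rcases out_x1 s i b hb with rfl | rfl
    · exact Or.inl hb'.symm
    · exact Or.inr hb'.symm
  have f4 : o (cen s) (pet s i 2) = o (pet s i 2) (pet s i 3) ∨
      o (cen s) (pet s i 2) = o (pet s i 2) (pet s i 4) := by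
    obtain ⟨b, hb, hb'⟩ := R3 _ _ acx2
    rcases out_x2 s i b hb with rfl | rfl
    · exact Or.inl hb'.symm
    · exact Or.inr hb'.symm
  have f5 : o (pet s i 1) (pet s i 3) = o (pet s i 3) (pet s i 0) ∨
      o (pet s i 1) (pet s i 3) = o (pet s i 3) (cen s) := by
    obtain ⟨b, hb, hb'⟩ := R3 _ _ a13
    rcases out_y1 s i b hb with rfl | rfl
    · exact Or.inl hb'.symm
    · exact Or.inr hb'.symm
  have f6 : o (pet s i 2) (pet s i 3) = o (pet s i 3) (pet s i 0) ∨
      o (pet s i 2) (pet s i 3) = o (pet s i 3) (cen s) := by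
    obtain ⟨b, hb, hb'⟩ := R3 _ _ a23
    rcases out_y1 s i b hb with rfl | rfl
    · exact Or.inl hb'.symm
    · exact Or.inr hb'.symm
  have f7 : o (pet s i 1) (pet s i 4) = o (pet s i 4) (pet s i 0) ∨
      o (pet s i 1) (pet s i 4) = o (pet s i 4) (cen s) := by
    obtain ⟨b, hb, hb'⟩ := R3 _ _ a14
    rcases out_y2 s i b hb with rfl | rfl
    · exact Or.inl hb'.symm
    · exact Or.inr hb'.symm
  have f8 : o (pet s i 2) (pet s i 4) = o (pet s i 4) (pet s i 0) ∨
      o (pet s i 2) (pet s i 4) = o (pet s i 4) (cen s) := by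
    obtain ⟨b, hb, hb'⟩ := R3 _ _ a24
    rcases out_y2 s i b hb with rfl | rfl
    · exact Or.inl hb'.symm
    · exact Or.inr hb'.symm
  have f9 : o (pet s i 3) (pet s i 0) = o (pet s i 0) (pet s i 1) ∨
      o (pet s i 3) (pet s i 0) = o (pet s i 0) (pet s i 2) ∨
      o (pet s i 3) (pet s i 0) = o (pet s i 0) (cen (1 - s)) := by
    obtain ⟨b, hb, hb'⟩ := R3 _ _ a30
    rcases out_hub s i b hb with rfl | rfl | rfl
    · exact Or.inl hb'.symm
    · exact Or.inr (Or.inl hb'.symm)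
    · exact Or.inr (Or.inr hb'.symm)
  have f10 : o (pet s i 4) (pet s i 0) = o (pet s i 0) (pet s i 1) ∨
      o (pet s i 4) (pet s i 0) = o (pet s i 0) (pet s i 2) ∨
      o (pet s i 4) (pet s i 0) = o (pet s i 0) (cen (1 - s)) := by
    obtain ⟨b, hb, hb'⟩ := R3 _ _ a40
    rcases out_hub s i b hb with rfl | rfl | rfl
    · exact Or.inl hb'.symm
    · exact Or.inr (Or.inl hb'.symm)
    · exact Or.inr (Or.inr hb'.symm)
  exact local_nat _ _ _ _ _ _ _ _ _ _ _ _ _ n1 n2 n3 n4 d6 d7 e3 e4 e5 e6 e7 f1 f2 f3 f4 f5 f6 f7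
    f8 f9 f10

theorem arc_out_cen' : ∀ (s : Fin 2) (i : Fin 5) (j : Fin 3),
    (cen s, pet s i (Fin.castLE (by decide) j)) ∈ A := by
  simp only [mem_A]
  decide +kernel

/-- The negation of the preceding statement: Every oriented graph on n vertices in which each vertex has equal in- and out-degree splits into at most 2n/3 directed cycles, with every arc lying on exactly one cycle. -/
theorem result :
    ¬ (∀ (n : ℕ) (A : Finset (Fin n × Fin n)),
      (∀ u v : Fin n, (u, v) ∈ A → (v, u) ∉ A) →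
      (∀ v : Fin n, (A.filter (fun e => e.1 = v)).card = (A.filter (fun e => e.2 = v)).card) →
      ∃ L : List (List (Fin n)),
        3 * L.length ≤ 2 * n ∧
        (∀ c ∈ L, c.Nodup ∧ 2 ≤ c.length ∧ ∀ e ∈ c.zip (c.rotate 1), e ∈ A) ∧
        (∀ e ∈ A, ∃ c ∈ L, e ∈ c.zip (c.rotate 1)) ∧
        L.Pairwise (fun c d => ∀ e ∈ c.zip (c.rotate 1), e ∉ d.zip (d.rotate 1))) := by
  classical
  intro H
  obtain ⟨L, h1, h2, h3, h4⟩ := H 52 A oriented eulerian
  -- the circuit through each arc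
  have own : ∀ a b : Fin 52, ∃ k : ℕ, (a, b) ∈ A →
      ∃ hk : k < L.length, (a, b) ∈ (L[k]).zip ((L[k]).rotate 1) := by
    intro a b
    by_cases h : (a, b) ∈ A
    · obtain ⟨w, hw, he⟩ := h3 _ h
      obtain ⟨k, hk, rfl⟩ := List.mem_iff_getElem.mp hw
      exact ⟨k, fun _ => ⟨hk, he⟩⟩
    · exact ⟨0, fun h' => absurd h' h⟩
  choose o ho using own
  have nod : ∀ k (hk : k < L.length), (L[k]).Nodup := fun k hk => (h2 _ (List.getElem_mem hk)).1
  have inA : ∀ k (hk : k < L.length) a b, (a, b) ∈ (L[k]).zip ((L[k]).rotate 1) → (a, b) ∈ A :=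
    fun k hk a b h => (h2 _ (List.getElem_mem hk)).2.2 _ h
  have uniq : ∀ k (hk : k < L.length) a b, (a, b) ∈ (L[k]).zip ((L[k]).rotate 1) → o a b = k := by
    intro k hk a b h
    obtain ⟨hk', h'⟩ := ho a b (inA k hk a b h)
    rw [List.pairwise_iff_getElem] at h4
    rcases Nat.lt_trichotomy (o a b) k with hlt | heq | hgt
    · exact absurd h (h4 _ _ hk' hk hlt _ h')
    · exact heq
    · exact absurd h' (h4 _ _ hk hk' hgt _ h)
  have R1 : ∀ a b b', (a, b) ∈ A → (a, b') ∈ A → o a b = o a b' → b = b' := by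
    intro a b b' hb hb' h
    obtain ⟨hk, hm⟩ := ho a b hb
    obtain ⟨hk', hm'⟩ := ho a b' hb'
    simp only [← h] at hm'
    exact arcs_right_unique (nod _ hk) hm hm'
  have R2 : ∀ a a' b, (a, b) ∈ A → (a', b) ∈ A → o a b = o a' b → a = a' := by
    intro a a' b hb hb' h
    obtain ⟨hk, hm⟩ := ho a b hb
    obtain ⟨hk', hm'⟩ := ho a' b hb'
    simp only [← h] at hm'
    exact arcs_left_unique (nod _ hk) hm hm'
  have R3 : ∀ a b, (a, b) ∈ A → ∃ b', (b, b') ∈ A ∧ o b b' = o a b := by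
    intro a b hb
    obtain ⟨hk, hm⟩ := ho a b hb
    obtain ⟨b', hb'⟩ := exists_out (mem_of_arc_right hm)
    exact ⟨b', inA _ hk _ _ hb', uniq _ hk _ _ hb'⟩
  -- the triangles
  have tri : ∀ (s : Fin 2) (i : Fin 5), ∃ k : ℕ, ∃ hk : k < L.length,
      pet s i 0 ∈ L[k] ∧ ∀ v ∈ L[k], ∃ j, v = pet s i j := by
    intro s i
    obtain ⟨x, y, hx, hy, hxy, hyh⟩ := petal_triangle o R1 R2 R3 s i
    have ax : (pet s i 0, pet s i x) ∈ A := by
      rcases hx with rfl | rfl
      · exact (arc_hub s i).1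
      · exact (arc_hub s i).2.1
    have axy : (pet s i x, pet s i y) ∈ A := by
      obtain ⟨b1, b2, b3, b4⟩ := arc_xy s i
      rcases hx with rfl | rfl <;> rcases hy with rfl | rfl <;> assumption
    have ayh : (pet s i y, pet s i 0) ∈ A := by
      rcases hy with rfl | rfl
      · exact (arc_y s i).1
      · exact (arc_y s i).2.1
    obtain ⟨hk, m1⟩ := ho _ _ ax
    obtain ⟨hk2, m2⟩ := ho _ _ axy
    obtain ⟨hk3, m3⟩ := ho _ _ ayh
    simp only [← hxy] at m2 hyh
    simp only [← hyh] at m3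
    refine ⟨o (pet s i 0) (pet s i x), hk, mem_of_arc_left m1, ?_⟩
    have hcl := closure (w := L[o (pet s i 0) (pet s i x)])
      (fun v => v = pet s i 0 ∨ v = pet s i x ∨ v = pet s i y) (by
        intro a b hab ha
        rcases ha with rfl | rfl | rfl
        · exact Or.inr (Or.inl (arcs_right_unique (nod _ hk) hab m1))
        · exact Or.inr (Or.inr (arcs_right_unique (nod _ hk) hab m2))
        · exact Or.inl (arcs_right_unique (nod _ hk) hab m3))
      (mem_of_arc_left m1) (Or.inl rfl)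
    intro v hv
    rcases hcl v hv with h | h | h
    · exact ⟨0, h⟩
    · exact ⟨x, h⟩
    · exact ⟨y, h⟩
  choose kk hkk hub petv using tri
  -- circuits through the centres
  let X : Fin 2 → Finset ℕ := fun s => Finset.univ.image
    (fun p : Fin 5 × Fin 3 => o (cen s) (pet s p.1 (Fin.castLE (by decide) p.2)))
  have hXcard : ∀ s, (X s).card = 15 := by
    intro s
    have : Function.Injective
        (fun p : Fin 5 × Fin 3 => o (cen s) (pet s p.1 (Fin.castLE (by decide) p.2))) := by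
      intro p q hpq
      have := R1 _ _ _ (arc_out_cen' s p.1 p.2) (arc_out_cen' s q.1 q.2) hpq
      obtain ⟨_, h5, h6⟩ := pet_inj _ _ _ _ _ _ this
      have h7 := congrArg Fin.val h6
      exact Prod.ext h5 (Fin.ext h7)
    rw [Finset.card_image_of_injective _ this]
    simp
  have hXmem : ∀ s, ∀ k ∈ X s, ∃ hk : k < L.length, cen s ∈ L[k] := by
    intro s k hk
    simp only [X, Finset.mem_image, Finset.mem_univ, true_and] at hk
    obtain ⟨p, rfl⟩ := hk
    obtain ⟨hk, hm⟩ := ho _ _ (arc_out_cen' s p.1 p.2)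
    exact ⟨hk, mem_of_arc_left hm⟩
  have hinter : X 0 ∩ X 1 ⊆ Finset.univ.image (fun i : Fin 5 => o (pet 0 i 0) (cen 1)) := by
    intro k hk
    rw [Finset.mem_inter] at hk
    obtain ⟨hk0, hc0⟩ := hXmem 0 k hk.1
    obtain ⟨_, hc1⟩ := hXmem 1 k hk.2
    have : ∃ a b, (a, b) ∈ (L[k]).zip ((L[k]).rotate 1) ∧
        (a = cen 0 ∨ ∃ i j, a = pet 0 i j) ∧ ¬ (b = cen 0 ∨ ∃ i j, b = pet 0 i j) := by
      by_contra hcon
      push Not at hcon
      have hcl := closure (w := L[k]) (fun v => v = cen 0 ∨ ∃ i j, v = pet 0 i j)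
        (fun a b hab ha => hcon a b hab ha) hc0 (Or.inl rfl) _ hc1
      rcases hcl with h | ⟨i, j, h⟩
      · exact absurd h (by decide)
      · exact pet_ne_cen _ _ _ _ h.symm
    obtain ⟨a, b, hab, ha, hb⟩ := this
    obtain ⟨i, rfl, rfl⟩ := cross a b (inA _ hk0 _ _ hab) ha hb
    rw [Finset.mem_image]
    exact ⟨i, Finset.mem_univ _, uniq _ hk0 _ _ hab⟩
  let Y : Finset ℕ := Finset.univ.image (fun p : Fin 2 × Fin 5 => kk p.1 p.2)
  have hYcard : Y.card = 10 := by
    have : Function.Injective (fun p : Fin 2 × Fin 5 => kk p.1 p.2) := by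
      intro p q hpq
      simp only at hpq
      have h5 := hub p.1 p.2
      simp only [hpq] at h5
      obtain ⟨j, hj⟩ := petv q.1 q.2 _ h5
      obtain ⟨h6, h7, _⟩ := pet_inj _ _ _ _ _ _ hj
      exact Prod.ext h6 h7
    rw [Finset.card_image_of_injective _ this]
    simp
  have hdis : Disjoint (X 0 ∪ X 1) Y := by
    rw [Finset.disjoint_left]
    intro k hk hk'
    simp only [Y, Finset.mem_image, Finset.mem_univ, true_and] at hk'
    obtain ⟨p, rfl⟩ := hk'
    rw [Finset.mem_union] at hk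
    rcases hk with hk | hk
    · obtain ⟨_, hc⟩ := hXmem _ _ hk
      obtain ⟨j, hj⟩ := petv _ _ _ hc
      exact pet_ne_cen _ _ _ _ hj.symm
    · obtain ⟨_, hc⟩ := hXmem _ _ hk
      obtain ⟨j, hj⟩ := petv _ _ _ hc
      exact pet_ne_cen _ _ _ _ hj.symm
  have hsub : (X 0 ∪ X 1) ∪ Y ⊆ Finset.range L.length := by
    intro k hk
    rw [Finset.mem_range]
    rw [Finset.mem_union, Finset.mem_union] at hk
    rcases hk with (hk | hk) | hk
    · exact (hXmem _ _ hk).1
    · exact (hXmem _ _ hk).1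
    · simp only [Y, Finset.mem_image, Finset.mem_univ, true_and] at hk
      obtain ⟨p, rfl⟩ := hk
      exact hkk _ _
  have c1 := Finset.card_le_card hsub
  rw [Finset.card_union_of_disjoint hdis, Finset.card_range, hYcard] at c1
  have c2 := Finset.card_union_add_card_inter (X 0) (X 1)
  rw [hXcard, hXcard] at c2
  have c3 := (Finset.card_le_card hinter).trans Finset.card_image_le
  simp only [Finset.card_univ, Fintype.card_fin] at c3
  omega

end Pool.Agent.S11856
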