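import Pool.Statements.S11943
import Pool.Agent.Lib.MP_df5da3_co.Final

set_option autoImplicit false
open Pool Pool.MP_df5da3_co

namespace Pool.Agent.S11943

open Pool.Agent.Lib.MP_df5da3_co in
/-- two-sided bounds for the extremal number -/
lemma bounds (n : ℕ) :
    n.choose 2 + 1 ≤ sInf {m : ℕ | ∀ H : Finset (Finset (Fin (n + 1))),
            (∀ e ∈ H, e.card = 3) → m ≤ H.card →
            ∃ A ∈ H, ∃ B ∈ H, ∃ C ∈ H, ∃ D ∈ H,
              Disjoint A B ∧ Disjoint C D ∧ A ∪ B = C ∪ D ∧ A ≠ C ∧ A ≠ D} ∧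
    sInf {m : ℕ | ∀ H : Finset (Finset (Fin (n + 1))),
            (∀ e ∈ H, e.card = 3) → m ≤ H.card →
            ∃ A ∈ H, ∃ B ∈ H, ∃ C ∈ H, ∃ D ∈ H,
              Disjoint A B ∧ Disjoint C D ∧ A ∪ B = C ∪ D ∧ A ≠ C ∧ A ≠ D} ≤
      (n + 1).choose 2 + 1 := by
  have hmem : (n + 1).choose 2 + 1 ∈ {m : ℕ | ∀ H : Finset (Finset (Fin (n + 1))),
            (∀ e ∈ H, e.card = 3) → m ≤ H.card →
            ∃ A ∈ H, ∃ B ∈ H, ∃ C ∈ H, ∃ D ∈ H,
              Disjoint A B ∧ Disjoint C D ∧ A ∪ B = C ∪ D ∧ A ≠ C ∧ A ≠ D} := by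
    intro H h3 hm
    by_contra hR
    have := card_le_choose h3 hR
    rw [Fintype.card_fin] at this
    omega
  refine ⟨?_, Nat.sInf_le hmem⟩
  apply le_csInf ⟨_, hmem⟩
  intro m hm
  by_contra hcon
  obtain ⟨H, h3, hc, hR⟩ := star_family n
  exact hR (hm H h3 (by omega))

/-- Let f(n) be the least m such that every 3-uniform hypergraph on n vertices with at least m edges has two different pairs of disjoint edges with the same union. Then f(n) divided by (n choose 2) tends to 1. -/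
theorem result :
    Filter.Tendsto
      (fun n : ℕ =>
        ((sInf {m : ℕ | ∀ H : Finset (Finset (Fin n)),
            (∀ e ∈ H, e.card = 3) → m ≤ H.card →
            ∃ A ∈ H, ∃ B ∈ H, ∃ C ∈ H, ∃ D ∈ H,
              Disjoint A B ∧ Disjoint C D ∧ A ∪ B = C ∪ D ∧ A ≠ C ∧ A ≠ D} : ℕ) : ℝ)
          / ((n.choose 2 : ℕ) : ℝ))
      Filter.atTop (nhds 1) := by
  have hinv : Filter.Tendsto (fun n : ℕ => (2:ℝ) / (n:ℝ)) Filter.atTop (nhds 0) :=
    tendsto_const_div_atTop_nhds_zero_nat 2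
  have hlow : Filter.Tendsto (fun n : ℕ => (1:ℝ) - 2 / (n:ℝ)) Filter.atTop (nhds 1) := by
    have := hinv.const_sub 1
    simpa using this
  have hup : Filter.Tendsto (fun n : ℕ => (1:ℝ) + 2 / (n:ℝ)) Filter.atTop (nhds 1) := by
    have := hinv.const_add 1
    simpa using this
  refine tendsto_of_tendsto_of_tendsto_of_le_of_le' hlow hup ?_ ?_
  · filter_upwards [Filter.eventually_ge_atTop 3] with n hn
    obtain ⟨k, rfl⟩ := Nat.exists_eq_add_of_le hn
    have hb := (bounds (2 + k)).1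
    have e : 2 + k + 1 = 3 + k := by ring
    rw [e] at hb
    set s := sInf {m : ℕ | ∀ H : Finset (Finset (Fin (3 + k))),
            (∀ e ∈ H, e.card = 3) → m ≤ H.card →
            ∃ A ∈ H, ∃ B ∈ H, ∃ C ∈ H, ∃ D ∈ H,
              Disjoint A B ∧ Disjoint C D ∧ A ∪ B = C ∪ D ∧ A ≠ C ∧ A ≠ D} with hs
    have h1 : ((2 + k).choose 2 : ℝ) = (2 + k) * (1 + k) / 2 := by
      rw [Nat.cast_choose_two]; push_cast; ring
    have h2 : ((3 + k).choose 2 : ℝ) = (3 + k) * (2 + k) / 2 := by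
      rw [Nat.cast_choose_two]; push_cast; ring
    have hb' : ((2 + k).choose 2 : ℝ) + 1 ≤ (s : ℝ) := by exact_mod_cast hb
    rw [h1] at hb'
    rw [h2, le_div_iff₀ (by positivity)]
    push_cast
    have h3 : (1 - 2 / (3 + (k:ℝ))) * ((3 + k) * (2 + k) / 2) = (2 + k) * (1 + k) / 2 := by
      field_simp
      ring
    rw [h3]
    linarith
  · filter_upwards [Filter.eventually_ge_atTop 3] with n hn
    obtain ⟨k, rfl⟩ := Nat.exists_eq_add_of_le hn
    have hb := (bounds (2 + k)).2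
    have e : 2 + k + 1 = 3 + k := by ring
    rw [e] at hb
    set s := sInf {m : ℕ | ∀ H : Finset (Finset (Fin (3 + k))),
            (∀ e ∈ H, e.card = 3) → m ≤ H.card →
            ∃ A ∈ H, ∃ B ∈ H, ∃ C ∈ H, ∃ D ∈ H,
              Disjoint A B ∧ Disjoint C D ∧ A ∪ B = C ∪ D ∧ A ≠ C ∧ A ≠ D} with hs
    have h2 : ((3 + k).choose 2 : ℝ) = (3 + k) * (2 + k) / 2 := by
      rw [Nat.cast_choose_two]; push_cast; ring
    have hb' : (s : ℝ) ≤ ((3 + k).choose 2 : ℝ) + 1 := by exact_mod_cast hb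
    rw [h2] at hb' ⊢
    rw [div_le_iff₀ (by positivity)]
    push_cast
    have h3 : (1 + 2 / (3 + (k:ℝ))) * ((3 + k) * (2 + k) / 2) = (3 + k) * (2 + k) / 2 + (2 + k) := by
      field_simp
    rw [h3]
    have : (0:ℝ) ≤ k := by positivity
    linarith

end Pool.Agent.S11943
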