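import Pool.Statements.S12612

set_option autoImplicit false
open Pool Pool.MP_fd6c89_co

namespace Pool.Agent.S12612

/-- A finite set of naturals all of whose sums of two distinct members are different. -/
def WeakSidon (A : Finset ℕ) : Prop :=
  ∀ a ∈ A, ∀ b ∈ A, ∀ c ∈ A, ∀ d ∈ A, a ≠ b → c ≠ d → a + b = c + d →
    (a = c ∧ b = d) ∨ (a = d ∧ b = c)

/-- pairs `a < b` of members -/
def pairs (A : Finset ℕ) : Finset (ℕ × ℕ) := (A ×ˢ A).filter (fun q => q.1 < q.2)

theorem card_excess (A : Finset ℕ) (h : WeakSidon A) :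
    ((pairs A).filter (fun q => 2 * q.2 - q.1 ∈ A)).card ≤ A.card := by
  apply Finset.card_le_card_of_injOn (fun q => q.2)
  · intro q hq
    simp only [pairs, Finset.coe_filter, Finset.mem_filter, Finset.mem_product,
      Set.mem_ofPred_eq] at hq
    exact hq.1.1.2
  · intro q hq r hr hqr
    simp only [pairs, Finset.coe_filter, Finset.mem_filter, Finset.mem_product,
      Set.mem_ofPred_eq] at hq hr hqr
    obtain ⟨⟨⟨h1, h2⟩, h3⟩, h4⟩ := hq
    obtain ⟨⟨⟨k1, k2⟩, k3⟩, k4⟩ := hr
    have := h q.1 h1 (2 * q.2 - q.1) h4 r.1 k1 (2 * r.2 - r.1) k4 (by omega) (by omega) (by omega)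
    rcases this with ⟨e1, _⟩ | ⟨e1, _⟩
    · exact Prod.ext e1 hqr
    · omega

theorem inj_rest (A : Finset ℕ) (h : WeakSidon A) :
    Set.InjOn (fun q : ℕ × ℕ => q.2 - q.1)
      ((pairs A).filter (fun q => ¬ (2 * q.2 - q.1 ∈ A)) : Finset (ℕ × ℕ)) := by
  intro q hq r hr hqr
  simp only [pairs, Finset.coe_filter, Finset.mem_filter, Finset.mem_product,
    Set.mem_ofPred_eq] at hq hr hqr
  obtain ⟨⟨⟨h1, h2⟩, h3⟩, h4⟩ := hq
  obtain ⟨⟨⟨k1, k2⟩, k3⟩, k4⟩ := hr
  by_contra hne
  have hq1 : q.2 ≠ r.1 := by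
    intro e
    apply h4
    have : 2 * q.2 - q.1 = r.2 := by omega
    rw [this]; exact k2
  have hr1 : r.2 ≠ q.1 := by
    intro e
    apply k4
    have : 2 * r.2 - r.1 = q.2 := by omega
    rw [this]; exact h2
  have := h q.1 h1 r.2 k2 r.1 k1 q.2 h2 (fun e => hr1 e.symm) (fun e => hq1 e.symm) (by omega)
  rcases this with ⟨e1, e2⟩ | ⟨e1, _⟩
  · exact hne (Prod.ext e1 e2.symm)
  · omega

theorem sum_pairs (A : Finset ℕ) (h : WeakSidon A) (u : ℕ) :
    ∑ q ∈ pairs A, (u - (q.2 - q.1)) ≤ A.card * u + ∑ d ∈ Finset.Ico 1 u, (u - d) := by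
  classical
  rw [← Finset.sum_filter_add_sum_filter_not (pairs A) (fun q => 2 * q.2 - q.1 ∈ A)]
  apply Nat.add_le_add
  · calc ∑ q ∈ (pairs A).filter (fun q => 2 * q.2 - q.1 ∈ A), (u - (q.2 - q.1))
        ≤ ∑ q ∈ (pairs A).filter (fun q => 2 * q.2 - q.1 ∈ A), u :=
          Finset.sum_le_sum (fun _ _ => Nat.sub_le _ _)
      _ = ((pairs A).filter (fun q => 2 * q.2 - q.1 ∈ A)).card * u := by simp
      _ ≤ A.card * u := Nat.mul_le_mul_right _ (card_excess A h)
  · have e := Finset.sum_image (f := fun d => u - d) (inj_rest A h)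
    rw [← e]
    apply Finset.sum_le_sum_of_ne_zero
    intro d hd hne
    rw [Finset.mem_image] at hd
    obtain ⟨q, hq, rfl⟩ := hd
    simp only [pairs, Finset.mem_filter, Finset.mem_product] at hq
    rw [Finset.mem_Ico]
    omega

theorem sum_mul (A : Finset ℕ) (N u : ℕ) (hN : ∀ a ∈ A, a < N) :
    ∑ x ∈ Finset.range (N + u), ∑ a ∈ A, (if a ≤ x ∧ x < a + u then 1 else 0) = A.card * u := by
  rw [Finset.sum_comm, Finset.card_eq_sum_ones, Finset.sum_mul]
  apply Finset.sum_congr rfl
  intro a ha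
  rw [← Finset.card_filter]
  have : (Finset.range (N + u)).filter (fun x => a ≤ x ∧ x < a + u) = Finset.Ico a (a + u) := by
    ext x
    have := hN a ha
    simp only [Finset.mem_filter, Finset.mem_range, Finset.mem_Ico]
    omega
  rw [this]
  simp

theorem sum_sq (A : Finset ℕ) (N u : ℕ) :
    ∑ x ∈ Finset.range (N + u), (∑ a ∈ A, (if a ≤ x ∧ x < a + u then 1 else 0)) ^ 2 ≤
      A.card * u + 2 * ∑ q ∈ pairs A, (u - (q.2 - q.1)) := by
  classical
  have h1 : ∀ x, (∑ a ∈ A, (if a ≤ x ∧ x < a + u then 1 else 0)) ^ 2 =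
      ∑ q ∈ A ×ˢ A, (if (q.1 ≤ x ∧ x < q.1 + u) ∧ (q.2 ≤ x ∧ x < q.2 + u) then 1 else 0) := by
    intro x
    rw [sq, Finset.sum_mul_sum, Finset.sum_product]
    apply Finset.sum_congr rfl
    intro a _
    apply Finset.sum_congr rfl
    intro b _
    by_cases h1 : a ≤ x ∧ x < a + u <;> by_cases h2 : b ≤ x ∧ x < b + u <;> simp [h1, h2]
  simp only [h1]
  rw [Finset.sum_comm]
  have h2 : ∀ q ∈ A ×ˢ A, ∑ x ∈ Finset.range (N + u),
      (if (q.1 ≤ x ∧ x < q.1 + u) ∧ (q.2 ≤ x ∧ x < q.2 + u) then 1 else 0) ≤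
      u - (q.2 - q.1) - (q.1 - q.2) := by
    intro q _
    rw [← Finset.card_filter]
    have : (Finset.range (N + u)).filter
        (fun x => (q.1 ≤ x ∧ x < q.1 + u) ∧ (q.2 ≤ x ∧ x < q.2 + u)) ⊆
        Finset.Ico (max q.1 q.2) (min q.1 q.2 + u) := by
      intro x
      simp only [Finset.mem_filter, Finset.mem_range, Finset.mem_Ico]
      omega
    refine (Finset.card_le_card this).trans ?_
    rw [Nat.card_Ico]
    omega
  refine (Finset.sum_le_sum h2).trans ?_
  have h3 : A ×ˢ A = (A ×ˢ A).filter (fun q => q.1 = q.2) ∪ (pairs A ∪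
      (A ×ˢ A).filter (fun q => q.2 < q.1)) := by
    ext q
    simp only [pairs, Finset.mem_union, Finset.mem_filter]
    constructor
    · intro h
      rcases lt_trichotomy q.1 q.2 with h' | h' | h'
      · exact Or.inr (Or.inl ⟨h, h'⟩)
      · exact Or.inl ⟨h, h'⟩
      · exact Or.inr (Or.inr ⟨h, h'⟩)
    · rintro (h | h | h) <;> exact h.1
  rw [h3, Finset.sum_union, Finset.sum_union]
  · have e1 : ∑ q ∈ (A ×ˢ A).filter (fun q => q.1 = q.2), (u - (q.2 - q.1) - (q.1 - q.2)) =
        A.card * u := by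
      have : ∑ q ∈ (A ×ˢ A).filter (fun q => q.1 = q.2), (u - (q.2 - q.1) - (q.1 - q.2)) =
          ∑ a ∈ A, u := by
        apply Finset.sum_nbij' (fun q => q.1) (fun a => (a, a))
        · intro q hq
          simp only [Finset.mem_filter, Finset.mem_product] at hq
          exact hq.1.1
        · intro a ha
          simp only [Finset.mem_filter, Finset.mem_product]
          exact ⟨⟨ha, ha⟩, trivial⟩
        · intro q hq
          simp only [Finset.mem_filter, Finset.mem_product] at hq
          exact Prod.ext rfl hq.2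
        · intro a _; rfl
        · intro q hq
          simp only [Finset.mem_filter, Finset.mem_product] at hq
          rw [hq.2]
          omega
      rw [this]
      simp
    have e2 : ∑ q ∈ pairs A, (u - (q.2 - q.1) - (q.1 - q.2)) =
        ∑ q ∈ pairs A, (u - (q.2 - q.1)) := by
      apply Finset.sum_congr rfl
      intro q hq
      simp only [pairs, Finset.mem_filter] at hq
      omega
    have e3 : ∑ q ∈ (A ×ˢ A).filter (fun q => q.2 < q.1), (u - (q.2 - q.1) - (q.1 - q.2)) =
        ∑ q ∈ pairs A, (u - (q.2 - q.1)) := by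
      apply Finset.sum_nbij' (fun q => (q.2, q.1)) (fun q => (q.2, q.1))
      · intro q hq
        simp only [pairs, Finset.mem_filter, Finset.mem_product] at hq ⊢
        tauto
      · intro q hq
        simp only [pairs, Finset.mem_filter, Finset.mem_product] at hq ⊢
        tauto
      · intro q _; rfl
      · intro q _; rfl
      · intro q hq
        simp only [Finset.mem_filter] at hq
        dsimp only
        omega
    rw [e1, e2, e3]
    omega
  · rw [Finset.disjoint_left]
    intro q hq hq'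
    simp only [pairs, Finset.mem_filter] at hq hq'
    omega
  · rw [Finset.disjoint_left]
    intro q hq hq'
    simp only [pairs, Finset.mem_filter, Finset.mem_union] at hq hq'
    rcases hq' with h | h <;> omega

/-- The Erdős–Turán window argument for sets with distinct sums of two distinct members. -/
theorem weakSidon_bound (A : Finset ℕ) (h : WeakSidon A) (N u : ℕ) (hN : ∀ a ∈ A, a < N) :
    (A.card * u) ^ 2 ≤
      (N + u) * (A.card * u + 2 * (A.card * u + ∑ d ∈ Finset.Ico 1 u, (u - d))) := by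
  have h1 := sum_mul A N u hN
  have h2 := sq_sum_le_card_mul_sum_sq (s := Finset.range (N + u))
    (f := fun x => ∑ a ∈ A, (if a ≤ x ∧ x < a + u then 1 else 0))
  rw [h1, Finset.card_range] at h2
  refine h2.trans (Nat.mul_le_mul_left _ ?_)
  refine (sum_sq A N u).trans ?_
  have := sum_pairs A h u
  omega

/-- Vertices: 40 branch vertices and one vertex for each pair of them. -/
abbrev V : Type := Fin 40 ⊕ {p : Fin 40 × Fin 40 // p.1 < p.2}

/-- adjacency in the subdivided complete graph -/
def adj : V → V → Prop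
  | Sum.inl i, Sum.inr p => i = p.1.1 ∨ i = p.1.2
  | Sum.inr p, Sum.inl i => i = p.1.1 ∨ i = p.1.2
  | Sum.inl _, Sum.inl _ => False
  | Sum.inr _, Sum.inr _ => False

/-- The complete graph on 40 vertices with every edge subdivided once. -/
def G : SimpleGraph V where
  Adj := adj
  symm := by
    constructor
    rintro (i | p) (j | q) h
    · exact h
    · exact h
    · exact h
    · exact h
  loopless := by
    constructor
    rintro (i | p) h <;> simp [adj] at h

theorem card_V : Fintype.card V = 820 := by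
  rw [Fintype.card_sum, Fintype.card_fin]
  have : Fintype.card {p : Fin 40 × Fin 40 // p.1 < p.2} = 780 := by
    rw [Fintype.card_subtype]
    decide +kernel
  rw [this]

theorem distinct (u v : V) (huv : u ≠ v) : G.neighborSet u ≠ G.neighborSet v := by
  intro h
  have hh : ∀ w, adj u w ↔ adj v w := fun w => by
    have := Set.ext_iff.mp h w
    simpa [SimpleGraph.mem_neighborSet, G] using this
  have ex : ∀ i : Fin 40, ∃ p : {p : Fin 40 × Fin 40 // p.1 < p.2}, i = p.1.1 ∨ i = p.1.2 := by
    intro i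
    by_cases hi : i = 0
    · exact ⟨⟨(0, 1), by decide⟩, Or.inl hi⟩
    · exact ⟨⟨(0, i), Fin.pos_iff_ne_zero.mpr hi⟩, Or.inr rfl⟩
  rcases u with i | p <;> rcases v with j | q
  · have hij : i ≠ j := fun e => huv (by rw [e])
    obtain ⟨k, hk1, hk2⟩ : ∃ k : Fin 40, k ≠ i ∧ k ≠ j := by
      have : ∃ k ∈ (Finset.univ : Finset (Fin 40)), k ∉ ({i, j} : Finset (Fin 40)) := by
        apply Finset.exists_mem_notMem_of_card_lt_card
        rw [Finset.card_univ, Fintype.card_fin]
        exact (Finset.card_le_two).trans_lt (by norm_num)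
      obtain ⟨k, _, hk⟩ := this
      simp only [Finset.mem_insert, Finset.mem_singleton, not_or] at hk
      exact ⟨k, hk.1, hk.2⟩
    rcases lt_or_gt_of_ne hk1 with hk | hk
    · have := (hh (Sum.inr ⟨(k, i), hk⟩)).mp (Or.inr rfl)
      rcases this with e | e
      · exact hk2 e.symm
      · exact hij e.symm
    · have := (hh (Sum.inr ⟨(i, k), hk⟩)).mp (Or.inl rfl)
      rcases this with e | e
      · exact hij e.symm
      · exact hk2 e.symm
  · obtain ⟨p, hp⟩ := ex i
    exact (hh (Sum.inr p)).mp hp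
  · obtain ⟨q, hq⟩ := ex j
    exact (hh (Sum.inr q)).mpr hq
  · have h1 := (hh (Sum.inl p.1.1)).mp (Or.inl rfl)
    have h2 := (hh (Sum.inl p.1.2)).mp (Or.inr rfl)
    have hp := p.2
    have hq := q.2
    apply huv
    congr 1
    apply Subtype.ext
    rcases h1 with e1 | e1 <;> rcases h2 with e2 | e2
    · rw [e1, e2] at hp; exact absurd hp (lt_irrefl _)
    · exact Prod.ext e1 e2
    · rw [e1, e2] at hp; exact absurd hp (lt_asymm hq)
    · rw [e1, e2] at hp; exact absurd hp (lt_irrefl _)

/-- The negation of the preceding statement: For every finite simple graph, there is a bijective labeling of the vertices by 1..n making all neighbour-label sums distinct if and only if distinct vertices always have distinct open neighbourhoods. -/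
theorem result :
    ¬ (∀ (V : Type) [Fintype V] [DecidableEq V] (G : SimpleGraph V) [DecidableRel G.Adj],
      (∃ f : V ≃ Fin (Fintype.card V),
          Function.Injective
            (fun v : V => ∑ u ∈ G.neighborFinset v, ((f u : ℕ) + 1)))
        ↔ ∀ u v : V, u ≠ v → G.neighborSet u ≠ G.neighborSet v) := by
  intro H
  classical
  obtain ⟨f, hf⟩ := (H V G).mpr distinct
  set g : Fin 40 → ℕ := fun i => (f (Sum.inl i) : ℕ) with hg
  have ginj : Function.Injective g := by
    intro i j h
    have : f (Sum.inl i) = f (Sum.inl j) := Fin.ext h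
    exact Sum.inl_injective (f.injective this)
  have hw : ∀ p : {p : Fin 40 × Fin 40 // p.1 < p.2},
      ∑ u ∈ G.neighborFinset (Sum.inr p), ((f u : ℕ) + 1) = (g p.1.1 + 1) + (g p.1.2 + 1) := by
    intro p
    have : G.neighborFinset (Sum.inr p) = {Sum.inl p.1.1, Sum.inl p.1.2} := by
      ext w
      rw [SimpleGraph.mem_neighborFinset, Finset.mem_insert, Finset.mem_singleton]
      rcases w with i | q
      · show (i = p.1.1 ∨ i = p.1.2) ↔ _
        rw [Sum.inl.injEq, Sum.inl.injEq]
      · show False ↔ _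
        simp
    rw [this, Finset.sum_pair]
    intro e
    have h1 := Sum.inl_injective e
    have h2 := p.2
    rw [h1] at h2
    exact lt_irrefl _ h2
  have key : ∀ i j k l : Fin 40, i < j → k < l → g i + g j = g k + g l → i = k ∧ j = l := by
    intro i j k l hij hkl e
    have := hf (a₁ := Sum.inr ⟨(i, j), hij⟩) (a₂ := Sum.inr ⟨(k, l), hkl⟩) (by
      show ∑ u ∈ G.neighborFinset _, ((f u : ℕ) + 1) = ∑ u ∈ G.neighborFinset _, ((f u : ℕ) + 1)
      rw [hw, hw]
      show (g i + 1) + (g j + 1) = (g k + 1) + (g l + 1)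
      omega)
    have h1 := Subtype.ext_iff.mp (Sum.inr_injective this)
    exact ⟨(Prod.ext_iff.mp h1).1, (Prod.ext_iff.mp h1).2⟩
  have hS : WeakSidon (Finset.univ.image g) := by
    intro a ha b hb c hc d hd hab hcd e
    simp only [Finset.mem_image, Finset.mem_univ, true_and] at ha hb hc hd
    obtain ⟨i, rfl⟩ := ha
    obtain ⟨j, rfl⟩ := hb
    obtain ⟨k, rfl⟩ := hc
    obtain ⟨l, rfl⟩ := hd
    have hij : i ≠ j := fun h => hab (by rw [h])
    have hkl : k ≠ l := fun h => hcd (by rw [h])
    rcases lt_or_gt_of_ne hij with h1 | h1 <;> rcases lt_or_gt_of_ne hkl with h2 | h2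
    · obtain ⟨r1, r2⟩ := key i j k l h1 h2 e
      exact Or.inl ⟨by rw [r1], by rw [r2]⟩
    · obtain ⟨r1, r2⟩ := key i j l k h1 h2 (by omega)
      exact Or.inr ⟨by rw [r1], by rw [r2]⟩
    · obtain ⟨r1, r2⟩ := key j i k l h1 h2 (by omega)
      exact Or.inr ⟨by rw [r2], by rw [r1]⟩
    · obtain ⟨r1, r2⟩ := key j i l k h1 h2 (by omega)
      exact Or.inl ⟨by rw [r2], by rw [r1]⟩
  have hN : ∀ a ∈ Finset.univ.image g, a < 820 := by
    intro a ha
    simp only [Finset.mem_image, Finset.mem_univ, true_and] at ha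
    obtain ⟨i, rfl⟩ := ha
    exact lt_of_lt_of_eq (f (Sum.inl i)).isLt card_V
  have hcard : (Finset.univ.image g).card = 40 := by
    rw [Finset.card_image_of_injective _ ginj, Finset.card_univ, Fintype.card_fin]
  have hb := weakSidon_bound _ hS 820 300 hN
  rw [hcard] at hb
  have hsum : ∑ d ∈ Finset.Ico 1 300, (300 - d) = 44850 := by decide +kernel
  rw [hsum] at hb
  norm_num at hb

end Pool.Agent.S12612
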