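import Pool.Statements.S12786
import Pool.Agent.Lib.MP_13800a_gt.Final

set_option autoImplicit false
open Pool Pool.MP_13800a_gt

namespace Pool.Agent.S12786

/-- The negation of the preceding statement: For metric spaces, if f: X → Y is a proper surjection whose fibres are cell-like, f is completely regular, and X has finite covering dimension, then Y has finite covering dimension. -/
theorem result :
    ¬ (∀ (X Y : Type) [MetricSpace X] [MetricSpace Y] (f : X → Y),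
      IsProperMap f → Function.Surjective f →
      (∀ y : Y, ∀ e : ↥(f ⁻¹' {y}) → (ℕ → unitInterval), Topology.IsEmbedding e →
        ∀ U : Set (ℕ → unitInterval), IsOpen U → Set.range e ⊆ U →
          ∃ H : unitInterval × ↥(f ⁻¹' {y}) → (ℕ → unitInterval), Continuous H ∧
            (∀ k : ↥(f ⁻¹' {y}), H ((0 : unitInterval), k) = e k) ∧
            (∃ q : ℕ → unitInterval, ∀ k : ↥(f ⁻¹' {y}), H ((1 : unitInterval), k) = q) ∧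
            ∀ (t : unitInterval) (k : ↥(f ⁻¹' {y})), H (t, k) ∈ U) →
      (∀ ε : ℝ, 0 < ε → ∀ y : Y, ∃ δ : ℝ, 0 < δ ∧ ∀ y' : Y, dist y' y < δ →
        ∃ h : ↥(f ⁻¹' {y}) ≃ₜ ↥(f ⁻¹' {y'}),
          ∀ x : ↥(f ⁻¹' {y}), dist (x : X) ((h x : ↥(f ⁻¹' {y'})) : X) < ε) →
      (∃ n : ℕ, ∀ 𝒰 : Finset (Set X), (∀ U ∈ 𝒰, IsOpen U) →
        ⋃₀ (↑𝒰 : Set (Set X)) = Set.univ →
        ∃ 𝒱 : Finset (Set X), (∀ V ∈ 𝒱, IsOpen V) ∧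
          ⋃₀ (↑𝒱 : Set (Set X)) = Set.univ ∧ (∀ V ∈ 𝒱, ∃ U ∈ 𝒰, V ⊆ U) ∧
          ∀ 𝒮 : Finset (Set X), 𝒮 ⊆ 𝒱 → n + 1 < 𝒮.card →
            ⋂₀ (↑𝒮 : Set (Set X)) = ∅) →
      (∃ n : ℕ, ∀ 𝒰 : Finset (Set Y), (∀ U ∈ 𝒰, IsOpen U) →
        ⋃₀ (↑𝒰 : Set (Set Y)) = Set.univ →
        ∃ 𝒱 : Finset (Set Y), (∀ V ∈ 𝒱, IsOpen V) ∧
          ⋃₀ (↑𝒱 : Set (Set Y)) = Set.univ ∧ (∀ V ∈ 𝒱, ∃ U ∈ 𝒰, V ⊆ U) ∧
          ∀ 𝒮 : Finset (Set Y), 𝒮 ⊆ 𝒱 → n + 1 < 𝒮.card →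
            ⋂₀ (↑𝒮 : Set (Set Y)) = ∅)) := by
  exact Pool.Agent.CRC.final

end Pool.Agent.S12786
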