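import Pool.Statements.S13644
import Pool.Agent.Lib.MP_9c87eb_gt.Main

set_option autoImplicit false
open Pool Pool.MP_9c87eb_gt

namespace Pool.Agent.S13644

/-- The negation of the preceding statement: For every compact Hilbert-cube manifold F, the space of embeddings of F into (0,1)^ℕ modulo reparametrization by self-homeomorphisms of F is an absolute neighborhood extensor for compact metric spaces. -/
theorem result :
    ¬ (∀ (F : Type) [TopologicalSpace F] [T2Space F] [CompactSpace F],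
    (∀ x : F, ∃ U : Set F, IsOpen U ∧ x ∈ U ∧
        ∃ V : Set (ℕ → unitInterval), IsOpen V ∧ Nonempty (U ≃ₜ V)) →
    ∀ (X : Type) [MetricSpace X] [CompactSpace X] (A : Set X), IsClosed A →
      ∀ f : C(A, Quot (fun φ ψ : {φ : C(F, ℕ → Set.Ioo (0:ℝ) 1) // Topology.IsEmbedding ⇑φ} =>
                ∃ h : F ≃ₜ F, ∀ x : F, ψ.1 x = φ.1 (h x))),
        ∃ U : Set X, IsOpen U ∧ ∃ hAU : A ⊆ U,
          ∃ g : C(U, Quot (fun φ ψ : {φ : C(F, ℕ → Set.Ioo (0:ℝ) 1) // Topology.IsEmbedding ⇑φ} =>
                ∃ h : F ≃ₜ F, ∀ x : F, ψ.1 x = φ.1 (h x))),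
            ∀ a : A, g (Set.inclusion hAU a) = f a) := by
  exact Pool.Agent.MQ.final

end Pool.Agent.S13644
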