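import Pool.Statements.S13864
import Pool.Agent.Lib.MP_c058bc_gt.Contradiction

set_option autoImplicit false
open Pool Pool.MP_c058bc_gt

namespace Pool.Agent.S13864

open Pool.Agent.Lib.MP_c058bc_gt

/-- the lengths of words representing an element -/
def WS (S : Finset (Matrix.SpecialLinearGroup (Fin 3) ℤ)) (γ : Matrix.SpecialLinearGroup (Fin 3) ℤ) : Set ℕ :=
  {n : ℕ | ∃ l : List (Matrix.SpecialLinearGroup (Fin 3) ℤ),
    l.length = n ∧ (∀ x ∈ l, x ∈ S ∨ x⁻¹ ∈ S) ∧ l.prod = γ}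

lemma WS_nonempty {S : Finset (Matrix.SpecialLinearGroup (Fin 3) ℤ)}
    (hS : Subgroup.closure (S : Set (Matrix.SpecialLinearGroup (Fin 3) ℤ)) = ⊤)
    (γ : Matrix.SpecialLinearGroup (Fin 3) ℤ) : (WS S γ).Nonempty := by
  have hmem : γ ∈ Subgroup.closure (S : Set (Matrix.SpecialLinearGroup (Fin 3) ℤ)) := by
    rw [hS]
    exact Subgroup.mem_top γ
  have hmem' : γ ∈ Submonoid.closure ((S : Set (Matrix.SpecialLinearGroup (Fin 3) ℤ)) ∪
      (S : Set (Matrix.SpecialLinearGroup (Fin 3) ℤ))⁻¹) := by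
    rw [← Subgroup.closure_toSubmonoid]
    exact hmem
  obtain ⟨l, hl, hprod⟩ := Submonoid.exists_list_of_mem_closure hmem'
  refine ⟨l.length, l, rfl, fun x hx => ?_, hprod⟩
  rcases hl x hx with h | h
  · exact Or.inl (Finset.mem_coe.mp h)
  · exact Or.inr (Finset.mem_coe.mp (Set.mem_inv.mp h))

/-- word length -/
noncomputable def wl (S : Finset (Matrix.SpecialLinearGroup (Fin 3) ℤ))
    (γ : Matrix.SpecialLinearGroup (Fin 3) ℤ) : ℝ := ((sInf (WS S γ) : ℕ) : ℝ)

lemma wl_isLen {S : Finset (Matrix.SpecialLinearGroup (Fin 3) ℤ)}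
    (hS : Subgroup.closure (S : Set (Matrix.SpecialLinearGroup (Fin 3) ℤ)) = ⊤) : IsLen (wl S) where
  nonneg γ := Nat.cast_nonneg _
  mul_le g h := by
    obtain ⟨l1, h1, h2, h3⟩ := Nat.sInf_mem (WS_nonempty hS g)
    obtain ⟨l2, k1, k2, k3⟩ := Nat.sInf_mem (WS_nonempty hS h)
    have hmem : l1.length + l2.length ∈ WS S (g * h) := by
      refine ⟨l1 ++ l2, List.length_append, ?_, ?_⟩
      · intro x hx
        rcases List.mem_append.mp hx with hx | hx
        · exact h2 x hx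
        · exact k2 x hx
      · rw [List.prod_append, h3, k3]
    have hle := Nat.sInf_le hmem
    unfold wl
    rw [← h1, ← k1]
    exact_mod_cast hle
  inv_eq g := by
    have key : ∀ g, sInf (WS S g⁻¹) ≤ sInf (WS S g) := by
      intro g
      obtain ⟨l1, h1, h2, h3⟩ := Nat.sInf_mem (WS_nonempty hS g)
      have hmem : l1.length ∈ WS S g⁻¹ := by
        refine ⟨(l1.map (fun x => x⁻¹)).reverse, by simp, ?_, ?_⟩
        · intro x hx
          rw [List.mem_reverse, List.mem_map] at hx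
          obtain ⟨y, hy, rfl⟩ := hx
          rw [inv_inv]
          exact (h2 y hy).symm
        · rw [← h3, List.prod_inv_reverse]
      rw [← h1]
      exact Nat.sInf_le hmem
    have k1 := key g
    have k2 := key g⁻¹
    rw [inv_inv] at k2
    unfold wl
    rw [le_antisymm k1 k2]

lemma len_le_wl {S : Finset (Matrix.SpecialLinearGroup (Fin 3) ℤ)}
    (hS : Subgroup.closure (S : Set (Matrix.SpecialLinearGroup (Fin 3) ℤ)) = ⊤) :
    ∃ L : ℝ, 0 < L ∧ ∀ γ, len (toR γ) ≤ L * (1 + wl S γ) := by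
  set M : ℝ := ∑ x ∈ S, len (toR x) with hM
  have hM0 : 0 ≤ M := Finset.sum_nonneg fun x _ => len_nonneg _
  have hlist : ∀ l : List (Matrix.SpecialLinearGroup (Fin 3) ℤ), (∀ x ∈ l, x ∈ S ∨ x⁻¹ ∈ S) →
      len (toR l.prod) ≤ len (toR 1) + M * l.length := by
    intro l
    induction l with
    | nil => intro _; simp
    | cons a l ih =>
      intro hl
      have h1 := ih (fun x hx => hl x (List.mem_cons_of_mem _ hx))
      have h2 : len (toR a) ≤ M := by
        rcases hl a List.mem_cons_self with h | h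
        · exact Finset.single_le_sum (f := fun x => len (toR x)) (fun x _ => len_nonneg _) h
        · have h3 : len (toR a⁻¹) ≤ M :=
            Finset.single_le_sum (f := fun x => len (toR x)) (fun x _ => len_nonneg _) h
          rw [map_inv, len_inv] at h3
          exact h3
      rw [List.prod_cons, map_mul, List.length_cons]
      have h4 := len_mul_le (toR a) (toR l.prod)
      push_cast
      linarith
  refine ⟨len (toR 1) + M + 1, by linarith [len_nonneg (toR 1)], fun γ => ?_⟩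
  obtain ⟨l, h1, h2, h3⟩ := Nat.sInf_mem (WS_nonempty hS γ)
  have h4 := hlist l h2
  rw [h3] at h4
  have h5 : (l.length : ℝ) = wl S γ := by
    unfold wl
    rw [← h1]
  rw [h5] at h4
  have h6 : 0 ≤ wl S γ := Nat.cast_nonneg _
  have h7 := len_nonneg (toR 1)
  nlinarith

/-- The negation of the preceding statement: For some finite generating set S of SL(3,Z) there is a map into L^1 of some measure space and constants c>0, C with c·d_S(g,h) ≤ ‖f g − f h‖ ≤ C·d_S(g,h), where d_S is the word metric. -/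
theorem result :
    ¬ (∃ (S : Finset (Matrix.SpecialLinearGroup (Fin 3) ℤ)),
      Subgroup.closure (S : Set (Matrix.SpecialLinearGroup (Fin 3) ℤ)) = ⊤ ∧
      ∃ (Ω : Type) (_ : MeasurableSpace Ω) (μ : MeasureTheory.Measure Ω)
        (f : Matrix.SpecialLinearGroup (Fin 3) ℤ → MeasureTheory.Lp ℝ 1 μ) (c C : ℝ),
        0 < c ∧
        ∀ g h : Matrix.SpecialLinearGroup (Fin 3) ℤ,
          c * ((sInf {n : ℕ | ∃ l : List (Matrix.SpecialLinearGroup (Fin 3) ℤ),
                l.length = n ∧ (∀ x ∈ l, x ∈ S ∨ x⁻¹ ∈ S) ∧ l.prod = g⁻¹ * h} : ℕ) : ℝ)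
            ≤ ‖f g - f h‖ ∧
          ‖f g - f h‖ ≤
            C * ((sInf {n : ℕ | ∃ l : List (Matrix.SpecialLinearGroup (Fin 3) ℤ),
                l.length = n ∧ (∀ x ∈ l, x ∈ S ∨ x⁻¹ ∈ S) ∧ l.prod = g⁻¹ * h} : ℕ) : ℝ)) := by
  rintro ⟨S, hS, Ω, mΩ, μ, f, c, C, hc, hf⟩
  have hf' : ∀ g h, c * wl S (g⁻¹ * h) ≤ ‖f g - f h‖ ∧ ‖f g - f h‖ ≤ C * wl S (g⁻¹ * h) := hf
  obtain ⟨K, hK0, hK⟩ := lmr (wl_isLen hS)
  obtain ⟨L, hL0, hL⟩ := len_le_wl hS
  have hgood : Good (fun g h => ‖f g - f h‖) (c / L) (|C| * K + c) := by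
    refine ⟨Cone.lp f, by positivity, ?_, ?_⟩
    · intro γ δ
      have h1 := (hf' γ δ).2
      have h2 := hK (γ⁻¹ * δ)
      have h3 : 0 ≤ wl S (γ⁻¹ * δ) := Nat.cast_nonneg _
      have h4 := len_nonneg (toR (γ⁻¹ * δ))
      calc ‖f γ - f δ‖ ≤ C * wl S (γ⁻¹ * δ) := h1
        _ ≤ |C| * wl S (γ⁻¹ * δ) := mul_le_mul_of_nonneg_right (le_abs_self C) h3
        _ ≤ |C| * (K * (1 + len (toR (γ⁻¹ * δ)))) := mul_le_mul_of_nonneg_left h2 (abs_nonneg C)
        _ ≤ (|C| * K + c) * (1 + len (toR (γ⁻¹ * δ))) := by nlinarith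
    · intro γ δ
      have h1 := (hf' γ δ).1
      have h2 := hL (γ⁻¹ * δ)
      have h5 : c / L * len (toR (γ⁻¹ * δ)) ≤ c * (1 + wl S (γ⁻¹ * δ)) := by
        have := mul_le_mul_of_nonneg_left h2 (show 0 ≤ c / L by positivity)
        calc c / L * len (toR (γ⁻¹ * δ)) ≤ c / L * (L * (1 + wl S (γ⁻¹ * δ))) := this
          _ = c * (1 + wl S (γ⁻¹ * δ)) := by field_simp
      have h6 : 0 ≤ |C| * K := by positivity
      show c / L * len (toR (γ⁻¹ * δ)) - (|C| * K + c) ≤ ‖f γ - f δ‖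
      linarith
  exact no_good hgood

end Pool.Agent.S13864
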