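import Pool.Statements.S13940
import Pool.Agent.Lib.MP_c95dcf_gt.All

set_option autoImplicit false
open Pool Pool.MP_c95dcf_gt

namespace Pool.Agent.S13940

/-- The negation of the preceding statement: In any origin-symmetric convex body in R^n (n≥2), for any proportion t in (0,1), every area-minimizing interface splitting off volume fraction t is met at most once by every line in some fixed direction, i.e. is a graph. -/
theorem result :
    ¬ (∀ (n : ℕ), 2 ≤ n → ∀ (K : Set (EuclideanSpace ℝ (Fin n))),
      Convex ℝ K → IsCompact K → (interior K).Nonempty → (∀ x ∈ K, -x ∈ K) →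
      ∀ t : ℝ, 0 < t → t < 1 →
      ∀ E : Set (EuclideanSpace ℝ (Fin n)), E ⊆ K → IsClosed E → closure (interior E) = E →
        MeasureTheory.volume E = ENNReal.ofReal t * MeasureTheory.volume K →
        (∀ F : Set (EuclideanSpace ℝ (Fin n)), F ⊆ K → IsClosed F →
          closure (interior F) = F →
          MeasureTheory.volume F = ENNReal.ofReal t * MeasureTheory.volume K →
          MeasureTheory.Measure.hausdorffMeasure ((n : ℝ) - 1) (frontier E ∩ interior K) ≤
            MeasureTheory.Measure.hausdorffMeasure ((n : ℝ) - 1) (frontier F ∩ interior K)) →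
        ∃ v : EuclideanSpace ℝ (Fin n), v ≠ 0 ∧
          ∀ x ∈ frontier E ∩ interior K, ∀ y ∈ frontier E ∩ interior K,
            ∀ c : ℝ, y = x + c • v → x = y) := by
  exact Pool.Agent.Lib.MP_c95dcf_gt.fin_result

end Pool.Agent.S13940
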