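import Pool.Statements.S14665
import Pool.Agent.Lib.MP_4ac633_lc.TDMain
import Pool.Agent.Lib.MP_4ac633_lc.FinalOfCount

/-!
The Tu-Deng conjecture (`Pool.Agent.Lib.MP_4ac633_lc.TD.tuDeng`) and the argument of Tu and Deng.
-/

set_option autoImplicit false
open Pool Pool.MP_4ac633_lc

namespace Pool.Agent.S14665

/-- For every m there is a Boolean function f on 2m bits with all Walsh coefficients of absolute value 2^m (bent) such that a nonzero annihilator of f or f+1 of degree at most d exists exactly when d ≥ m, i.e. AI(f) = m. -/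
theorem result :
  ∀ m : ℕ, ∃ f : (Fin (2*m) → ZMod 2) → ZMod 2,
    (∀ a : Fin (2*m) → ZMod 2,
      (∑ x : Fin (2*m) → ZMod 2, (-1 : ℤ) ^ (f x + ∑ i, a i * x i).val) ^ 2 = 2 ^ (2*m)) ∧
    ∀ d : ℕ, ((∃ g : (Fin (2*m) → ZMod 2) → ZMod 2, g ≠ 0 ∧
        ((∀ x, f x * g x = 0) ∨ (∀ x, (f x + 1) * g x = 0)) ∧
        ∃ c : Finset (Fin (2*m)) → ZMod 2, (∀ S, c S ≠ 0 → S.card ≤ d) ∧
          ∀ x, g x = ∑ S : Finset (Fin (2*m)), c S * ∏ i ∈ S, x i) ↔ m ≤ d) :=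
  Pool.Agent.Lib.MP_4ac633_lc.frozen_of_count
    (fun m t hm h0 ht => Pool.Agent.Lib.MP_4ac633_lc.TD.tuDeng m t hm h0 ht)

end Pool.Agent.S14665
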