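import Pool.Statements.S14778
import Pool.Agent.Lib.MP_5fb53e_lc.Final

set_option autoImplicit false
open Pool Pool.MP_5fb53e_lc

namespace Pool.Agent.S14778

/-- The negation of the preceding statement: There is a fixed k such that every disk graph is identified up to isomorphism by k-variable counting logic: any finite graph on which Duplicator wins the bijective k-pebble game against it is isomorphic to it. -/
theorem result :
    ¬ (∃ k : ℕ, ∀ (n : ℕ) (G : SimpleGraph (Fin n)),
      (∃ c : Fin n → EuclideanSpace ℝ (Fin 2), ∃ r : Fin n → ℝ,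
          (∀ i, 0 < r i) ∧
          ∀ i j, i ≠ j → (G.Adj i j ↔ dist (c i) (c j) ≤ r i + r j)) →
      ∀ (m : ℕ) (H : SimpleGraph (Fin m)),
        (∃ P : Set ((Fin k → Fin n) × (Fin k → Fin m)),
          (∀ p ∈ P, ∀ i j : Fin k,
              (p.1 i = p.1 j ↔ p.2 i = p.2 j) ∧
              (G.Adj (p.1 i) (p.1 j) ↔ H.Adj (p.2 i) (p.2 j))) ∧
          (∀ p ∈ P, ∀ i : Fin k, ∃ f : Fin n ≃ Fin m, ∀ v : Fin n,
              (Function.update p.1 i v, Function.update p.2 i (f v)) ∈ P) ∧
          (∃ f : Fin n ≃ Fin m, ∀ v : Fin n,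
              ((fun _ : Fin k => v), (fun _ : Fin k => f v)) ∈ P)) →
        Nonempty (G ≃g H)) := by
  rintro ⟨k, hk⟩
  obtain ⟨α, _, G, H, ⟨c, r, hr, hc⟩, ⟨P, hP1, hP2, hP3⟩, hno⟩ := Pool.Agent.DiskCFI.final k
  classical
  let e : α ≃ Fin (Fintype.card α) := Fintype.equivFin α
  have h := hk (Fintype.card α) (G.comap e.symm) ?_ (Fintype.card α) (H.comap e.symm) ?_
  · obtain ⟨Φ⟩ := h
    exact hno.false (((SimpleGraph.Iso.comap e.symm G).symm.trans Φ).trans
      (SimpleGraph.Iso.comap e.symm H))
  · refine ⟨fun i => !₂[(c (e.symm i)).1, (c (e.symm i)).2], fun i => r (e.symm i),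
      fun i => hr _, fun i j hij => ?_⟩
    have h1 : e.symm i ≠ e.symm j := fun h => hij (e.symm.injective h)
    rw [SimpleGraph.comap_adj, hc _ _ h1, EuclideanSpace.dist_eq]
    have h2 : 0 ≤ r (e.symm i) + r (e.symm j) := by
      have := hr (e.symm i)
      have := hr (e.symm j)
      linarith
    rw [Real.sqrt_le_left h2]
    simp [Real.dist_eq, sq_abs]
  · refine ⟨{p | (fun i => e.symm (p.1 i), fun i => e.symm (p.2 i)) ∈ P}, ?_, ?_, ?_⟩
    · intro p hp i j
      have := hP1 _ hp i j
      simp only [EmbeddingLike.apply_eq_iff_eq] at this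
      exact this
    · intro p hp i
      obtain ⟨f, hf⟩ := hP2 _ hp i
      refine ⟨(e.symm.trans f).trans e, fun v => ?_⟩
      have h1 := hf (e.symm v)
      simp only [Set.mem_ofPred_eq]
      convert h1 using 2
      · funext j
        simp only [Function.update_apply]
        split_ifs <;> simp
      · funext j
        simp only [Function.update_apply]
        split_ifs <;> simp
    · obtain ⟨f, hf⟩ := hP3
      refine ⟨(e.symm.trans f).trans e, fun v => ?_⟩
      have h1 := hf (e.symm v)
      simp only [Set.mem_ofPred_eq]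
      convert h1 using 2
      simp

end Pool.Agent.S14778
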