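import Pool.Statements.S15625
import Pool.Agent.Lib.MP_f7662b_lc.Main

set_option autoImplicit false
open Pool Pool.MP_f7662b_lc

namespace Pool.Agent.S15625

/-- For every field k and n, if two finite tuples in the polynomial ring k[x1..xn] satisfy the same first-order ring formulas with parameters from k, then some k-algebra automorphism of k[x1..xn] maps the first tuple onto the second. -/
theorem result :
    ∀ (k : Type) [Field k] (n m : ℕ) (a b : Fin m → MvPolynomial (Fin n) k),
      (∀ (r : ℕ) (c : Fin r → k) (φ : FirstOrder.Language.ring.Formula (Fin m ⊕ Fin r)),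
        (@FirstOrder.Language.Formula.Realize FirstOrder.Language.ring (MvPolynomial (Fin n) k)
            (FirstOrder.Ring.compatibleRingOfRing (MvPolynomial (Fin n) k)).toStructure
            (Fin m ⊕ Fin r) φ (Sum.elim a (fun i => algebraMap k (MvPolynomial (Fin n) k) (c i))) ↔
          @FirstOrder.Language.Formula.Realize FirstOrder.Language.ring (MvPolynomial (Fin n) k)
            (FirstOrder.Ring.compatibleRingOfRing (MvPolynomial (Fin n) k)).toStructure
            (Fin m ⊕ Fin r) φ (Sum.elim b (fun i => algebraMap k (MvPolynomial (Fin n) k) (c i))))) →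
      ∃ σ : MvPolynomial (Fin n) k ≃ₐ[k] MvPolynomial (Fin n) k, ∀ i, σ (a i) = b i := by
  intro k _ n m a b hab
  exact Pool.Agent.Lib.MP_f7662b_lc.homogeneous k n m a b hab

end Pool.Agent.S15625
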