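import Pool.Statements.S18011
import Pool.Agent.Lib.MP_a37012_nt.PtD
import Pool.Agent.Lib.MP_a37012_nt.ParOne
import Pool.Agent.Lib.MP_a37012_nt.Count3
import Pool.Agent.Lib.MP_a37012_nt.Final3

set_option autoImplicit false
open Pool Pool.MP_a37012_nt

namespace Pool.Agent.S18011

/-- For every C^l immersion f of an open set in R^d into R^n, 1<d<n, nondegenerate at a.e. point, and every ball B with closure in U: for large Q and C2 Q^(-1/(n-d))<ψ<1, the pairs (p,q), q≤Q, with dist(p/q,f(B))≤ψ/q number at least C1 ψ^(n-d) Q^(d+1). -/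
theorem result :
  ∀ (d n l : ℕ), 1 < d → d < n → 1 ≤ l →
  ∀ (U : Set (EuclideanSpace ℝ (Fin d))) (f : EuclideanSpace ℝ (Fin d) → EuclideanSpace ℝ (Fin n)),
    IsOpen U → ContDiffOn ℝ (l : ℕ) f U →
    (∀ x ∈ U, Function.Injective (fderiv ℝ f x)) →
    (∀ᵐ x ∂(MeasureTheory.volume.restrict U),
      Submodule.span ℝ {y : EuclideanSpace ℝ (Fin n) | ∃ k : ℕ, 1 ≤ k ∧ k ≤ l ∧
        ∃ w : Fin k → EuclideanSpace ℝ (Fin d), y = iteratedFDeriv ℝ k f x w} = ⊤) →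
    ∀ (x₀ : EuclideanSpace ℝ (Fin d)) (r : ℝ), 0 < r → Metric.closedBall x₀ r ⊆ U →
    ∃ C₁ C₂ : ℝ, 0 < C₁ ∧ 0 < C₂ ∧ ∃ Q₀ : ℝ, ∀ Q ψ : ℝ, Q₀ ≤ Q →
      C₂ * Q ^ (-(1:ℝ) / ((n:ℝ) - (d:ℝ))) < ψ → ψ < 1 →
      C₁ * ψ ^ (n - d) * Q ^ (d + 1) ≤
        (({pq : (Fin n → ℤ) × ℕ | 1 ≤ pq.2 ∧ (pq.2 : ℝ) ≤ Q ∧
          Metric.infDist ((EuclideanSpace.equiv (Fin n) ℝ).symm (fun i => (pq.1 i : ℝ) / (pq.2 : ℝ)))
            (f '' Metric.ball x₀ r) ≤ ψ / (pq.2 : ℝ)}.ncard : ℕ) : ℝ) := by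
  refine Pool.Agent.Lib.MP_a37012_nt.final_of_graph ?_
  intro d m l hd hm hl V hV F hF y₀ hy₀ hnd
  obtain ⟨j₀, k₀, hcl, hgood⟩ : ∃ (j₀ : ℕ) (k₀ : Fin d → ℤ),
      closure (Pool.Agent.Lib.MP_a37012_nt.cube j₀ k₀) ⊆ V ∧
        Pool.Agent.Lib.MP_a37012_nt.ParGood F j₀ k₀ := by
    rcases Nat.lt_or_ge 1 m with h | h
    · exact Pool.Agent.Lib.MP_a37012_nt.parGood_two d m l hd h hl V hV F hF y₀ hy₀ hnd
    · obtain rfl : m = 1 := by omega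
      exact Pool.Agent.Lib.MP_a37012_nt.parGood_one d l hd hl V hV F hF y₀ hy₀ hnd
  exact Pool.Agent.Lib.MP_a37012_nt.count_of_good d m hd hm V hV F
    (fun i => (hF i).of_le (by exact_mod_cast hl)) j₀ k₀ hcl hgood


end Pool.Agent.S18011
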