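import Pool.Statements.S18608
import Pool.Agent.Lib.MP_d49ebf_nt.CaseB

set_option autoImplicit false
open Necf28299
open Filter
open Pool Pool.MP_d49ebf_nt

namespace Pool.Agent.S18608

/-- The increasing enumeration of a subset-sum-free set with small gaps satisfies the hypotheses. -/
theorem hyp_of (A : Set ℕ) (hA : A.Infinite) (hfree : IsSubsetSumFree A)
    (hgap : ∀ᶠ n : ℕ in atTop, gap A n < n) :
    Pool.Agent.Lib.MP_d49ebf_nt.Hyp (Nat.nth (· ∈ A)) := by
  classical
  have hmono : StrictMono (Nat.nth (· ∈ A)) := Nat.nth_strictMono hA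
  have hmem : ∀ n, Nat.nth (· ∈ A) n ∈ A := fun n => Nat.nth_mem_of_infinite hA n
  refine ⟨hmono, ?_, ?_⟩
  · intro n S hS hsum
    apply (hfree _ (hmem n)).2
    refine ⟨S.image (Nat.nth (· ∈ A)), ?_, ?_⟩
    · intro x hx
      rw [Finset.mem_coe, Finset.mem_image] at hx
      obtain ⟨i, hi, rfl⟩ := hx
      exact ⟨hmem i, hmono (hS i hi)⟩
    · rw [Finset.sum_image (fun x _ y _ h => hmono.injective h), hsum]
  · rw [Filter.eventually_atTop] at hgap
    obtain ⟨n0, hn0⟩ := hgap
    refine ⟨n0, ?_⟩
    intro n hn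
    have h := hn0 (n + 1) (by omega)
    unfold gap at h
    rw [Nat.add_sub_cancel] at h
    have h2 : Nat.nth (· ∈ A) n < Nat.nth (· ∈ A) (n + 1) := hmono (by omega)
    omega

/-- The negation of the preceding statement: There exists an infinite set A ⊆ ℕ of positive integers, none of which is a sum of distinct smaller elements of A, such that eventually a_{n+1} − a_n < n (0-indexed nth, so gap A n = a_{n+1}−a_n in 1-indexed notation). -/
theorem result :
    ¬ (∃ A : Set ℕ, A.Infinite ∧ IsSubsetSumFree A ∧ ∀ᶠ n : ℕ in atTop, gap A n < n) := by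
  rintro ⟨A, hA, hfree, hgap⟩
  exact (hyp_of A hA hfree hgap).false

end Pool.Agent.S18608
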